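import Mathlib

/-!
# Finite reflection-stable sets of vectors: definitions

`E` is a Euclidean space, `P` a finite set of nonzero vectors stable under its reflections.
-/

set_option autoImplicit false

open scoped InnerProductSpace

namespace Pool.Agent.Lib.MP_4322ef_CH

variable {E : Type} [NormedAddCommGroup E] [InnerProductSpace ℝ E]

/-- the reflection in `al` -/
noncomputable def sr (al x : E) : E := x - (2 * ⟪x, al⟫_ℝ / ⟪al, al⟫_ℝ) • al

/-- a finite set of nonzero vectors stable under its reflections -/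
structure RSys (P : Finset E) : Prop where
  ne : ∀ al ∈ P, al ≠ 0
  refl : ∀ al ∈ P, ∀ be ∈ P, sr al be ∈ P

/-- half of the sum of the `|⟪al, x⟫|` -/
noncomputable def hh (P : Finset E) (x : E) : ℝ := (1 / 2) * ∑ al ∈ P, |⟪al, x⟫_ℝ|

/-- `H` is regular -/
def Rg (P : Finset E) (H : E) : Prop := ∀ al ∈ P, ⟪al, H⟫_ℝ ≠ 0

/-- the closed chamber of `H` -/
def Chm (P : Finset E) (H : E) : Set E := {c | ∀ al ∈ P, 0 < ⟪al, H⟫_ℝ → 0 ≤ ⟪al, c⟫_ℝ}

open Classical in
/-- the sum of the vectors of `P` which are positive on `c` -/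
noncomputable def vc (P : Finset E) (c : E) : E := ∑ al ∈ P.filter (fun al => 0 < ⟪al, c⟫_ℝ), al

/-- the hull -/
def ZZ (P : Finset E) : Set E := {p | ∀ x, ⟪p, x⟫_ℝ ≤ hh P x}

end Pool.Agent.Lib.MP_4322ef_CH
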