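import Pool.Agent.Lib.MP_4322ef_CH.Defs
import Pool.Agent.Lib.MP_4322ef_CH.RDefs

/-!
# The convex hull conjecture for complex groups: definitions, second part

Langlands parameters, weights generating the Weyl chambers, the weights `y` of the test modules.
-/

set_option autoImplicit false

open scoped InnerProductSpace

namespace Pool.Agent.Lib.MP_4322ef_CH

open Pool.Agent.Lib.MP_4322ef_al.SR

variable {g : Type} [NormedAddCommGroup g] [InnerProductSpace ℝ g]

/-- `|⟪y, al^vee⟫| ≤ 1` for all roots `al`: `y` is minuscule. -/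
def Mins (L : RedLie g) (a : Submodule ℝ g) (y : g) : Prop :=
  ∀ al ∈ roots L a, 2 * |⟪y, al⟫_ℝ| ≤ ⟪al, al⟫_ℝ

/-- The weights in `S` are dominant for the positive system of `H` and generate its closed Weyl
chamber modulo the centre (for instance `S` = the fundamental weights). -/
def Gen (L : RedLie g) (a : Submodule ℝ g) (H : g) (S : Finset g) : Prop :=
  (∀ y ∈ S, ∀ al ∈ roots L a, 0 < ⟪al, H⟫_ℝ → 0 ≤ ⟪al, y⟫_ℝ) ∧
  ∀ x ∈ a, (∀ al ∈ roots L a, 0 < ⟪al, H⟫_ℝ → 0 ≤ ⟪al, x⟫_ℝ) →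
    ∃ c : g → ℝ, (∀ y ∈ S, 0 ≤ c y) ∧ ∀ al ∈ roots L a, ⟪al, x - ∑ y ∈ S, c y • y⟫_ℝ = 0

section
variable {L : RedLie g} (J : CStr L) (a : Submodule ℝ g)
  {X : Type} [AddCommGroup X] [Module ℂ X] (op : g → X →ₗ[ℂ] X)

/-- `(mu, nu)` is a Langlands parameter of `X`: `nu` is dominant for a positive system, and `X` is a
submodule of the principal series of this positive system with parameter `(mu, nu)`. -/
def IsLang (mu nu : g) : Prop :=
  ∃ H₂, Reg L a H₂ ∧ (∀ al ∈ roots L a, 0 < ⟪al, H₂⟫_ℝ → 0 ≤ ⟪al, nu⟫_ℝ) ∧ InPS J a op H₂ mu nu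

/-- The `k₀`-type `V₀` of `X` occurs in `V ⊗ Y`, where `V` is the irreducible representation of `k₀`
with extreme weight `mu - y`, and the product of vectors of the weights `mu - y` and `y` has a nonzero
component in `V₀`. (This is always so: the theorem of Parthasarathy, Ranga Rao and Varadarajan and of
Kumar.) -/
def PRVData (V₀ : Submodule ℂ X) {Y : Type} [NormedAddCommGroup Y] [InnerProductSpace ℂ Y]
    (s : CRep J Y) (mu y : g) : Prop :=
  ∃ (V : Type) (_ : NormedAddCommGroup V) (_ : InnerProductSpace ℂ V) (_ : FiniteDimensional ℂ V)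
    (t : CRep J V) (b : V →ₗ[ℂ] Y →ₗ[ℂ] X), Irr t ∧ IsExt J a t.op ⊤ (mu - y) ∧
    (∀ v u, b v u ∈ V₀) ∧
    (∀ Z, L.th Z = Z → ∀ v u, op Z (b v u) = b (t.op Z v) u + b v (s.op Z u)) ∧
    ∃ v u, b v u ≠ 0 ∧ (∀ H ∈ a, t.op H v = (⟪mu - y, H⟫_ℝ : ℂ) • v) ∧
      ∀ H ∈ a, s.op H u = (⟪y, H⟫_ℝ : ℂ) • u

/-- `y` is an extreme weight of an irreducible finite dimensional complex linear representation `Y`,
and either `y` is minuscule, or `y` and `rho - y` are dominant and `mu` and `mu - y` are not separated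
by a root hyperplane or `PRVData` holds. -/
def Good (V₀ : Submodule ℂ X) (mu y : g) : Prop :=
  ∃ (Y : Type) (_ : NormedAddCommGroup Y) (_ : InnerProductSpace ℂ Y) (_ : FiniteDimensional ℂ Y)
    (s : CRep J Y), Irr s ∧ IsExt J a s.op ⊤ y ∧
    (Mins L a y ∨ (Fund L a y ∧
      ((∀ al ∈ roots L a, 0 < ⟪al, mu⟫_ℝ → 0 ≤ ⟪al, mu - y⟫_ℝ) ∨ PRVData J a op V₀ s mu y)))

/-- All weights of `V` lie in the hull translated by `z`. If `z` is central this says that `V` is
unitarily small with `λ_u = z`. -/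
def SmallAt (z : g) (V : Submodule ℂ X) : Prop :=
  ∀ lam, IsWt J a op V lam → InHull L a (lam - z)

variable {J} in
/-- `g` acts faithfully on `E`, and every operator of trace zero on `E` comes from `g`: `g` is
`gl(E)` or `sl(E)`. -/
def TypeA {E : Type} [NormedAddCommGroup E] [InnerProductSpace ℂ E] (s : CRep J E) : Prop :=
  (∀ A, s.op A = 0 → A = 0) ∧
    ∀ T : E →ₗ[ℂ] E, LinearMap.trace ℂ E T = 0 → ∃ A, s.op A = T

end

end Pool.Agent.Lib.MP_4322ef_CH
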