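import Pool.Agent.Lib.MP_4322ef_CH.Defs2
import Pool.Agent.Lib.MP_4322ef_CH.Mg.G002
import Pool.Agent.Lib.MP_4322ef_CH.Mg.G001

/-!
# Twisting by a unitary character

`z` in `a` is orthogonal to the roots, so it is central (`cen_br`: `span_RV` in file S03; for `Z` in `RV al`, `Z ≠ 0`,
`[z, Z] = ⟪al, z⟫ Z = 0` since `al = 0` or `al` is a root), and so is `J z`; `A ↦ i ⟪J z, A⟫` is a unitary character
of `g`: it vanishes on `[A, B]` by `L.inner_br` (`[θ A, J z] = 0`), on `a` (`J_a_orth`) and on the `Z` with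
`[H₁, Z] = r Z`, `r ≠ 0` (also on `kk Z`, `pp Z`; `L.th (J z) = J z`), and it is `i ⟪z, H⟫` at `J H` (`J.inner`).
* `exists_twist`: the same form. For `adm`: `KHom` for `κ` and the twist is `KHom` for `r` and the twist of `κ` by
  the inverse character (the same set of maps).
* `twist_good`: the same `Y`. The module `V` of `PRVData` is twisted by the complex linear character
  `χ A = ⟪z, A⟫ + i ⟪J z, A⟫` (`t'.op A = t.op A - χ A`); on `k₀` it is `i ⟪J z, A⟫`. `adj` for `t'`: `L.inner_th`,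
  `θ z = -z`, `θ (J z) = J z`.
-/

set_option autoImplicit false

open scoped InnerProductSpace

namespace Pool.Agent.Lib.MP_4322ef_CH

open Pool.Agent.Lib.MP_4322ef_al.SR

variable {g : Type} [NormedAddCommGroup g] [InnerProductSpace ℝ g] {L : RedLie g}
  [FiniteDimensional ℝ g]

theorem cen_br (C : CSub L) {z : g} (hz : z ∈ C.a) (hz0 : ∀ al ∈ roots L C.a, ⟪al, z⟫_ℝ = 0)
    (A : g) : L.br z A = 0 := by
  have h := span_RV C A
  induction h using Submodule.span_induction with
  | mem x hx =>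
    obtain ⟨lam, hlam, hx⟩ := hx
    by_cases hx0 : x = 0
    · rw [hx0, map_zero]
    by_cases hl : lam = 0
    · rw [hx z hz, hl, inner_zero_left, zero_smul]
    · rw [hx z hz, hz0 lam ⟨hlam, hl, x, hx0, hx⟩, zero_smul]
  | zero => rw [map_zero]
  | add x y _ _ hx hy => rw [map_add, hx, hy, add_zero]
  | smul c x _ hx => rw [map_smul, hx, smul_zero]

omit [FiniteDimensional ℝ g] in
theorem N10_inner_br {w : g} (hw : ∀ A, L.br w A = 0) (A B : g) : ⟪w, L.br A B⟫_ℝ = 0 := by
  rw [real_inner_comm, L.inner_br, br_skew L (L.th A) w, hw, neg_zero, inner_zero_right, neg_zero]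

omit [FiniteDimensional ℝ g] in
theorem N10_inner_eig {w : g} (hw : ∀ A, L.br w A = 0) {H Z : g} {r : ℝ} (hr : 0 < r)
    (hZ : L.br H Z = r • Z) : ⟪w, Z⟫_ℝ = 0 ∧ ⟪w, L.th Z⟫_ℝ = 0 := by
  have h1 : ⟪w, r • Z⟫_ℝ = 0 := by rw [← hZ]; exact N10_inner_br hw H Z
  have h2 : ⟪w, r • L.th Z⟫_ℝ = 0 := by
    rw [← map_smul, ← hZ, L.th_br]
    exact N10_inner_br hw _ _
  rw [real_inner_smul_right] at h1 h2
  exact ⟨(mul_eq_zero.1 h1).resolve_left hr.ne', (mul_eq_zero.1 h2).resolve_left hr.ne'⟩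

omit [FiniteDimensional ℝ g] in
theorem N10_inner_kkpp {w : g} (hw : ∀ A, L.br w A = 0) {H Z : g} {r : ℝ} (hr : 0 < r)
    (hZ : L.br H Z = r • Z) : ⟪w, L.kk Z⟫_ℝ = 0 ∧ ⟪w, L.pp Z⟫_ℝ = 0 := by
  obtain ⟨h1, h2⟩ := N10_inner_eig hw hr hZ
  rw [kk_apply, pp_apply, real_inner_smul_right, real_inner_smul_right, inner_add_right,
    inner_sub_right, h1, h2]
  norm_num

omit [FiniteDimensional ℝ g] in
theorem N10_J_cen (J : CStr L) {z : g} (h : ∀ A, L.br z A = 0) (A : g) : L.br (J.J z) A = 0 := by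
  rw [J.br, h, map_zero]

omit [FiniteDimensional ℝ g] in
theorem N10_inner_J (J : CStr L) (z A : g) : ⟪z, J.J A⟫_ℝ = -⟪J.J z, A⟫_ℝ := by
  rw [← J.inner z (J.J A), J.sq, inner_neg_right]

section
variable {X : Type} [NormedAddCommGroup X] [InnerProductSpace ℂ X]

theorem exists_twist (J : CStr L) (C : CSub L) (r : HC L X) (B : InvForm r) {z : g}
    (hz : z ∈ C.a) (hz0 : ∀ al ∈ roots L C.a, ⟪al, z⟫_ℝ = 0) :
    ∃ (r' : HC L X) (B' : InvForm r'),
      (∀ A x, r'.op A x = r.op A x - (Complex.I * (⟪J.J z, A⟫_ℝ : ℂ)) • x) ∧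
        B'.form = B.form := by
  have hcen := N10_J_cen J (cen_br C hz hz0)
  have hop : ∀ (A : g) (x : X),
      (r.op A - (Complex.I * (⟪J.J z, A⟫_ℝ : ℂ)) • (LinearMap.id : X →ₗ[ℂ] X)) x =
      r.op A x - (Complex.I * (⟪J.J z, A⟫_ℝ : ℂ)) • x := fun A x => rfl
  have hst : ∀ (A : g) (U : Submodule ℂ X),
      (∀ u ∈ U, r.op A u - (Complex.I * (⟪J.J z, A⟫_ℝ : ℂ)) • u ∈ U) → ∀ u ∈ U, r.op A u ∈ U := by
    intro A U h u hu
    have h1 := U.add_mem (h u hu) (U.smul_mem (Complex.I * (⟪J.J z, A⟫_ℝ : ℂ)) hu)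
    rwa [sub_add_cancel] at h1
  let r' : HC L X :=
    { op := fun A => r.op A - (Complex.I * (⟪J.J z, A⟫_ℝ : ℂ)) • LinearMap.id
      add := by
        intro A B
        refine LinearMap.ext fun x => ?_
        rw [LinearMap.add_apply, hop, hop, hop, r.add, LinearMap.add_apply, inner_add_right,
          Complex.ofReal_add, mul_add, add_smul]
        abel
      smul := by
        intro c A
        refine LinearMap.ext fun x => ?_
        rw [LinearMap.smul_apply, hop, hop, r.smul, LinearMap.smul_apply, real_inner_smul_right,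
          Complex.ofReal_mul, smul_sub, smul_smul]
        congr 2
        ring
      bracket := by
        intro A B x
        rw [hop, hop, hop, hop, hop, r.bracket, N10_inner_br hcen, Complex.ofReal_zero, mul_zero,
          zero_smul, sub_zero, map_sub, map_sub, map_smul, map_smul, smul_sub, smul_sub, smul_smul,
          smul_smul, mul_comm (Complex.I * (⟪J.J z, B⟫_ℝ : ℂ))]
        abel
      skew := by
        intro Z hZ x y
        rw [hop, hop, inner_sub_left, inner_sub_right, r.skew Z hZ, inner_smul_left,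
          inner_smul_right, map_mul, Complex.conj_I, Complex.conj_ofReal]
        ring
      fin := by
        intro x
        obtain ⟨U, h1, h2, h3⟩ := r.fin x
        exact ⟨U, h1, h2, fun Z hZ u hu => by
          rw [hop]
          exact U.sub_mem (h3 Z hZ u hu) (U.smul_mem _ hu)⟩
      adm := by
        intro D _ _ _ κ
        let κ' : KRep L D :=
          { op := fun A => κ.op A + (Complex.I * (⟪J.J z, A⟫_ℝ : ℂ)) • LinearMap.id
            add := by
              intro A B hA hB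
              refine LinearMap.ext fun x => ?_
              simp only [LinearMap.add_apply, LinearMap.smul_apply, LinearMap.id_apply,
                κ.add A B hA hB, inner_add_right, Complex.ofReal_add, mul_add, add_smul]
              abel
            smul := by
              intro c A hA
              refine LinearMap.ext fun x => ?_
              simp only [LinearMap.add_apply, LinearMap.smul_apply, LinearMap.id_apply,
                κ.smul c A hA, real_inner_smul_right, Complex.ofReal_mul, smul_add, smul_smul]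
              congr 2
              ring
            bracket := by
              intro A B hA hB x
              simp only [LinearMap.add_apply, LinearMap.smul_apply, LinearMap.id_apply,
                κ.bracket A B hA hB, N10_inner_br hcen, Complex.ofReal_zero, mul_zero, zero_smul,
                add_zero, map_add, map_smul, smul_add, smul_smul]
              rw [mul_comm (Complex.I * (⟪J.J z, B⟫_ℝ : ℂ))]
              abel
            skew := by
              intro Z hZ x y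
              simp only [LinearMap.add_apply, LinearMap.smul_apply, LinearMap.id_apply,
                inner_add_left, inner_add_right, κ.skew Z hZ, inner_smul_left,
                inner_smul_right, map_mul, Complex.conj_I, Complex.conj_ofReal]
              ring }
        have h1 : KHom L (fun A => r.op A - (Complex.I * (⟪J.J z, A⟫_ℝ : ℂ)) • LinearMap.id) κ.op =
            KHom L r.op κ'.op := by
          ext T
          constructor
          · intro h Z hZ d
            have h2 := h Z hZ d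
            rw [hop] at h2
            change r.op Z (T d) = T (κ.op Z d + (Complex.I * (⟪J.J z, Z⟫_ℝ : ℂ)) • d)
            rw [map_add, map_smul, ← h2, sub_add_cancel]
          · intro h Z hZ d
            have h2 := h Z hZ d
            change r.op Z (T d) = T (κ.op Z d + (Complex.I * (⟪J.J z, Z⟫_ℝ : ℂ)) • d) at h2
            rw [hop, h2, map_add, map_smul, add_sub_cancel_right]
        rw [h1]
        exact r.adm D κ'
      irr := by
        intro U hU
        refine r.irr U fun Z u hu => hst Z U (fun v hv => ?_) u hu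
        exact hU Z v hv }
  refine ⟨r', ⟨B.form, B.herm, ?_, B.ne⟩, fun A x => rfl, rfl⟩
  intro Z x y
  change B.form (r.op Z x - (Complex.I * (⟪J.J z, Z⟫_ℝ : ℂ)) • x) y =
    -B.form x (r.op Z y - (Complex.I * (⟪J.J z, Z⟫_ℝ : ℂ)) • y)
  rw [map_sub, map_sub, LinearMap.sub_apply, B.inv, LinearMap.map_smulₛₗ, LinearMap.smul_apply,
    map_smul, map_mul, Complex.conj_I, Complex.conj_ofReal, smul_eq_mul, smul_eq_mul]
  ring

end

section
variable {X : Type} [AddCommGroup X] [Module ℂ X] {op op' : g → X →ₗ[ℂ] X} {J : CStr L} {z : g}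

theorem twist_ktype (h : ∀ A x, op' A x = op A x - (Complex.I * (⟪J.J z, A⟫_ℝ : ℂ)) • x)
    {V : Submodule ℂ X} : IsKType L op' V ↔ IsKType L op V := by
  have h1 : ∀ (U : Submodule ℂ X) (A : g), (∀ u ∈ U, op' A u ∈ U) ↔ ∀ u ∈ U, op A u ∈ U := by
    intro U A
    constructor
    · intro h2 u hu
      have h3 := U.add_mem (h2 u hu) (U.smul_mem (Complex.I * (⟪J.J z, A⟫_ℝ : ℂ)) hu)
      rwa [h, sub_add_cancel] at h3
    · intro h2 u hu
      rw [h]
      exact U.sub_mem (h2 u hu) (U.smul_mem _ hu)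
  constructor
  · intro hV
    exact ⟨hV.fin, hV.ne, fun Z hZ => (h1 V Z).1 (hV.stable Z hZ),
      fun U hU hs => hV.irr U hU fun Z hZ => (h1 U Z).2 (hs Z hZ)⟩
  · intro hV
    exact ⟨hV.fin, hV.ne, fun Z hZ => (h1 V Z).2 (hV.stable Z hZ),
      fun U hU hs => hV.irr U hU fun Z hZ => (h1 U Z).1 (hs Z hZ)⟩

theorem N10_wt (h : ∀ A x, op' A x = op A x - (Complex.I * (⟪J.J z, A⟫_ℝ : ℂ)) • x)
    {H lam : g} {v : X} (hv : op (J.J H) v = (Complex.I * (⟪lam, H⟫_ℝ : ℂ)) • v) :
    op' (J.J H) v = (Complex.I * (⟪lam - z, H⟫_ℝ : ℂ)) • v := by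
  rw [h, hv, J.inner, ← sub_smul, inner_sub_left, Complex.ofReal_sub, mul_sub]

theorem twist_small (C : CSub L) (hz : z ∈ C.a)
    (h : ∀ A x, op' A x = op A x - (Complex.I * (⟪J.J z, A⟫_ℝ : ℂ)) • x)
    {V : Submodule ℂ X} (hV : Small J C.a op' V) : SmallAt J C.a op z V := by
  rintro lam ⟨hlam, v, hv, hv0, hw⟩
  exact hV (lam - z) ⟨C.a.sub_mem hlam hz, v, hv, hv0, fun H hH => N10_wt h (hw H hH)⟩

theorem twist_ext (C : CSub L) (hz : z ∈ C.a) (hz0 : ∀ al ∈ roots L C.a, ⟪al, z⟫_ℝ = 0)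
    (h : ∀ A x, op' A x = op A x - (Complex.I * (⟪J.J z, A⟫_ℝ : ℂ)) • x)
    {V : Submodule ℂ X} {mu : g} (hV : IsExt J C.a op V mu) : IsExt J C.a op' V (mu - z) := by
  have hcen := cen_br C hz hz0
  obtain ⟨H₁, hH₁, hmu, v, hv, hv0, hw, hp⟩ := hV
  refine ⟨H₁, hH₁, C.a.sub_mem hmu hz, v, hv, hv0, fun H hH => N10_wt h (hw H hH), ?_⟩
  rintro Z ⟨r, hr, hZ⟩
  have h1 := (N10_inner_kkpp (N10_J_cen J hcen) hr hZ).1
  have h2 := (N10_inner_kkpp hcen hr hZ).2
  rw [h, h, h1, J.inner, h2, Complex.ofReal_zero, mul_zero, zero_smul, sub_zero, sub_zero]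
  exact hp Z ⟨r, hr, hZ⟩

theorem twist_lang (C : CSub L) (hz : z ∈ C.a) (hz0 : ∀ al ∈ roots L C.a, ⟪al, z⟫_ℝ = 0)
    (h : ∀ A x, op' A x = op A x - (Complex.I * (⟪J.J z, A⟫_ℝ : ℂ)) • x)
    {mu nu : g} (hX : IsLang J C.a op mu nu) : IsLang J C.a op' (mu - z) nu := by
  have hcen := cen_br C hz hz0
  obtain ⟨H₂, hH₂, hd, ep, hep, h1, h2, h3⟩ := hX
  refine ⟨H₂, hH₂, hd, ep, hep, ?_, ?_, ?_⟩
  · rintro Z ⟨r, hr, hZ⟩ x
    rw [h, (N10_inner_eig (N10_J_cen J hcen) hr hZ).1, Complex.ofReal_zero, mul_zero, zero_smul,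
      sub_zero]
    exact h1 Z ⟨r, hr, hZ⟩ x
  · intro H hH x
    rw [h, real_inner_comm, J_a_orth J C hH hz, Complex.ofReal_zero, mul_zero, zero_smul,
      sub_zero]
    exact h2 H hH x
  · intro H hH x
    rw [h, map_sub, map_smul, h3 H hH x, J.inner, inner_sub_left, Complex.ofReal_sub, smul_eq_mul,
      mul_sub, sub_mul]

section
variable {V : Type} [NormedAddCommGroup V] [InnerProductSpace ℂ V]

/-- the twist of a complex linear module by the complex linear character of `z` -/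
theorem N10_crep (C : CSub L) (hz : z ∈ C.a) (hz0 : ∀ al ∈ roots L C.a, ⟪al, z⟫_ℝ = 0)
    (t : CRep J V) : ∃ t' : CRep J V, ∀ A x, t'.op A x =
      t.op A x - ((⟪z, A⟫_ℝ : ℂ) + Complex.I * (⟪J.J z, A⟫_ℝ : ℂ)) • x := by
  have hcen := cen_br C hz hz0
  have hJ := N10_J_cen J hcen
  have hop : ∀ (A : g) (x : V),
      (t.op A - ((⟪z, A⟫_ℝ : ℂ) + Complex.I * (⟪J.J z, A⟫_ℝ : ℂ)) •
        (LinearMap.id : V →ₗ[ℂ] V)) x =
      t.op A x - ((⟪z, A⟫_ℝ : ℂ) + Complex.I * (⟪J.J z, A⟫_ℝ : ℂ)) • x := fun A x => rfl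
  refine ⟨
    { op := fun A =>
        t.op A - ((⟪z, A⟫_ℝ : ℂ) + Complex.I * (⟪J.J z, A⟫_ℝ : ℂ)) • LinearMap.id
      add := ?_
      smul := ?_
      bracket := ?_
      lin := ?_
      adj := ?_ }, fun A x => rfl⟩
  · intro A B
    refine LinearMap.ext fun x => ?_
    rw [LinearMap.add_apply, hop, hop, hop, t.add, LinearMap.add_apply, inner_add_right,
      inner_add_right, Complex.ofReal_add, Complex.ofReal_add, ← sub_eq_zero]
    have h1 : ((⟪z, A⟫_ℝ : ℂ) + (⟪z, B⟫_ℝ : ℂ) +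
        Complex.I * ((⟪J.J z, A⟫_ℝ : ℂ) + (⟪J.J z, B⟫_ℝ : ℂ))) =
        ((⟪z, A⟫_ℝ : ℂ) + Complex.I * (⟪J.J z, A⟫_ℝ : ℂ)) +
        ((⟪z, B⟫_ℝ : ℂ) + Complex.I * (⟪J.J z, B⟫_ℝ : ℂ)) := by ring
    rw [h1, add_smul]
    abel
  · intro c A
    refine LinearMap.ext fun x => ?_
    rw [LinearMap.smul_apply, hop, hop, t.smul, LinearMap.smul_apply, real_inner_smul_right,
      real_inner_smul_right, Complex.ofReal_mul, Complex.ofReal_mul, smul_sub, smul_smul]
    congr 2
    ring
  · intro A B x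
    rw [hop, hop, hop, hop, hop, t.bracket, N10_inner_br hcen, N10_inner_br hJ,
      Complex.ofReal_zero, mul_zero, add_zero,
      zero_smul, sub_zero, map_sub, map_sub, map_smul, map_smul, smul_sub, smul_sub, smul_smul,
      smul_smul, mul_comm ((⟪z, B⟫_ℝ : ℂ) + Complex.I * (⟪J.J z, B⟫_ℝ : ℂ))]
    abel
  · intro A
    refine LinearMap.ext fun x => ?_
    rw [LinearMap.smul_apply, hop, hop, t.lin, LinearMap.smul_apply, J.inner, N10_inner_J,
      Complex.ofReal_neg, smul_sub, smul_smul]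
    congr 2
    rw [mul_add, ← mul_assoc, Complex.I_mul_I]
    ring
  · intro A x y
    have h1 : ⟪z, L.th A⟫_ℝ = -⟪z, A⟫_ℝ := by
      rw [← th_symm, C.a_p z hz, inner_neg_left]
    have h2 : ⟪J.J z, L.th A⟫_ℝ = ⟪J.J z, A⟫_ℝ := by
      rw [← th_symm, th_JH J C hz]
    rw [hop, hop, inner_sub_left, inner_sub_right, t.adj, inner_smul_left, inner_smul_right,
      map_add, map_mul, Complex.conj_I, Complex.conj_ofReal, Complex.conj_ofReal, h1, h2,
      Complex.ofReal_neg]
    ring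

end

theorem twist_good (C : CSub L) (hz : z ∈ C.a) (hz0 : ∀ al ∈ roots L C.a, ⟪al, z⟫_ℝ = 0)
    (h : ∀ A x, op' A x = op A x - (Complex.I * (⟪J.J z, A⟫_ℝ : ℂ)) • x)
    {V : Submodule ℂ X} {mu y : g} (hy : Good J C.a op V mu y) : Good J C.a op' V (mu - z) y := by
  have hcen := cen_br C hz hz0
  obtain ⟨Y, i1, i2, i3, s, hs, hext, hy⟩ := hy
  refine ⟨Y, i1, i2, i3, s, hs, hext, ?_⟩
  rcases hy with hy | ⟨hf, hy⟩
  · exact Or.inl hy
  refine Or.inr ⟨hf, ?_⟩
  rcases hy with hy | hy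
  · refine Or.inl fun al hal h1 => ?_
    rw [inner_sub_right, hz0 al hal, sub_zero] at h1
    have h2 := hy al hal h1
    rw [inner_sub_right] at h2
    rw [inner_sub_right, inner_sub_right, hz0 al hal, sub_zero]
    exact h2
  refine Or.inr ?_
  obtain ⟨W, j1, j2, j3, t, b, ht, hte, hb, heq, v, u, hvu, hv, hu⟩ := hy
  obtain ⟨t', ht'⟩ := N10_crep C hz hz0 t
  have hmu : mu - z - y = mu - y - z := by abel
  refine ⟨W, j1, j2, j3, t', b, ?_, ?_, hb, ?_, v, u, hvu, ?_, hu⟩
  · intro U hU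
    refine ht U fun Z w hw => ?_
    have h1 := U.add_mem (hU Z w hw)
      (U.smul_mem ((⟪z, Z⟫_ℝ : ℂ) + Complex.I * (⟪J.J z, Z⟫_ℝ : ℂ)) hw)
    rwa [ht', sub_add_cancel] at h1
  · rw [hmu]
    obtain ⟨H₁, hH₁, hm, w, hw, hw0, hwt, hp⟩ := hte
    refine ⟨H₁, hH₁, C.a.sub_mem hm hz, w, hw, hw0, ?_, ?_⟩
    · intro H hH
      rw [ht', hwt H hH, J.inner, J_a_orth J C hz hH, Complex.ofReal_zero, zero_add, ← sub_smul,
        inner_sub_left (mu - y) z H, Complex.ofReal_sub, mul_sub]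
    · rintro Z ⟨r, hr, hZ⟩
      have h1 := N10_inner_kkpp (N10_J_cen J hcen) hr hZ
      have h2 := N10_inner_kkpp hcen hr hZ
      rw [ht', ht', h1.1, h2.1, J.inner, h2.2, N10_inner_J, h1.2, neg_zero, Complex.ofReal_zero,
        mul_zero, zero_add, zero_smul, sub_zero, sub_zero]
      exact hp Z ⟨r, hr, hZ⟩
  · intro Z hZ v u
    have h1 : ⟪z, Z⟫_ℝ = 0 := by
      rw [real_inner_comm]
      exact inner_kp L hZ (C.a_p z hz)
    rw [h, heq Z hZ, ht', h1, Complex.ofReal_zero, zero_add, map_sub, map_smul,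
      LinearMap.sub_apply, LinearMap.smul_apply]
    abel
  · intro H hH
    rw [ht', hv H hH, hmu, real_inner_comm H (J.J z), J_a_orth J C hH hz, Complex.ofReal_zero,
      mul_zero, add_zero, ← sub_smul, inner_sub_left (mu - y) z H, Complex.ofReal_sub]

end

end Pool.Agent.Lib.MP_4322ef_CH
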