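import Pool.Agent.Lib.MP_4322ef_al.SR.Main

/-!
# The convex hull conjecture for complex groups: definitions

Complex reductive Lie algebras, roots, the hull, extreme weights of `k₀`-types.
-/

set_option autoImplicit false

open scoped InnerProductSpace

namespace Pool.Agent.Lib.MP_4322ef_CH

open Pool.Agent.Lib.MP_4322ef_al.SR

variable {g : Type} [NormedAddCommGroup g] [InnerProductSpace ℝ g]

/-- A complex structure `J` on the real reductive Lie algebra `L`: `L` is a complex reductive Lie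
algebra, `k₀` is a compact real form and `p₀ = J k₀`. Every complex reductive Lie algebra with every
compact real form is of this form. -/
structure CStr (L : RedLie g) where
  /-- multiplication by the imaginary unit -/
  J : g →ₗ[ℝ] g
  sq : ∀ A, J (J A) = -A
  br : ∀ A B, L.br (J A) B = J (L.br A B)
  th : ∀ A, L.th (J A) = -J (L.th A)
  inner : ∀ A B, ⟪J A, J B⟫_ℝ = ⟪A, B⟫_ℝ

/-- The roots of `(g, a)`, as elements of `a` via the inner product: the nonzero `α` in `a` with a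
nonzero root vector. -/
def roots (L : RedLie g) (a : Submodule ℝ g) : Set g :=
  {α | α ∈ a ∧ α ≠ 0 ∧ ∃ Z, Z ≠ 0 ∧ ∀ H ∈ a, L.br H Z = ⟪α, H⟫_ℝ • Z}

/-- `hgt H` is half of the sum of `|⟪α, H⟫|` over all roots: the sum over the positive roots. It is
the maximum at `H` of the convex hull of the Weyl group orbit of `2 rho`. -/
noncomputable def hgt (L : RedLie g) (a : Submodule ℝ g) (H : g) : ℝ :=
  (1 / 2) * ∑ᶠ α ∈ roots L a, |⟪α, H⟫_ℝ|

/-- `p` lies in the convex hull of the Weyl group orbit of `2 rho`. -/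
def InHull (L : RedLie g) (a : Submodule ℝ g) (p : g) : Prop :=
  p ∈ a ∧ ∀ H ∈ a, ⟪p, H⟫_ℝ ≤ hgt L a H

/-- `H₁` is a regular element of `a`; its positive roots are the `α` with `0 < ⟪α, H₁⟫`. -/
def Reg (L : RedLie g) (a : Submodule ℝ g) (H₁ : g) : Prop :=
  H₁ ∈ a ∧ ∀ α ∈ roots L a, ⟪α, H₁⟫_ℝ ≠ 0

/-- `y` and `rho - y` are dominant for some choice (equivalently, for every choice with `y` dominant)
of the positive roots. -/
def Fund (L : RedLie g) (a : Submodule ℝ g) (y : g) : Prop :=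
  ∀ H₁, Reg L a H₁ → (∀ α ∈ roots L a, 0 < ⟪α, H₁⟫_ℝ → 0 ≤ ⟪α, y⟫_ℝ) →
    ∀ α ∈ roots L a, 0 < ⟪α, H₁⟫_ℝ →
      2 * ⟪y, α⟫_ℝ ≤ ∑ᶠ β ∈ {β | β ∈ roots L a ∧ 0 < ⟪β, H₁⟫_ℝ}, ⟪β, α⟫_ℝ

/-- A complex linear representation of `g` on which the compact real form `k₀` is unitary (the same as
a unitary representation of `k₀`). -/
structure CRep {L : RedLie g} (J : CStr L) (W : Type) [NormedAddCommGroup W]
    [InnerProductSpace ℂ W] extends Rep L W where
  lin : ∀ A, op (J.J A) = Complex.I • op A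
  adj : ∀ A x y, ⟪op A x, y⟫_ℂ = -⟪x, op (L.th A) y⟫_ℂ

/-- `W` is irreducible. -/
def Irr {L : RedLie g} {J : CStr L} {W : Type} [NormedAddCommGroup W] [InnerProductSpace ℂ W]
    (t : CRep J W) : Prop :=
  ∀ U : Submodule ℂ W, (∀ Z, ∀ u ∈ U, t.op Z u ∈ U) → U = ⊥ ∨ U = ⊤

section
variable {L : RedLie g} (J : CStr L) (a : Submodule ℝ g)
  {X : Type} [AddCommGroup X] [Module ℂ X] (op : g → X →ₗ[ℂ] X)

/-- `lam` in `a` is a weight of the `k₀`-stable subspace `V`: some nonzero `v` in `V` has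
`J H v = i ⟪lam, H⟫ v` for all `H` in `a`. -/
def IsWt (V : Submodule ℂ X) (lam : g) : Prop :=
  lam ∈ a ∧ ∃ v ∈ V, v ≠ 0 ∧ ∀ H ∈ a, op (J.J H) v = (Complex.I * (⟪lam, H⟫_ℝ : ℂ)) • v

/-- `lam` is the highest weight of `V` for the positive roots of the regular element `H₁`: some
nonzero `v` in `V` has weight `lam` and is killed by the positive root vectors `Z` of the
complexification `g` of `k₀` (`Z = k + J k'` acts on `V` by `op k + i op k'`). -/
def IsHigh (V : Submodule ℂ X) (H₁ lam : g) : Prop :=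
  lam ∈ a ∧ ∃ v ∈ V, v ≠ 0 ∧ (∀ H ∈ a, op (J.J H) v = (Complex.I * (⟪lam, H⟫_ℝ : ℂ)) • v) ∧
    ∀ Z, (∃ r : ℝ, 0 < r ∧ L.br H₁ Z = r • Z) → op (L.kk Z) v = Complex.I • op (J.J (L.pp Z)) v

/-- `lam` is an extreme weight of the `k₀`-stable subspace `V`: the highest weight for some choice of
the positive roots. -/
def IsExt (V : Submodule ℂ X) (lam : g) : Prop := ∃ H₁, Reg L a H₁ ∧ IsHigh J a op V H₁ lam

/-- `X` is a submodule of the principal series of the positive system of `H₂` with parameter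
`(mu, nu)`: there is a nonzero functional on `X` which is killed by the positive root vectors and has
the weights `2 rho - nu` under `a` and `i mu` under `J a`. -/
def InPS (H₂ mu nu : g) : Prop :=
  ∃ ep : X →ₗ[ℂ] ℂ, ep ≠ 0 ∧ (∀ Z, (∃ r : ℝ, 0 < r ∧ L.br H₂ Z = r • Z) → ∀ x, ep (op Z x) = 0) ∧
    (∀ H ∈ a, ∀ x, ep (op H x) =
      (((∑ᶠ be ∈ {be | be ∈ roots L a ∧ 0 < ⟪be, H₂⟫_ℝ}, ⟪be, H⟫_ℝ) - ⟪nu, H⟫_ℝ : ℝ) : ℂ) * ep x) ∧
    ∀ H ∈ a, ∀ x, ep (op (J.J H) x) = (Complex.I * (⟪mu, H⟫_ℝ : ℂ)) * ep x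

/-- `V` is unitarily small: all its weights lie in the hull. -/
def Small (V : Submodule ℂ X) : Prop := ∀ lam, IsWt J a op V lam → InHull L a lam

variable (L)
/-- `V` is a `k₀`-type: an irreducible finite dimensional nonzero `k₀`-stable subspace. -/
structure IsKType (V : Submodule ℂ X) : Prop where
  fin : FiniteDimensional ℂ V
  ne : V ≠ ⊥
  stable : ∀ Z, L.th Z = Z → ∀ v ∈ V, op Z v ∈ V
  irr : ∀ U ≤ V, (∀ Z, L.th Z = Z → ∀ v ∈ U, op Z v ∈ U) → U = ⊥ ∨ U = V

variable {L} [FiniteDimensional ℝ g]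

/-- The Casimir operator `- ∑ (k i) ^ 2` of `k₀`. -/
noncomputable def kCas (L : RedLie g) (op : g → X →ₗ[ℂ] X) (x : X) : X :=
  -∑ i, op (L.kk (stdOrthonormalBasis ℝ g i)) (op (L.kk (stdOrthonormalBasis ℝ g i)) x)

/-- The Casimir operator of `g`. -/
noncomputable def gCas (L : RedLie g) (op : g → X →ₗ[ℂ] X) (x : X) : X :=
  -∑ i, op (stdOrthonormalBasis ℝ g i) (op (L.th (stdOrthonormalBasis ℝ g i)) x)

end

end Pool.Agent.Lib.MP_4322ef_CH
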