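import Pool.Agent.Lib.MP_4322ef_CH.Defs2

/-!
# The convex hull conjecture for complex groups: definitions, third part

The classical root systems `B n`, `C n`, `D n`, classical Lie algebras, the representations needed for
the other ones.
-/

set_option autoImplicit false

open scoped InnerProductSpace

namespace Pool.Agent.Lib.MP_4322ef_CH

open Pool.Agent.Lib.MP_4322ef_al.SR

variable {g : Type} [NormedAddCommGroup g] [InnerProductSpace ℝ g]

/-- The roots are the `± ep i ± ep j`, `i ≠ j`, and, if `m ≠ 0`, the `± m ep i`, where the `ep i` are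
pairwise orthogonal and of equal length: the root system is of type `D n` (`m = 0`), `B n` (`m = 1`)
or `C n` (`m = 2`). -/
structure BCD (L : RedLie g) (a : Submodule ℝ g) (m : ℕ) {n : ℕ} (ep : Fin n → g) : Prop where
  le : m ≤ 2
  mem : ∀ i, ep i ∈ a
  ne : ∀ i, ep i ≠ 0
  len : ∀ i j, ⟪ep i, ep i⟫_ℝ = ⟪ep j, ep j⟫_ℝ
  orth : ∀ i j, i ≠ j → ⟪ep i, ep j⟫_ℝ = 0
  root : ∀ al, al ∈ roots L a ↔
    (∃ i j, ∃ σ τ : ℝ, i ≠ j ∧ |σ| = 1 ∧ |τ| = 1 ∧ al = σ • ep i + τ • ep j) ∨
      ∃ i, ∃ σ : ℝ, m ≠ 0 ∧ |σ| = m ∧ al = σ • ep i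

/-- `E` is irreducible, the `± ep i` are extreme weights of `E` and there are no other weights except
possibly `0`: `E` is the natural representation. -/
structure NatMod {L : RedLie g} {J : CStr L} (a : Submodule ℝ g) {E : Type} [NormedAddCommGroup E]
    [InnerProductSpace ℂ E] (s : CRep J E) {n : ℕ} (ep : Fin n → g) : Prop where
  irr : Irr s
  ext : ∀ i, ∀ σ : ℝ, |σ| = 1 → IsExt J a s.op ⊤ (σ • ep i)
  wt : ∀ lam, IsWt J a s.op ⊤ lam → lam = 0 ∨ ∃ i, ∃ σ : ℝ, |σ| = 1 ∧ lam = σ • ep i

/-- `g` is `gl(E)` or `sl(E)`, or its root system is of type `B`, `C` or `D` and it has the natural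
representation and, for `B` and `D`, the spin representations, the irreducible representations with
the extreme weights `(± ep 1 ± … ± ep n) / 2`. The sum of any centre and any classical simple Lie
algebra `so(m)`, `sp(2 n)` is of this form. -/
def Classical {L : RedLie g} (J : CStr L) (a : Submodule ℝ g) : Prop :=
  (∃ (E : Type) (_ : NormedAddCommGroup E) (_ : InnerProductSpace ℂ E)
    (_ : FiniteDimensional ℂ E) (s : CRep J E), TypeA s) ∨
  ∃ (m n : ℕ) (ep : Fin n → g), BCD L a m ep ∧
    (∃ (E : Type) (_ : NormedAddCommGroup E) (_ : InnerProductSpace ℂ E)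
      (_ : FiniteDimensional ℂ E) (s : CRep J E), NatMod a s ep) ∧
    (m ≠ 2 → ∀ σ : Fin n → ℝ, (∀ i, |σ i| = 1) → ∃ (Y : Type) (_ : NormedAddCommGroup Y)
      (_ : InnerProductSpace ℂ Y) (_ : FiniteDimensional ℂ Y) (p : CRep J Y), Irr p ∧
        IsExt J a p.op ⊤ ((1 / 2 : ℝ) • ∑ i, σ i • ep i))

/-- Every closed Weyl chamber is generated, modulo the centre, by weights `y` which are `Good` for the
`k₀`-type `V₀` of `X` with extreme weight `mu`. By the theorem of Parthasarathy, Ranga Rao and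
Varadarajan and of Kumar this holds for every complex reductive `g` and all `V₀`, with the
fundamental weights. -/
def FundData {L : RedLie g} (J : CStr L) (a : Submodule ℝ g) {X : Type} [AddCommGroup X] [Module ℂ X]
    (op : g → X →ₗ[ℂ] X) (V₀ : Submodule ℂ X) (mu : g) : Prop :=
  ∀ H, Reg L a H → ∃ S : Finset g, Gen L a H S ∧ ∀ y ∈ S, Good J a op V₀ mu y

end Pool.Agent.Lib.MP_4322ef_CH
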