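import Pool.Agent.Lib.MP_4322ef_CH.Defs3

/-!
# The convex hull conjecture for complex groups: definitions, fourth part

The orthogonal and symplectic Lie algebras as Lie algebras of operators.
-/

set_option autoImplicit false

open scoped InnerProductSpace

namespace Pool.Agent.Lib.MP_4322ef_CH

open Pool.Agent.Lib.MP_4322ef_al.SR

variable {g : Type} [NormedAddCommGroup g] [InnerProductSpace ℝ g]

/-- `g` is the Lie algebra of all operators on `E` which are skew for the bilinear form `⟪c x, y⟫`, where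
`c` is an antilinear isometry with `c² = e`: `g` is `so(E)` (`e = 1`; the form is symmetric) or `sp(E)`
(`e = -1`; the form is alternating). -/
structure TypeQ {L : RedLie g} {J : CStr L} {E : Type} [NormedAddCommGroup E] [InnerProductSpace ℂ E]
    (s : CRep J E) (c : E →ₗ⋆[ℂ] E) (e : ℝ) : Prop where
  faith : ∀ A, s.op A = 0 → A = 0
  sgn : e = 1 ∨ e = -1
  sq : ∀ x, c (c x) = (e : ℂ) • x
  iso : ∀ x y, ⟪c x, c y⟫_ℂ = ⟪y, x⟫_ℂ
  all : ∀ T : E →ₗ[ℂ] E, (∃ A, s.op A = T) ↔ ∀ x y, ⟪c (T x), y⟫_ℂ = -⟪c x, T y⟫_ℂ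

/-- `g` is `gl(E)`, `sl(E)`, `so(E)` or `sp(E)`. -/
def ClassicalLie {L : RedLie g} (J : CStr L) : Prop :=
  ∃ (E : Type) (_ : NormedAddCommGroup E) (_ : InnerProductSpace ℂ E) (_ : FiniteDimensional ℂ E)
    (s : CRep J E), TypeA s ∨ ∃ c e, TypeQ s c e

end Pool.Agent.Lib.MP_4322ef_CH
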