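import Pool.Agent.Lib.MP_4322ef_CH.Defs2
import Pool.Agent.Lib.MP_4322ef_CH.Mg.G002
import Pool.Agent.Lib.MP_4322ef_CH.Mg.G001

/-!
# The weights and roots of `gl(E)` and `sl(E)`

* `e`: an orthonormal basis of `E` of weight vectors (`wt_span`, `wt_orth` in file W02: the weight spaces are
  orthogonal and span; take orthonormal bases of them, e.g. `DirectSum.IsInternal.subordinateOrthonormalBasis` as in
  file S04, or diagonalise a generic element), with weights `ep i`.
* for `i ≠ j` let `E i j` be the operator `x ↦ ⟪e j, x⟫ e i`: it has trace zero, so it is `s.op A` for some `A`; `A` is in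
  `RV (ep i - ep j)` by faithfulness (`s.op [H, A] = [s.op H, s.op A] = ⟪ep i - ep j, H⟫ s.op A`). The adjoint of
  `E i j` is `E j i`, so `s.op (θ A) = -E j i` (`adj`).
* `ep i ≠ ep j`: the operator `E i i - E j j` has trace zero, is `s.op D`; `θ D = -D` (it is selfadjoint) and `[H, D] = 0`
  for `H ∈ a` (it commutes with the diagonal operators `s.op H`), so `D ∈ a` (`a_max`), `⟪ep i, D⟫ = 1`, `⟪ep j, D⟫ = -1`.
  (Use `WV` at `D`.)
* so `ep i - ep j` is a root. `br_th_root`: `[A, θ A] = -⟪A, A⟫ (ep i - ep j)`; apply `s.op`: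
  `E i i - E j j = ⟪A, A⟫ s.op (ep i - ep j)`, at `e k`: `⟪A, A⟫ ⟪ep k, ep i - ep j⟫ = (k = i) - (k = j)`. The same
  for `k = i` and `k = j` gives `⟪A, A⟫ ⟪ep i - ep j, ep i - ep j⟫ = 2`. This is `cor`.
* `all`: for a root `al` with root vector `Z ≠ 0`, `s.op Z ≠ 0`, so `⟪e i, s.op Z (e j)⟫ ≠ 0` for some `i`, `j`, and
  `[H, Z] = ⟪al, H⟫ Z` gives `⟪al, H⟫ = ⟪ep i - ep j, H⟫` for all `H ∈ a`.
* `typeA_gen`: sort: there is a permutation `σ` with `⟪ep (σ k), H⟫` strictly decreasing (`Tuple.sort`; the values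
  are distinct as `H` is regular), replace `ep` by `ep ∘ σ`. `S` = the `om k = ∑ i ≤ k, ep i` for `k + 1 < n`.
  For `al m = ep m - ep (m + 1)`: `⟪al m, om k⟫ = ½ ⟪al m, al m⟫` for `m = k` and `0` for `m ≠ k` (`cor`). For dominant `x` take
  `c (om k) = 2 ⟪al k, x⟫ / ⟪al k, al k⟫` (the `om k` are distinct). Then `x - ∑ c y • y` is orthogonal to the `al m`, and
  every root is `ep i - ep j`, a sum or difference of such.
-/

set_option autoImplicit false

open scoped InnerProductSpace

namespace Pool.Agent.Lib.MP_4322ef_CH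

open Pool.Agent.Lib.MP_4322ef_al.SR

variable {g : Type} [NormedAddCommGroup g] [InnerProductSpace ℝ g] {L : RedLie g}
  [FiniteDimensional ℝ g]

/-- the weights `ep i` of `E` and the roots `ep i - ep j` -/
structure AW (C : CSub L) {n : ℕ} (ep : Fin n → g) : Prop where
  mem : ∀ i, ep i ∈ C.a
  root : ∀ i j, i ≠ j → ep i - ep j ∈ roots L C.a
  all : ∀ al ∈ roots L C.a, ∃ i j, i ≠ j ∧ al = ep i - ep j
  cor : ∀ i j k, i ≠ j → 2 * ⟪ep k, ep i - ep j⟫_ℝ =
    ((if k = i then 1 else 0) - (if k = j then 1 else 0)) * ⟪ep i - ep j, ep i - ep j⟫_ℝ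

section
variable {J : CStr L} {E : Type} [NormedAddCommGroup E] [InnerProductSpace ℂ E]

/-- the weight space -/
private def G01V (s : CRep J E) (a : Submodule ℝ g) (lam : g) : Submodule ℂ E where
  carrier := {v | WV s a lam v}
  add_mem' := by
    intro x y hx hy H hH
    rw [map_add, hx H hH, hy H hH, smul_add]
  zero_mem' := by
    intro H hH
    rw [map_zero, smul_zero]
  smul_mem' := by
    intro c x hx H hH
    rw [map_smul, hx H hH, smul_comm]

theorem G01_onb [FiniteDimensional ℂ E] (C : CSub L) (s : CRep J E) :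
    ∃ (n : ℕ) (e : OrthonormalBasis (Fin n) ℂ E) (ep : Fin n → g),
      ∀ i, ep i ∈ C.a ∧ WV s C.a (ep i) (e i) := by
  classical
  have hfin := wt_finite s C
  let _ : Fintype ({lam | IsW s C.a lam} : Set g) := hfin.fintype
  let V : ({lam | IsW s C.a lam} : Set g) → Submodule ℂ E := fun lam => G01V s C.a lam
  have hV' : OrthogonalFamily ℂ (fun i => V i) fun i => (V i).subtypeₗᵢ := by
    intro lam lam' hne x y
    exact wt_orth s C lam.2.1 lam'.2.1 x.2 y.2 fun h => hne (Subtype.ext h)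
  have htop : iSup V = ⊤ := by
    rw [eq_top_iff]
    intro w _
    have hle : Submodule.span ℂ {v | ∃ lam ∈ C.a, WV s C.a lam v} ≤ iSup V := by
      rw [Submodule.span_le]
      rintro v ⟨lam, hlam, hv⟩
      by_cases hv0 : v = 0
      · rw [hv0]; exact Submodule.zero_mem _
      exact Submodule.mem_iSup_of_mem (p := V) ⟨lam, hlam, v, hv0, hv⟩ hv
    exact hle (wt_span s C w)
  have hV : DirectSum.IsInternal V := by
    rw [hV'.isInternal_iff, htop, Submodule.top_orthogonal_eq_bot]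
  let e := hV.subordinateOrthonormalBasis rfl hV'
  let idx := fun i => hV.subordinateOrthonormalBasisIndex rfl i hV'
  exact ⟨_, e, fun i => (idx i : g), fun i => ⟨(idx i).2.1,
    hV.subordinateOrthonormalBasis_subordinate rfl i hV'⟩⟩

/-- the matrix units -/
private noncomputable def G01U {n : ℕ} (e : OrthonormalBasis (Fin n) ℂ E) (i j : Fin n) : E →ₗ[ℂ] E where
  toFun x := ⟪e j, x⟫_ℂ • e i
  map_add' x y := by rw [inner_add_right, add_smul]
  map_smul' c x := by rw [inner_smul_right, mul_smul, RingHom.id_apply]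

private theorem G01U_apply {n : ℕ} (e : OrthonormalBasis (Fin n) ℂ E) (i j : Fin n) (x : E) :
    G01U e i j x = ⟪e j, x⟫_ℂ • e i := rfl

private theorem G01U_self {n : ℕ} (e : OrthonormalBasis (Fin n) ℂ E) (i j : Fin n) :
    G01U e i j (e j) = e i := by
  rw [G01U_apply, inner_self_eq_norm_sq_to_K, e.orthonormal.1 j]
  simp

private theorem G01U_ne {n : ℕ} (e : OrthonormalBasis (Fin n) ℂ E) (i : Fin n) {j k : Fin n}
    (h : j ≠ k) : G01U e i j (e k) = 0 := by
  rw [G01U_apply, e.orthonormal.2 h, zero_smul]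

private theorem G01U_trace [FiniteDimensional ℂ E] {n : ℕ} (e : OrthonormalBasis (Fin n) ℂ E)
    (i j : Fin n) : LinearMap.trace ℂ E (G01U e i j) = ⟪e j, e i⟫_ℂ := by
  rw [LinearMap.trace_eq_sum_inner _ e, Finset.sum_eq_single j]
  · rw [G01U_self]
  · intro k _ hk
    rw [G01U_ne e i (Ne.symm hk), inner_zero_right]
  · intro h
    exact absurd (Finset.mem_univ _) h

private theorem G01U_adj {n : ℕ} (e : OrthonormalBasis (Fin n) ℂ E) (i j : Fin n) (x y : E) :
    ⟪G01U e i j x, y⟫_ℂ = ⟪x, G01U e j i y⟫_ℂ := by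
  rw [G01U_apply, G01U_apply, inner_smul_left, inner_smul_right, inner_conj_symm, mul_comm]

private theorem G01_sub (s : CRep J E) (A B : g) : s.op (A - B) = s.op A - s.op B := by
  rw [sub_eq_add_neg, s.add, Rep.neg', sub_eq_add_neg]

/-- faithfulness on the basis -/
private theorem G01_faith [FiniteDimensional ℂ E] (s : CRep J E) (hs : ∀ A, s.op A = 0 → A = 0)
    {n : ℕ} (e : OrthonormalBasis (Fin n) ℂ E) {A B : g} (h : ∀ k, s.op A (e k) = s.op B (e k)) :
    A = B := by
  rw [← sub_eq_zero]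
  apply hs
  rw [G01_sub, sub_eq_zero]
  exact e.toBasis.ext fun k => by rw [e.coe_toBasis]; exact h k

end

theorem typeA_weights {J : CStr L} {E : Type} [NormedAddCommGroup E] [InnerProductSpace ℂ E]
    [FiniteDimensional ℂ E] (C : CSub L) (s : CRep J E) (hs : TypeA s) :
    ∃ (n : ℕ) (e : OrthonormalBasis (Fin n) ℂ E) (ep : Fin n → g), AW C ep ∧
      ∀ i, WV s C.a (ep i) (e i) := by
  obtain ⟨n, e, ep, hep⟩ := G01_onb C s
  obtain ⟨hf, ht⟩ := hs
  refine ⟨n, e, ep, ?_, fun i => (hep i).2⟩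
  have hw : ∀ k, ∀ H ∈ C.a, s.op H (e k) = (⟪ep k, H⟫_ℝ : ℂ) • e k := fun k => (hep k).2
  have he0 : ∀ k, e k ≠ 0 := fun k h => by
    have := e.orthonormal.1 k
    rw [h, norm_zero] at this
    exact zero_ne_one this
  -- the matrix units
  have hA : ∀ i j, i ≠ j → ∃ A, s.op A = G01U e i j := by
    intro i j hij
    apply ht
    rw [G01U_trace, e.orthonormal.2 (Ne.symm hij)]
  have hAR : ∀ i j, i ≠ j → ∀ A, s.op A = G01U e i j → RV L C.a (ep i - ep j) A := by
    intro i j _ A hA H hH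
    apply G01_faith s hf e
    intro k
    rw [s.bracket, s.smul, LinearMap.smul_apply, hw k H hH, map_smul, hA]
    by_cases hk : j = k
    · subst hk
      rw [G01U_self, hw i H hH, inner_sub_left, Complex.ofReal_sub, sub_smul]
    · rw [G01U_ne e i hk, map_zero, smul_zero, smul_zero, sub_zero]
  -- the adjoint
  have hAth : ∀ i j, ∀ A, s.op A = G01U e i j → s.op (L.th A) = -G01U e j i := by
    intro i j A hA
    refine LinearMap.ext fun y => ?_
    refine ext_inner_left ℂ fun x => ?_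
    have h1 := s.adj A x y
    rw [hA, G01U_adj] at h1
    rw [LinearMap.neg_apply, inner_neg_right, h1, neg_neg]
  -- the diagonal
  have hD : ∀ i j, i ≠ j → ep i ≠ ep j := by
    intro i j hij h
    have htr : LinearMap.trace ℂ E (G01U e i i - G01U e j j) = 0 := by
      rw [map_sub, G01U_trace, G01U_trace, inner_self_eq_norm_sq_to_K, inner_self_eq_norm_sq_to_K,
        e.orthonormal.1 i, e.orthonormal.1 j, sub_self]
    obtain ⟨D, hD⟩ := ht _ htr
    have hDe : ∀ k, ∃ c : ℂ, s.op D (e k) = c • e k := by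
      intro k
      rw [hD, LinearMap.sub_apply]
      by_cases h1 : i = k
      · subst h1
        refine ⟨1, ?_⟩
        rw [G01U_self, G01U_ne e j (Ne.symm hij), sub_zero, one_smul]
      · by_cases h2 : j = k
        · subst h2
          refine ⟨-1, ?_⟩
          rw [G01U_self, G01U_ne e i h1, zero_sub, neg_smul, one_smul]
        · exact ⟨0, by rw [G01U_ne e i h1, G01U_ne e j h2, sub_zero, zero_smul]⟩
    have hDth : L.th D = -D := by
      rw [← sub_eq_zero]
      apply hf
      rw [G01_sub, Rep.neg', sub_neg_eq_add, hD]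
      refine LinearMap.ext fun y => ?_
      refine ext_inner_left ℂ fun x => ?_
      have h1 := s.adj D x y
      rw [hD, LinearMap.sub_apply, inner_sub_left, G01U_adj, G01U_adj, ← inner_sub_right] at h1
      rw [LinearMap.add_apply, inner_add_right, LinearMap.sub_apply, h1, LinearMap.zero_apply,
        inner_zero_right, add_neg_cancel]
    have hDa : D ∈ C.a := by
      refine C.a_max D hDth fun H hH => ?_
      apply G01_faith s hf e
      intro k
      obtain ⟨c, hc⟩ := hDe k
      rw [s.bracket, hw k H hH, map_smul, hc, map_smul, hw k H hH, smul_comm, sub_self, Rep.zero',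
        LinearMap.zero_apply]
    have h1 : (⟪ep i, D⟫_ℝ : ℂ) = 1 := by
      have h2 := hw i D hDa
      rw [hD, LinearMap.sub_apply, G01U_self, G01U_ne e j (Ne.symm hij), sub_zero] at h2
      exact (smul_left_injective ℂ (he0 i) (by simpa using h2)).symm
    have h2 : (⟪ep j, D⟫_ℝ : ℂ) = -1 := by
      have h2 := hw j D hDa
      rw [hD, LinearMap.sub_apply, G01U_self, G01U_ne e i hij, zero_sub] at h2
      exact (smul_left_injective ℂ (he0 j) (by simpa using h2)).symm
    rw [h, h2] at h1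
    have h3 : (-1 : ℂ).re = (1 : ℂ).re := by rw [h1]
    norm_num at h3
  -- `cor` in terms of the root vector
  have hc : ∀ i j k, i ≠ j → ∀ A, s.op A = G01U e i j →
      ⟪A, A⟫_ℝ * ⟪ep k, ep i - ep j⟫_ℝ = (if k = i then 1 else 0) - (if k = j then 1 else 0) := by
    intro i j k hij A hA
    have hm : ep i - ep j ∈ C.a := C.a.sub_mem (hep i).1 (hep j).1
    have h1 := s.bracket A (L.th A) (e k)
    rw [br_th_root C hm (hAR i j hij A hA), Rep.neg', s.smul, LinearMap.neg_apply,
      LinearMap.smul_apply, hw k _ hm, hAth i j A hA, hA, LinearMap.neg_apply, LinearMap.neg_apply,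
      map_neg, smul_smul] at h1
    by_cases hk : k = i
    · subst hk
      rw [G01U_self e j k, G01U_self, G01U_ne e k (Ne.symm hij), map_zero, neg_zero, sub_zero,
        neg_inj] at h1
      have h2 : ((⟪A, A⟫_ℝ : ℂ) * (⟪ep k, ep k - ep j⟫_ℝ : ℂ)) = 1 :=
        smul_left_injective ℂ (he0 k) (by simpa using h1)
      rw [if_pos rfl, if_neg hij, sub_zero]
      exact_mod_cast h2
    · by_cases hk' : k = j
      · subst hk'
        rw [G01U_self e i k, G01U_self, G01U_ne e k (Ne.symm hk), map_zero, neg_zero, zero_sub,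
          neg_neg] at h1
        have h2 : -((⟪A, A⟫_ℝ : ℂ) * (⟪ep k, ep i - ep k⟫_ℝ : ℂ)) = 1 :=
          smul_left_injective ℂ (he0 k) (by simpa using h1)
        rw [if_neg hk, if_pos rfl, zero_sub]
        have h3 : ((⟪A, A⟫_ℝ : ℂ) * (⟪ep k, ep i - ep k⟫_ℝ : ℂ)) = -1 := by rw [← h2, neg_neg]
        exact_mod_cast h3
      · rw [G01U_ne e j (Ne.symm hk), G01U_ne e i (Ne.symm hk'), map_zero, map_zero, neg_zero,
          sub_zero] at h1
        have h2 : ((⟪A, A⟫_ℝ : ℂ) * (⟪ep k, ep i - ep j⟫_ℝ : ℂ)) = 0 := by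
          rcases smul_eq_zero.1 (neg_eq_zero.1 h1) with h2 | h2
          · exact h2
          · exact absurd h2 (he0 k)
        rw [if_neg hk, if_neg hk', sub_zero]
        exact_mod_cast h2
  refine ⟨fun i => (hep i).1, ?_, ?_, ?_⟩
  · intro i j hij
    obtain ⟨A, hA'⟩ := hA i j hij
    refine ⟨C.a.sub_mem (hep i).1 (hep j).1, sub_ne_zero.2 (hD i j hij), A, ?_, hAR i j hij A hA'⟩
    intro h
    rw [h, Rep.zero'] at hA'
    apply he0 i
    rw [← G01U_self e i j, ← hA', LinearMap.zero_apply]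
  · rintro al ⟨hala, hal0, Z, hZ0, hZ⟩
    have h1 : ∃ j, s.op Z (e j) ≠ 0 := by
      by_contra h
      push Not at h
      apply hZ0
      apply G01_faith s hf e
      intro k
      rw [h k, Rep.zero', LinearMap.zero_apply]
    obtain ⟨j, hj⟩ := h1
    have h2 : ∃ i, ⟪e i, s.op Z (e j)⟫_ℂ ≠ 0 := by
      by_contra h
      push Not at h
      apply hj
      rw [← e.sum_repr' (s.op Z (e j))]
      exact Finset.sum_eq_zero fun i _ => by rw [h i, zero_smul]
    obtain ⟨i, hi⟩ := h2
    have h3 : ep i = al + ep j := by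
      by_contra h
      exact hi (wt_orth s C (hep i).1 (C.a.add_mem hala (hep j).1) (hep i).2
        (wt_shift s C hZ (hep j).2) h)
    have h4 : al = ep i - ep j := by rw [h3, add_sub_cancel_right]
    refine ⟨i, j, ?_, h4⟩
    intro h
    rw [h, sub_self] at h4
    exact hal0 h4
  · intro i j k hij
    obtain ⟨A, hA'⟩ := hA i j hij
    have h1 := hc i j k hij A hA'
    have h2 := hc i j i hij A hA'
    have h3 := hc i j j hij A hA'
    rw [if_pos rfl, if_neg hij, sub_zero] at h2
    rw [if_neg (Ne.symm hij), if_pos rfl, zero_sub] at h3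
    have h4 : ⟪A, A⟫_ℝ * ⟪ep i - ep j, ep i - ep j⟫_ℝ = 2 := by
      rw [inner_sub_left (𝕜 := ℝ) (ep i) (ep j), mul_sub, h2, h3]
      norm_num
    rw [← h1]
    have h5 : 2 * ⟪ep k, ep i - ep j⟫_ℝ =
        (⟪A, A⟫_ℝ * ⟪ep i - ep j, ep i - ep j⟫_ℝ) * ⟪ep k, ep i - ep j⟫_ℝ := by rw [h4]
    rw [h5]
    ring

/-- `cor` for sums -/
theorem AW.G01_sum {C : CSub L} {n : ℕ} {ep : Fin n → g} (h : AW C ep) (I : Finset (Fin n))
    {i j : Fin n} (hij : i ≠ j) : 2 * ⟪∑ k ∈ I, ep k, ep i - ep j⟫_ℝ =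
      ((if i ∈ I then 1 else 0) - (if j ∈ I then 1 else 0)) * ⟪ep i - ep j, ep i - ep j⟫_ℝ := by
  rw [sum_inner, Finset.mul_sum, Finset.sum_congr rfl fun k _ => h.cor i j k hij, ← Finset.sum_mul,
    Finset.sum_sub_distrib, Finset.sum_ite_eq', Finset.sum_ite_eq']

theorem AW.mins {C : CSub L} {n : ℕ} {ep : Fin n → g} (h : AW C ep) (I : Finset (Fin n)) :
    Mins L C.a (∑ i ∈ I, ep i) := by
  intro al hal
  obtain ⟨i, j, hij, rfl⟩ := h.all al hal
  have h0 : 0 ≤ ⟪ep i - ep j, ep i - ep j⟫_ℝ := real_inner_self_nonneg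
  have h1 := h.G01_sum I hij
  have h2 : 2 * |⟪∑ k ∈ I, ep k, ep i - ep j⟫_ℝ| = |2 * ⟪∑ k ∈ I, ep k, ep i - ep j⟫_ℝ| := by
    rw [abs_mul, abs_two]
  rw [h2, h1, abs_mul, abs_of_nonneg h0]
  have h3 : |((if i ∈ I then 1 else 0) - (if j ∈ I then 1 else 0) : ℝ)| ≤ 1 := by
    split_ifs <;> norm_num
  calc _ ≤ 1 * ⟪ep i - ep j, ep i - ep j⟫_ℝ := mul_le_mul_of_nonneg_right h3 h0
    _ = _ := one_mul _

theorem typeA_gen {C : CSub L} {n : ℕ} {ep : Fin n → g} (h : AW C ep) {H : g}
    (hH : Reg L C.a H) :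
    ∃ S : Finset g, Gen L C.a H S ∧ ∀ y ∈ S, ∃ I : Finset (Fin n), y = ∑ i ∈ I, ep i := by
  classical
  let σ : Equiv.Perm (Fin n) := Tuple.sort fun k => -⟪ep k, H⟫_ℝ
  have hmono : ∀ i j, i < j → ⟪ep (σ j), H⟫_ℝ < ⟪ep (σ i), H⟫_ℝ := by
    intro i j hij
    have h1 : -⟪ep (σ i), H⟫_ℝ ≤ -⟪ep (σ j), H⟫_ℝ := Tuple.monotone_sort (fun k => -⟪ep k, H⟫_ℝ) hij.le
    have hne : σ i ≠ σ j := fun h2 => hij.ne (σ.injective h2)
    have h2 := hH.2 _ (h.root _ _ hne)
    rw [inner_sub_left] at h2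
    have h3 : ⟪ep (σ i), H⟫_ℝ ≠ ⟪ep (σ j), H⟫_ℝ := fun h4 => h2 (sub_eq_zero.2 h4)
    rcases lt_or_eq_of_le (neg_le_neg_iff.1 h1) with h4 | h4
    · exact h4
    · exact absurd h4.symm h3
  clear_value σ
  let ep' : Fin n → g := fun i => ep (σ i)
  have h' : AW C ep' := by
    refine ⟨fun i => h.mem _, fun i j hij => h.root _ _ fun h2 => hij (σ.injective h2), ?_, ?_⟩
    · intro al hal
      obtain ⟨i, j, hij, h1⟩ := h.all al hal
      refine ⟨σ.symm i, σ.symm j, fun h2 => hij (σ.symm.injective h2), ?_⟩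
      show al = ep (σ (σ.symm i)) - ep (σ (σ.symm j))
      rw [Equiv.apply_symm_apply, Equiv.apply_symm_apply, h1]
    · intro i j k hij
      have h1 := h.cor (σ i) (σ j) (σ k) fun h2 => hij (σ.injective h2)
      simp only [EmbeddingLike.apply_eq_iff_eq] at h1
      exact h1
  have hpos : ∀ i j, 0 < ⟪ep' i - ep' j, H⟫_ℝ → i < j := by
    intro i j h1
    rw [inner_sub_left] at h1
    by_contra h2
    rcases lt_or_eq_of_le (not_lt.1 h2) with h3 | h3
    · have := hmono j i h3
      simp only [ep'] at h1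
      linarith
    · rw [h3, sub_self] at h1
      exact lt_irrefl _ h1
  let om : Fin n → g := fun k => ∑ i ∈ Finset.Iic k, ep' i
  let K : Finset (Fin n) := Finset.univ.filter fun k => k.val + 1 < n
  refine ⟨K.image om, ⟨?_, ?_⟩, ?_⟩
  · intro y hy al hal hp
    obtain ⟨k, _, rfl⟩ := Finset.mem_image.1 hy
    obtain ⟨i, j, hij, rfl⟩ := h'.all al hal
    have h1 := h'.G01_sum (Finset.Iic k) hij
    have h2 := hpos i j hp
    have h3 : 0 ≤ ⟪ep' i - ep' j, ep' i - ep' j⟫_ℝ := real_inner_self_nonneg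
    rw [real_inner_comm]
    have h4 : (0 : ℝ) ≤ (if i ∈ Finset.Iic k then 1 else 0) - (if j ∈ Finset.Iic k then 1 else 0) := by
      by_cases h5 : j ∈ Finset.Iic k
      · have h6 : i ∈ Finset.Iic k := Finset.mem_Iic.2 (h2.le.trans (Finset.mem_Iic.1 h5))
        rw [if_pos h5, if_pos h6, sub_self]
      · rw [if_neg h5]
        split_ifs <;> norm_num
    have h5 : 0 ≤ 2 * ⟪om k, ep' i - ep' j⟫_ℝ := by
      show 0 ≤ 2 * ⟪∑ i ∈ Finset.Iic k, ep' i, ep' i - ep' j⟫_ℝ
      rw [h1]
      exact mul_nonneg h4 h3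
    linarith
  · intro x hx hdom
    -- the coefficients
    let nx : Fin n → Fin n := fun k => if hk : k.val + 1 < n then ⟨k.val + 1, hk⟩ else k
    let d : Fin n → ℝ := fun k => 2 * ⟪ep' k - ep' (nx k), x⟫_ℝ /
      ⟪ep' k - ep' (nx k), ep' k - ep' (nx k)⟫_ℝ
    have hnx : ∀ k : Fin n, k.val + 1 < n → k < nx k := by
      intro k hk
      simp only [nx, dif_pos hk]
      rw [Fin.lt_def]
      simp
    have hroot : ∀ k : Fin n, k.val + 1 < n → ep' k - ep' (nx k) ∈ roots L C.a := fun k hk =>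
      h'.root _ _ (hnx k hk).ne
    have hposk : ∀ k : Fin n, k.val + 1 < n → 0 < ⟪ep' k - ep' (nx k), H⟫_ℝ := by
      intro k hk
      rw [inner_sub_left, sub_pos]
      exact hmono _ _ (hnx k hk)
    have hsq : ∀ k : Fin n, k.val + 1 < n → 0 < ⟪ep' k - ep' (nx k), ep' k - ep' (nx k)⟫_ℝ :=
      fun k hk => real_inner_self_pos.2 (hroot k hk).2.1
    have hd : ∀ k ∈ K, 0 ≤ d k := by
      intro k hk
      have hk' : k.val + 1 < n := (Finset.mem_filter.1 hk).2
      have h1 := hdom _ (hroot k hk') (hposk k hk')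
      have h2 := hsq k hk'
      exact div_nonneg (by linarith) h2.le
    have hS : ∑ y ∈ K.image om, (∑ k ∈ K.filter (fun k => om k = y), d k) • y =
        ∑ k ∈ K, d k • om k := by
      rw [← Finset.sum_fiberwise_of_maps_to (s := K) (t := K.image om) (g := om)
        (fun k hk => Finset.mem_image_of_mem om hk)]
      refine Finset.sum_congr rfl fun y _ => ?_
      rw [Finset.sum_smul]
      refine Finset.sum_congr rfl fun k hk => ?_
      rw [(Finset.mem_filter.1 hk).2]
    refine ⟨fun y => ∑ k ∈ K.filter (fun k => om k = y), d k, ?_, ?_⟩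
    · intro y _
      exact Finset.sum_nonneg fun k hk => hd k (Finset.mem_filter.1 hk).1
    · rw [hS]
      have hkey : ∀ m : Fin n, m.val + 1 < n →
          ⟪ep' m - ep' (nx m), x - ∑ k ∈ K, d k • om k⟫_ℝ = 0 := by
        intro m hm
        have hne := (hnx m hm).ne
        have h1 : ∀ k ∈ K, 2 * ⟪ep' m - ep' (nx m), d k • om k⟫_ℝ =
            if k = m then d m * ⟪ep' m - ep' (nx m), ep' m - ep' (nx m)⟫_ℝ else 0 := by
          intro k _
          have h2 := h'.G01_sum (Finset.Iic k) hne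
          have h3 : ⟪ep' m - ep' (nx m), om k⟫_ℝ = ⟪∑ i ∈ Finset.Iic k, ep' i, ep' m - ep' (nx m)⟫_ℝ :=
            real_inner_comm _ _
          rw [real_inner_smul_right, h3, mul_left_comm, h2]
          by_cases hk : k = m
          · subst hk
            rw [if_pos rfl, if_pos (Finset.mem_Iic.2 le_rfl), if_neg, sub_zero, one_mul]
            intro h4
            exact absurd (Finset.mem_Iic.1 h4) (not_le.2 (hnx k hm))
          · rw [if_neg hk]
            by_cases h4 : m < k
            · have h5 : nx m ≤ k := by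
                simp only [nx, dif_pos hm]
                rw [Fin.le_def]
                exact h4
              rw [if_pos (Finset.mem_Iic.2 h4.le), if_pos (Finset.mem_Iic.2 h5), sub_self, zero_mul,
                mul_zero]
            · have h5 : k < m := lt_of_le_of_ne (not_lt.1 h4) hk
              have h6 : m ∉ Finset.Iic k := fun h7 => absurd (Finset.mem_Iic.1 h7) (not_le.2 h5)
              have h7 : nx m ∉ Finset.Iic k := fun h8 =>
                absurd (Finset.mem_Iic.1 h8) (not_le.2 (h5.trans (hnx m hm)))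
              rw [if_neg h6, if_neg h7, sub_self, zero_mul, mul_zero]
        have h2 : 2 * ⟪ep' m - ep' (nx m), ∑ k ∈ K, d k • om k⟫_ℝ =
            d m * ⟪ep' m - ep' (nx m), ep' m - ep' (nx m)⟫_ℝ := by
          have hmK : m ∈ K := Finset.mem_filter.2 ⟨Finset.mem_univ _, hm⟩
          rw [inner_sum, Finset.mul_sum, Finset.sum_congr rfl h1, Finset.sum_ite_eq', if_pos hmK]
        have h3 : d m * ⟪ep' m - ep' (nx m), ep' m - ep' (nx m)⟫_ℝ =
            2 * ⟪ep' m - ep' (nx m), x⟫_ℝ := div_mul_cancel₀ _ (hsq m hm).ne'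
        rw [inner_sub_right]
        linarith
      have hconst : ∀ m : ℕ, ∀ hm : m < n, ⟪ep' ⟨m, hm⟩, x - ∑ k ∈ K, d k • om k⟫_ℝ =
          ⟪ep' ⟨0, (Nat.zero_le m).trans_lt hm⟩, x - ∑ k ∈ K, d k • om k⟫_ℝ := by
        intro m
        induction m with
        | zero => intro _; rfl
        | succ m ih =>
          intro hm
          rw [← ih (Nat.lt_of_succ_lt hm)]
          have h1 := hkey ⟨m, Nat.lt_of_succ_lt hm⟩ hm
          have h2 : nx ⟨m, Nat.lt_of_succ_lt hm⟩ = ⟨m + 1, hm⟩ := by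
            simp only [nx, dif_pos hm]
          rw [h2, inner_sub_left] at h1
          linarith
      intro al hal
      obtain ⟨i, j, _, rfl⟩ := h'.all al hal
      have h1 := hconst i.val i.isLt
      have h2 := hconst j.val j.isLt
      rw [inner_sub_left]
      have h3 : (⟨i.val, i.isLt⟩ : Fin n) = i := rfl
      have h4 : (⟨j.val, j.isLt⟩ : Fin n) = j := rfl
      rw [h3] at h1
      rw [h4] at h2
      rw [h1, h2, sub_self]
  · intro y hy
    obtain ⟨k, _, rfl⟩ := Finset.mem_image.1 hy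
    refine ⟨(Finset.Iic k).map σ.toEmbedding, ?_⟩
    rw [Finset.sum_map]
    rfl

end Pool.Agent.Lib.MP_4322ef_CH
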