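import Pool.Agent.Lib.MP_4322ef_CH.G01
import Pool.Agent.Lib.MP_4322ef_CE.Mg.G003

/-!
# The irreducible representations with minuscule extreme weights of `gl(E)` and `sl(E)`
-/

set_option autoImplicit false

open scoped InnerProductSpace

namespace Pool.Agent.Lib.MP_4322ef_CH

open Pool.Agent.Lib.MP_4322ef_al.SR

variable {g : Type} [NormedAddCommGroup g] [InnerProductSpace ℝ g] {L : RedLie g}

section
variable {J : CStr L} {E : Type} [NormedAddCommGroup E] [InnerProductSpace ℂ E]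
  [FiniteDimensional ℂ E]

/-- the character `A ↦ tr A` -/
noncomputable def trRep (s : CRep J E) : CRep J ℂ where
  op A := (LinearMap.trace ℂ E (s.op A)) • LinearMap.id
  add A B := by rw [s.add, map_add, add_smul]
  smul r A := by rw [s.smul, map_smul, smul_eq_mul, mul_smul]
  bracket A B x := by
    have h1 : s.op (L.br A B) = s.op A * s.op B - s.op B * s.op A := by
      ext x
      rw [s.bracket]
      rfl
    have h2 : LinearMap.trace ℂ E (s.op (L.br A B)) = 0 := by
      rw [h1, map_sub, LinearMap.trace_mul_comm, sub_self]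
    rw [h2, zero_smul, LinearMap.zero_apply]
    simp only [LinearMap.smul_apply, LinearMap.id_apply, smul_eq_mul]
    ring
  lin A := by rw [s.lin, map_smul, smul_eq_mul, mul_smul]
  adj A x y := by
    have h1 : star (LinearMap.trace ℂ E (s.op A)) = -LinearMap.trace ℂ E (s.op (L.th A)) := by
      rw [LinearMap.trace_eq_sum_inner _ (stdOrthonormalBasis ℂ E),
        LinearMap.trace_eq_sum_inner _ (stdOrthonormalBasis ℂ E), star_sum,
        ← Finset.sum_neg_distrib]
      refine Finset.sum_congr rfl fun i _ => ?_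
      rw [← s.adj]
      exact inner_conj_symm _ _
    simp only [LinearMap.smul_apply, LinearMap.id_apply, inner_smul_left, inner_smul_right]
    have h2 : (starRingEnd ℂ) (LinearMap.trace ℂ E (s.op A)) =
        -LinearMap.trace ℂ E (s.op (L.th A)) := h1
    rw [h2, neg_mul]

theorem trRep_op (s : CRep J E) (A : g) (x : ℂ) :
    (trRep s).op A x = (LinearMap.trace ℂ E (s.op A)) * x := rfl

omit [FiniteDimensional ℂ E] in
theorem irr_C (q : CRep J ℂ) : Irr q := fun U _ => Ideal.eq_bot_or_top U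

theorem typeA_irr (s : CRep J E) (hs : TypeA s) : Irr s := by
  intro U hU
  by_contra hcon
  push Not at hcon
  obtain ⟨u, huU, hu0⟩ := (Submodule.ne_bot_iff U).1 hcon.1
  have h1 : Uᗮ ≠ ⊥ := fun h => hcon.2 ((Submodule.orthogonal_eq_bot_iff).1 h)
  obtain ⟨w, hwU, hw0⟩ := (Submodule.ne_bot_iff _).1 h1
  let T : E →ₗ[ℂ] E := ((innerSL ℂ u).toLinearMap).smulRight w
  have hT : ∀ x, T x = ⟪u, x⟫_ℂ • w := fun x => rfl
  have huw : ⟪u, w⟫_ℂ = 0 := (Submodule.mem_orthogonal U w).1 hwU u huU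
  have htr : LinearMap.trace ℂ E T = 0 := by
    rw [LinearMap.trace_eq_sum_inner _ (stdOrthonormalBasis ℂ E)]
    have h2 := (stdOrthonormalBasis ℂ E).sum_inner_mul_inner u w
    rw [huw] at h2
    rw [← h2]
    refine Finset.sum_congr rfl fun i _ => ?_
    rw [hT, inner_smul_right]
  obtain ⟨A, hA⟩ := hs.2 T htr
  have h3 := hU A u huU
  rw [hA, hT] at h3
  have h4 : w ∈ U := (U.smul_mem_iff (inner_self_ne_zero.2 hu0)).1 h3
  have h5 := (Submodule.mem_orthogonal U w).1 hwU w h4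
  exact hw0 (inner_self_eq_zero.1 h5)

variable [FiniteDimensional ℝ g]

theorem reg_H₀ (C : CSub L) : Reg L C.a C.H₀ := by
  obtain ⟨P, hP, hPm, hPh, hPv, hP0⟩ := exists_P C
  exact ⟨C.mem, fun al ha => hP0 ⟨al, ha.1⟩ ((hPm _).2 ha)⟩

omit [FiniteDimensional ℂ E] in
theorem typeA_std (s : CRep J E) (C : CSub L) {n : ℕ}
    {e : OrthonormalBasis (Fin n) ℂ E} {ep : Fin n → g} (h : AW C ep)
    (hw : ∀ i, WV s C.a (ep i) (e i)) (j : Fin n) :
    ∃ H₁, Reg L C.a H₁ ∧ HW s C.a H₁ (ep j) (e j) := by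
  have hne : e j ≠ 0 := by
    intro h0
    have h1 := e.norm_eq_one j
    rw [h0, norm_zero] at h1
    exact zero_ne_one h1
  obtain ⟨H₁, hH₁, hd⟩ := exists_comm C (h.mem j) (h.mem j) fun al ha hpos => hpos.le
  refine ⟨H₁, hH₁, h.mem j, hne, hw j, ?_⟩
  rintro Z ⟨r, hr, hZ⟩
  refine N06_pos C s hH₁.1 ?_ hr hZ
  intro al hal hpos Z hZ
  by_contra hcon
  have hal0 : al ≠ 0 := by
    rintro rfl
    rw [inner_zero_left] at hpos
    exact lt_irrefl _ hpos
  have hZ0 : Z ≠ 0 := by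
    rintro rfl
    exact hcon (by rw [Rep.zero', LinearMap.zero_apply])
  have h1 := wt_shift s C hZ (hw j)
  obtain ⟨l, hl⟩ : ∃ l, ⟪e l, s.op Z (e j)⟫_ℂ ≠ 0 := by
    by_contra hall
    push Not at hall
    apply hcon
    rw [← e.sum_repr' (s.op Z (e j))]
    exact Finset.sum_eq_zero fun i _ => by rw [hall i, zero_smul]
  have h2 : ep l = al + ep j := by
    by_contra hne'
    exact hl (wt_orth s C (h.mem l) (C.a.add_mem hal (h.mem j)) (hw l) h1 hne')
  have h3 : al = ep l - ep j := by rw [h2, add_sub_cancel_right]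
  have hlj : l ≠ j := by
    rintro rfl
    exact hal0 (by rw [h3, sub_self])
  have h4 := h.cor l j j hlj
  rw [if_neg hlj.symm, if_pos rfl, ← h3] at h4
  have h5 := (hd al ⟨hal, hal0, Z, hZ0, hZ⟩ hpos).1
  rw [real_inner_comm] at h5
  have h6 : 0 < ⟪al, al⟫_ℝ := real_inner_self_pos.2 hal0
  linarith

theorem typeA_rep (s : CRep J E) (hs : TypeA s) (C : CSub L) {n : ℕ}
    {e : OrthonormalBasis (Fin n) ℂ E} {ep : Fin n → g} (h : AW C ep)
    (hw : ∀ i, WV s C.a (ep i) (e i)) (I : Finset (Fin n)) :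
    ∃ (Y : Type) (_ : NormedAddCommGroup Y) (_ : InnerProductSpace ℂ Y)
      (_ : FiniteDimensional ℂ Y) (q : CRep J Y), Irr q ∧
        IsExt J C.a q.op ⊤ (∑ i ∈ I, ep i) := by
  classical
  have key : ∀ K : Finset (Fin n), ∃ (Y : Type) (_ : NormedAddCommGroup Y)
      (_ : InnerProductSpace ℂ Y) (_ : FiniteDimensional ℂ Y) (q : CRep J Y), Irr q ∧
        ∃ H₁ v, Reg L C.a H₁ ∧ HW q C.a H₁ (∑ i, ep i - ∑ i ∈ K, ep i) v := by
    intro K
    induction K using Finset.induction_on with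
    | empty =>
      refine ⟨ℂ, inferInstance, inferInstance, inferInstance, trRep s, irr_C _, C.H₀, 1,
        reg_H₀ C, ?_⟩
      rw [Finset.sum_empty, sub_zero]
      refine ⟨C.a.sum_mem fun i _ => h.mem i, one_ne_zero, ?_, ?_⟩
      · intro H hH
        rw [trRep_op, LinearMap.trace_eq_sum_inner _ e, mul_one, smul_eq_mul, mul_one, sum_inner,
          Complex.ofReal_sum]
        refine Finset.sum_congr rfl fun i _ => ?_
        rw [hw i H hH, inner_smul_right, inner_self_eq_norm_sq_to_K, e.norm_eq_one]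
        norm_num
      · rintro Z ⟨r, hr, hZ⟩
        rw [trRep_op, mul_one]
        have h1 : s.op (L.br C.H₀ Z) = s.op C.H₀ * s.op Z - s.op Z * s.op C.H₀ := by
          ext x
          rw [s.bracket]
          rfl
        have h2 : LinearMap.trace ℂ E (s.op (L.br C.H₀ Z)) = 0 := by
          rw [h1, map_sub, LinearMap.trace_mul_comm, sub_self]
        rw [hZ, s.smul, map_smul, smul_eq_mul] at h2
        rcases mul_eq_zero.1 h2 with h3 | h3
        · exact absurd (Complex.ofReal_eq_zero.1 h3) hr.ne'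
        · exact h3
    | insert j K hj ih =>
      obtain ⟨Y, i1, i2, i3, q, hq, H₁, v, hH₁, hv⟩ := ih
      obtain ⟨H₄, hH₄, hy⟩ := typeA_std s C h hw j
      have hm : Mins L C.a (ep j) := by
        have h1 := h.mins {j}
        rw [Finset.sum_singleton] at h1
        exact h1
      obtain ⟨H₃, hH₃, hd⟩ := common_chm C hv.mem (h.mem j)
        (fun al ha => wt_int q C ⟨hv.mem, v, hv.ne, hv.wt⟩ ha) hm
      have hv₁ := hw_change q C hH₁ hv hH₃ fun al ha hpos => (hd al ha hpos).1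
      obtain ⟨V, j1, j2, j3, p, b, hp, -, v', hv', -⟩ := prv_exists C q hq s (typeA_irr s hs) hH₃
        hH₄ hv₁ hy fun al ha hpos => (hd al ha hpos).2
      refine ⟨V, j1, j2, j3, p, hp, H₃, v', hH₃, ?_⟩
      rw [Finset.sum_insert hj, add_comm, ← sub_sub]
      exact hv'
  obtain ⟨Y, i1, i2, i3, q, hq, H₁, v, hH₁, hv⟩ := key Iᶜ
  refine ⟨Y, i1, i2, i3, q, hq, ?_⟩
  have h1 : ∑ i, ep i - ∑ i ∈ Iᶜ, ep i = ∑ i ∈ I, ep i := by
    rw [← Finset.sum_add_sum_compl I, add_sub_cancel_right]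
  rw [h1] at hv
  exact hw_ext q C hH₁ hv

/-- for `gl(E)` and `sl(E)` all weights needed are good -/
theorem typeA_good {X : Type} [AddCommGroup X] [Module ℂ X] (op : g → X →ₗ[ℂ] X)
    (s : CRep J E) (hs : TypeA s) (C : CSub L) (V₀ : Submodule ℂ X) (mu : g) {H : g}
    (hH : Reg L C.a H) :
    ∃ S : Finset g, Gen L C.a H S ∧ ∀ y ∈ S, Good J C.a op V₀ mu y := by
  obtain ⟨n, e, ep, h, hw⟩ := typeA_weights C s hs
  obtain ⟨S, hS, hI⟩ := typeA_gen h hH
  refine ⟨S, hS, fun y hy => ?_⟩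
  obtain ⟨I, rfl⟩ := hI y hy
  obtain ⟨Y, i1, i2, i3, q, hq, hqe⟩ := typeA_rep s hs C h hw I
  exact ⟨Y, i1, i2, i3, q, hq, hqe, Or.inl (h.mins I)⟩

end

end Pool.Agent.Lib.MP_4322ef_CH
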