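import Pool.Agent.Lib.MP_4322ef_CE.Mg.G003
import Pool.Agent.Lib.MP_4322ef_CH.Defs3

/-!
# Iterated components: sums of orthogonal weights

`K` is a set of pairwise orthogonal weights of equal length `q` of a module `E` with an orthonormal basis `e` of
weight vectors. `prv_iter`: by induction on the number of elements of the nonempty set `K'`, for all `W`, `Y` etc.
* One element `i`: `prv_exists` for `W`, `Y` (`exists_comm` and `hw_change` give the common chamber of `mu` and `mu - w i`).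
* `y = ∑_{K'} w i`, at least two elements. Let `λ = mu - y` and take `1 ∈ K'` with `⟪λ, w 1⟫` minimal, `K'' = K' \ {1}`,
  `y'' = y - w 1`.
  (1) `prv_exists` for `Y`, `y` and `E`, `w 1` (`hQ` for `x = y` gives the common chamber): `Y''` irreducible with highest
      weight vector `y₁` of weight `y''`, `c : Y'' → E → Y` equivariant, `c y₁ (e 1) ≠ 0`.
  (2) the induction hypothesis for `W`, `mu`, `Y''`, `K''`: `V'` with highest weight vector `v₁'` of weight `mu - y'' = λ + w 1`,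
      `b' : V' → Y'' → W` equivariant, `b' v₁' y₁ ≠ 0`.
  (3) `prv_exists` for `V'`, `λ + w 1` and `E`, `w 1`: `V` with highest weight vector `v₁` of weight `λ`, `a : V → E → V'`
      equivariant, `a v₁ (e 1) ≠ 0`.
  (4) `b v u = ∑_j b' (a v (e j)) (c_j^* u)` with `c_j = c(·, e j) : Y'' → Y` and its adjoint `c_j^* : Y → Y''`
      (`LinearMap.adjoint`). This is `P01_b`: from `c_j Z + c(·, Z e j) = Z c_j`, taking adjoints
      (`(op Z)^* = -op (θ Z)`) and replacing `Z` by `θ Z`: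
          `Z c_j^* u = c_j^* Z u + (c(·, (θ Z) e j))^* u`,                                       (*)
      and `c(·, (θ Z) e j) = ∑_k ⟪e k, (θ Z) e j⟫ c_k`, with adjoint `∑_k conj ⟪e k, (θ Z) e j⟫ c_k^*`,
      `conj ⟪e k, (θ Z) e j⟫ = ⟪(θ Z) e j, e k⟫ = -⟪e j, Z e k⟫`; and `a v (Z e j) = ∑_k ⟪e k, Z e j⟫ a v (e k)`. The two
      sums cancel.
  (5) `P01_ne`: `b v₁ u ≠ 0` for the highest weight vector `u` of `Y` (weight `y`). The vector `c_j^* u` has the weight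
      `y - w j`, `a v₁ (e j)` has the weight `λ + w j`. Norms of weights of an irreducible module are at most the norm of the
      extreme weight (`P01_norm`, from `hw_bound` after moving `lam` into the chamber, as in the proof of `low` in W08). So if the
      term `j` is not `0` then `|y - w j| ≤ |y - w 1|`, which gives `j ∈ K'` (fields `neg`, `orth`, `len`), and
      `|λ + w j| ≤ |λ + w 1|`, so `⟪λ, w j⟫ ≤ ⟪λ, w 1⟫`, equality by minimality. Let `T_j = b' (a v₁ (e j)) (c_j^* u)`.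
      `T_1 ≠ 0`: `a v₁ (e 1)` is a nonzero multiple of `v₁'`, `c_1^* u` one of `y₁` (`hw_mult`; `⟪c_1^* u, y₁⟫ = ⟪u, c y₁ (e 1)⟫ ≠ 0`
      since `c y₁ (e 1) ≠ 0` is a multiple of `u`). For `j ≠ 1` with `⟪λ, w j⟫ = ⟪λ, w 1⟫`: `T_j = T_1`. Proof: `α = w 1 - w j`, `Z` from
      `P01_root` (`Z e j = e 1`, `F := -θ Z`, `F e 1 = e j`). Then `⟪λ, α⟫ = ⟪y, α⟫ = ⟪mu, α⟫ = 0`, `⟪w 1, α⟫ = q`, `⟪y'', α⟫ = -q`.
      `F v₁ = 0` (`ext_kill`), so `a v₁ (e j) = a v₁ (F e 1) = F (a v₁ (e 1))`. `Z u = 0` (`ext_kill`), so (*) for `Z` and `j = 1`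
      gives `c_j^* u = -Z c_1^* u`. With `a₁ = a v₁ (e 1)`, `c₁ = c_1^* u`: `b' a₁ (Z c₁)` has the weight `mu + α`, longer than
      `mu`, so it is `0`; hence `0 = F (b' a₁ (Z c₁)) = b' (F a₁) (Z c₁) + b' a₁ (F Z c₁)`, i.e. `T_j = b' a₁ (F Z c₁)`. And `F c₁ = 0`
      (`ext_kill`, `⟪y'', -α⟫ > 0`), `F Z c₁ = -[Z, F] c₁ = -⟪Z, Z⟫ ⟪y'', α⟫ c₁ = ⟪Z, Z⟫ q c₁`, and `⟪Z, Z⟫ q = 1` from
      `e 1 = Z F e 1 - F Z e 1 = [Z, F] e 1 = ⟪Z, Z⟫ ⟪w 1, α⟫ e 1` (`Z e 1 = 0`: weight `2 w 1 - w j` is not a weight of `E`, or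
      `ext_kill`). So `b v₁ u` is `T_1` times the number of `j`.
* `P01_root`: a root vector `Z` of `w i - w j`. `Z e j ≠ 0` since otherwise `0 ≤ ⟪w i - w j, w j⟫ = -q` (proof of `hw_dom`), it has
  the weight `w i`, so it is a multiple of `e i` (`inj`, `wt_orth`); replace `Z` by a combination of `Z` and `J Z`. `(θ Z) e i`:
  `⟪e k, (θ Z) e i⟫ = -⟪Z e k, e i⟫` is nonzero only if `w k = w j`.
-/

set_option autoImplicit false

open scoped InnerProductSpace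

namespace Pool.Agent.Lib.MP_4322ef_CH

open Pool.Agent.Lib.MP_4322ef_al.SR

variable {g : Type} [NormedAddCommGroup g] [InnerProductSpace ℝ g] {L : RedLie g}
  [FiniteDimensional ℝ g]

section
variable {J : CStr L} {E : Type} [NormedAddCommGroup E] [InnerProductSpace ℂ E]
  [FiniteDimensional ℂ E]
  {W : Type} [NormedAddCommGroup W] [InnerProductSpace ℂ W] [FiniteDimensional ℂ W]
  {Y : Type} [NormedAddCommGroup Y] [InnerProductSpace ℂ Y] [FiniteDimensional ℂ Y]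

/-- pairwise orthogonal weights of equal length -/
structure Orth (C : CSub L) (s : CRep J E) {N : ℕ} (e : OrthonormalBasis (Fin N) ℂ E)
    (w : Fin N → g) (K : Finset (Fin N)) (q : ℝ) : Prop where
  mem : ∀ i, w i ∈ C.a
  wv : ∀ i, WV s C.a (w i) (e i)
  pos : 0 < q
  len : ∀ i ∈ K, ⟪w i, w i⟫_ℝ = q
  orth : ∀ i ∈ K, ∀ j ∈ K, i ≠ j → ⟪w i, w j⟫_ℝ = 0
  neg : ∀ i ∈ K, ∀ j, j ∉ K → ⟪w i, w j⟫_ℝ ≤ 0
  inj : ∀ i ∈ K, ∀ j, w j = w i → j = i
  ext : ∀ i ∈ K, ∃ H₁, Reg L C.a H₁ ∧ HW s C.a H₁ (w i) (e i)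
  root : ∀ i ∈ K, ∀ j ∈ K, i ≠ j → w i - w j ∈ roots L C.a

theorem P01_norm (t : CRep J W) (C : CSub L) (ht : Irr t) {H₁ mu lam : g} {v : W}
    (hH₁ : Reg L C.a H₁) (hv : HW t C.a H₁ mu v) (hlam : IsW t C.a lam) :
    ⟪lam, lam⟫_ℝ ≤ ⟪mu, mu⟫_ℝ := N04_norm t C ht hH₁ hv hlam

omit [FiniteDimensional ℝ g] [FiniteDimensional ℂ E] in
/-- a vector of the weight `w i` is a multiple of `e i` -/
theorem P01_line (C : CSub L) (s : CRep J E) {N : ℕ} {e : OrthonormalBasis (Fin N) ℂ E}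
    {w : Fin N → g} {K : Finset (Fin N)} {q : ℝ} (h : Orth C s e w K q) {i : Fin N}
    (hi : i ∈ K) {x : E} (hx : WV s C.a (w i) x) : x = ⟪e i, x⟫_ℂ • e i := by
  conv_lhs => rw [← e.sum_repr' x]
  refine Finset.sum_eq_single i (fun k _ hk => ?_) (fun hni => absurd (Finset.mem_univ i) hni)
  have h1 : w k ≠ w i := fun h2 => hk (h.inj i hi k h2)
  rw [wt_orth s C (h.mem k) (h.mem i) (h.wv k) hx h1, zero_smul]

theorem P01_root (C : CSub L) (s : CRep J E) {N : ℕ} {e : OrthonormalBasis (Fin N) ℂ E}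
    {w : Fin N → g} {K : Finset (Fin N)} {q : ℝ} (h : Orth C s e w K q) {i j : Fin N}
    (hi : i ∈ K) (hj : j ∈ K) (hij : i ≠ j) :
    ∃ Z, RV L C.a (w i - w j) Z ∧ s.op Z (e j) = e i ∧ s.op (L.th Z) (e i) = -e j := by
  obtain ⟨hal, hal0, Z₀, hZ0, hZ₀⟩ := h.root i hi j hj hij
  have hZ₀' : RV L C.a (w i - w j) Z₀ := hZ₀
  -- the image of `e j` is not zero
  have hne : s.op Z₀ (e j) ≠ 0 := by
    intro h2
    have h5 : s.op (L.th (L.th Z₀)) (s.op (L.th Z₀) (e j)) =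
        ((-(⟪Z₀, Z₀⟫_ℝ * ⟪w j, w i - w j⟫_ℝ) : ℝ) : ℂ) • e j := by
      have h6 := s.bracket Z₀ (L.th Z₀) (e j)
      rw [h2, map_zero, sub_zero, br_th_root C hal hZ₀', Rep.neg', LinearMap.neg_apply, s.smul,
        LinearMap.smul_apply, h.wv j _ hal, smul_smul, ← Complex.ofReal_mul, ← neg_smul,
        ← Complex.ofReal_neg] at h6
      rw [L.th_th]
      exact h6.symm
    have h8 := W05_norm s h5
    have h9 : ⟪w j, w i - w j⟫_ℝ = -q := by
      rw [inner_sub_right, h.orth j hj i hi (Ne.symm hij), h.len j hj, zero_sub]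
    rw [h9, neg_neg] at h8
    have h10 : ‖e j‖ = 1 := e.orthonormal.1 j
    rw [h10, one_pow, mul_one, mul_neg] at h8
    have h11 : 0 < ⟪Z₀, Z₀⟫_ℝ * q := mul_pos (real_inner_self_pos.2 hZ0) h.pos
    have h12 : (0 : ℝ) ≤ ‖s.op (L.th Z₀) (e j)‖ ^ 2 := sq_nonneg _
    linarith
  have hw1 : WV s C.a (w i) (s.op Z₀ (e j)) := by
    have h1 := wt_shift s C hZ₀' (h.wv j)
    rwa [sub_add_cancel] at h1
  have hc := P01_line C s h hi hw1
  obtain ⟨c, hcd⟩ : ∃ c : ℂ, c = ⟪e i, s.op Z₀ (e j)⟫_ℂ := ⟨_, rfl⟩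
  rw [← hcd] at hc
  have hc0 : c ≠ 0 := by
    rintro rfl
    rw [zero_smul] at hc
    exact hne hc
  obtain ⟨Z, hZd⟩ : ∃ Z : g, Z = (c⁻¹).re • Z₀ + (c⁻¹).im • J.J Z₀ := ⟨_, rfl⟩
  have hop : s.op Z = c⁻¹ • s.op Z₀ := by
    rw [hZd, s.add, s.smul, s.smul, s.lin, smul_smul, ← add_smul, Complex.re_add_im]
  have hRV : RV L C.a (w i - w j) Z := by
    intro H hH
    rw [hZd, map_add, map_smul, map_smul, hZ₀' H hH, RV_J J C hZ₀' H hH]
    module
  have hZe : s.op Z (e j) = e i := by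
    rw [hop, LinearMap.smul_apply, hc, smul_smul, inv_mul_cancel₀ hc0, one_smul]
  refine ⟨Z, hRV, hZe, ?_⟩
  have hw2 : WV s C.a (w j) (s.op (L.th Z) (e i)) := by
    have h1 := wt_shift s C (RV_th C hRV) (h.wv i)
    rwa [neg_sub, sub_add_cancel] at h1
  rw [P01_line C s h hj hw2]
  have h3 := s.adj Z (e j) (e i)
  rw [hZe] at h3
  have h4 : ⟪e i, e i⟫_ℂ = 1 := by
    rw [e.inner_eq_one]
  rw [h4] at h3
  have h5 : ⟪e j, s.op (L.th Z) (e i)⟫_ℂ = -1 := by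
    rw [h3, neg_neg]
  rw [h5, neg_one_smul]

section
variable {V : Type} [NormedAddCommGroup V] [InnerProductSpace ℂ V] [FiniteDimensional ℂ V]
  {V' : Type} [NormedAddCommGroup V'] [InnerProductSpace ℂ V'] [FiniteDimensional ℂ V']
  {Y' : Type} [NormedAddCommGroup Y'] [InnerProductSpace ℂ Y'] [FiniteDimensional ℂ Y']

/-- the map `b` -/
noncomputable def bmap {N : ℕ} (e : OrthonormalBasis (Fin N) ℂ E) (a : V →ₗ[ℂ] E →ₗ[ℂ] V')
    (b' : V' →ₗ[ℂ] Y' →ₗ[ℂ] W) (c : Y' →ₗ[ℂ] E →ₗ[ℂ] Y) : V →ₗ[ℂ] Y →ₗ[ℂ] W :=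
  ∑ j, b'.compl₁₂ (a.flip (e j)) (LinearMap.adjoint (c.flip (e j)))

theorem P01_star (s : CRep J E) (y : CRep J Y) (y' : CRep J Y') {c : Y' →ₗ[ℂ] E →ₗ[ℂ] Y}
    (hc : ∀ Z u x, y.op Z (c u x) = c (y'.op Z u) x + c u (s.op Z x)) (Z : g) (x : E) (u : Y) :
    y'.op Z (LinearMap.adjoint (c.flip x) u) = LinearMap.adjoint (c.flip x) (y.op Z u)
      + LinearMap.adjoint (c.flip (s.op (L.th Z) x)) u := by
  refine ext_inner_right ℂ fun u' => ?_
  rw [y'.adj, LinearMap.adjoint_inner_left, LinearMap.flip_apply, inner_add_left,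
    LinearMap.adjoint_inner_left, LinearMap.flip_apply, y.adj, hc, LinearMap.adjoint_inner_left,
    LinearMap.flip_apply, inner_add_right]
  ring

omit [FiniteDimensional ℝ g] [FiniteDimensional ℂ E] in
theorem P01_adj {N : ℕ} (e : OrthonormalBasis (Fin N) ℂ E) (c : Y' →ₗ[ℂ] E →ₗ[ℂ] Y) (x : E)
    (u : Y) : LinearMap.adjoint (c.flip x) u =
      ∑ k, ⟪x, e k⟫_ℂ • LinearMap.adjoint (c.flip (e k)) u := by
  refine ext_inner_right ℂ fun u' => ?_
  rw [sum_inner, LinearMap.adjoint_inner_left, LinearMap.flip_apply]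
  conv_lhs => rw [← e.sum_repr' x, map_sum, inner_sum]
  refine Finset.sum_congr rfl fun k _ => ?_
  rw [map_smul, inner_smul_right, inner_smul_left, LinearMap.adjoint_inner_left,
    LinearMap.flip_apply, inner_conj_symm]

theorem P01_bmap {N : ℕ} (e : OrthonormalBasis (Fin N) ℂ E) (a : V →ₗ[ℂ] E →ₗ[ℂ] V')
    (b' : V' →ₗ[ℂ] Y' →ₗ[ℂ] W) (c : Y' →ₗ[ℂ] E →ₗ[ℂ] Y) (v : V) (u : Y) :
    bmap e a b' c v u = ∑ j, b' (a v (e j)) (LinearMap.adjoint (c.flip (e j)) u) := by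
  unfold bmap
  rw [LinearMap.sum_apply, LinearMap.sum_apply]
  rfl

theorem P01_b {N : ℕ} (e : OrthonormalBasis (Fin N) ℂ E) (s : CRep J E) (p : CRep J V)
    (p' : CRep J V') (y : CRep J Y) (y' : CRep J Y') (t : CRep J W) {a : V →ₗ[ℂ] E →ₗ[ℂ] V'}
    {b' : V' →ₗ[ℂ] Y' →ₗ[ℂ] W} {c : Y' →ₗ[ℂ] E →ₗ[ℂ] Y}
    (ha : ∀ Z v x, p'.op Z (a v x) = a (p.op Z v) x + a v (s.op Z x))
    (hb : ∀ Z v u, t.op Z (b' v u) = b' (p'.op Z v) u + b' v (y'.op Z u))
    (hc : ∀ Z u x, y.op Z (c u x) = c (y'.op Z u) x + c u (s.op Z x)) (Z : g) (v : V) (u : Y) :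
    t.op Z (bmap e a b' c v u) = bmap e a b' c (p.op Z v) u + bmap e a b' c v (y.op Z u) := by
  rw [P01_bmap, P01_bmap, P01_bmap, map_sum]
  have h1 : ∀ j, t.op Z (b' (a v (e j)) (LinearMap.adjoint (c.flip (e j)) u)) =
      (b' (a (p.op Z v) (e j)) (LinearMap.adjoint (c.flip (e j)) u) +
        b' (a v (e j)) (LinearMap.adjoint (c.flip (e j)) (y.op Z u))) +
      (∑ k, ⟪e k, s.op Z (e j)⟫_ℂ • b' (a v (e k)) (LinearMap.adjoint (c.flip (e j)) u) +
        ∑ k, ⟪s.op (L.th Z) (e j), e k⟫_ℂ •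
          b' (a v (e j)) (LinearMap.adjoint (c.flip (e k)) u)) := by
    intro j
    have h2 : ∑ k, ⟪e k, s.op Z (e j)⟫_ℂ • b' (a v (e k)) (LinearMap.adjoint (c.flip (e j)) u) =
        b' (a v (s.op Z (e j))) (LinearMap.adjoint (c.flip (e j)) u) := by
      conv_rhs => rw [← e.sum_repr' (s.op Z (e j)), map_sum, map_sum, LinearMap.sum_apply]
      refine Finset.sum_congr rfl fun k _ => ?_
      rw [map_smul, map_smul, LinearMap.smul_apply]
    have h3 : ∑ k, ⟪s.op (L.th Z) (e j), e k⟫_ℂ •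
          b' (a v (e j)) (LinearMap.adjoint (c.flip (e k)) u) =
        b' (a v (e j)) (LinearMap.adjoint (c.flip (s.op (L.th Z) (e j))) u) := by
      rw [P01_adj e c (s.op (L.th Z) (e j)) u, map_sum]
      refine Finset.sum_congr rfl fun k _ => ?_
      rw [map_smul]
    rw [h2, h3, hb, ha, P01_star s y y' hc, map_add, LinearMap.add_apply, map_add]
    abel
  rw [Finset.sum_congr rfl fun j _ => h1 j, Finset.sum_add_distrib, Finset.sum_add_distrib,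
    Finset.sum_add_distrib]
  have h4 : ∑ j, ∑ k, ⟪e k, s.op Z (e j)⟫_ℂ • b' (a v (e k)) (LinearMap.adjoint (c.flip (e j)) u) +
      ∑ j, ∑ k, ⟪s.op (L.th Z) (e j), e k⟫_ℂ •
          b' (a v (e j)) (LinearMap.adjoint (c.flip (e k)) u) = 0 := by
    rw [Finset.sum_comm, ← Finset.sum_add_distrib]
    refine Finset.sum_eq_zero fun j _ => ?_
    rw [← Finset.sum_add_distrib]
    refine Finset.sum_eq_zero fun k _ => ?_
    rw [s.adj, L.th_th, neg_smul, add_neg_cancel]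
  rw [h4, add_zero]

end

end

end Pool.Agent.Lib.MP_4322ef_CH
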