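import Pool.Agent.Lib.MP_4322ef_CH.P01

/-!
# Iterated components: the product of the extreme vectors

Proof: item (5) in the header of file P01 (its equation (*) is `P01_star`).
-/

set_option autoImplicit false

open scoped InnerProductSpace

namespace Pool.Agent.Lib.MP_4322ef_CH

open Pool.Agent.Lib.MP_4322ef_al.SR

variable {g : Type} [NormedAddCommGroup g] [InnerProductSpace ℝ g] {L : RedLie g}
  [FiniteDimensional ℝ g]

section
variable {J : CStr L} {E : Type} [NormedAddCommGroup E] [InnerProductSpace ℂ E]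
  [FiniteDimensional ℂ E]
  {W : Type} [NormedAddCommGroup W] [InnerProductSpace ℂ W] [FiniteDimensional ℂ W]
  {Y : Type} [NormedAddCommGroup Y] [InnerProductSpace ℂ Y] [FiniteDimensional ℂ Y]

section
variable {V : Type} [NormedAddCommGroup V] [InnerProductSpace ℂ V] [FiniteDimensional ℂ V]
  {V' : Type} [NormedAddCommGroup V'] [InnerProductSpace ℂ V'] [FiniteDimensional ℂ V']
  {Y' : Type} [NormedAddCommGroup Y'] [InnerProductSpace ℂ Y'] [FiniteDimensional ℂ Y']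

omit [FiniteDimensional ℝ g] [FiniteDimensional ℂ E] [FiniteDimensional ℂ V]
  [FiniteDimensional ℂ V'] in
/-- the weight of a value of an equivariant bilinear map -/
theorem P02_aw {p : CRep J V} {s : CRep J E} {p' : CRep J V'} {a : V →ₗ[ℂ] E →ₗ[ℂ] V'}
    (C : CSub L) (ha : ∀ Z v x, p'.op Z (a v x) = a (p.op Z v) x + a v (s.op Z x)) {la wx : g}
    {v : V} {x : E} (hv : WV p C.a la v) (hx : WV s C.a wx x) : WV p' C.a (la + wx) (a v x) := by
  intro H hH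
  rw [ha, hv H hH, hx H hH, map_smul, map_smul, LinearMap.smul_apply, ← add_smul, inner_add_left,
    Complex.ofReal_add]

/-- the weight of a value of the adjoint -/
theorem P02_cw {s : CRep J E} {y : CRep J Y} {y' : CRep J Y'} {c : Y' →ₗ[ℂ] E →ₗ[ℂ] Y}
    (C : CSub L) (hc : ∀ Z u x, y.op Z (c u x) = c (y'.op Z u) x + c u (s.op Z x)) {be wx : g}
    {u : Y} {x : E} (hu : WV y C.a be u) (hx : WV s C.a wx x) :
    WV y' C.a (be - wx) (LinearMap.adjoint (c.flip x) u) := by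
  intro H hH
  rw [P01_star s y y' hc H x u, C.a_p H hH, Rep.neg', LinearMap.neg_apply, hx H hH, hu H hH,
    map_smul, map_neg, map_smul, map_neg, map_smulₛₗ, LinearMap.neg_apply, LinearMap.smul_apply,
    Complex.conj_ofReal, ← sub_eq_add_neg, ← sub_smul, inner_sub_left, Complex.ofReal_sub]

theorem P02_bmap {N : ℕ} (e : OrthonormalBasis (Fin N) ℂ E) (a : V →ₗ[ℂ] E →ₗ[ℂ] V')
    (b' : V' →ₗ[ℂ] Y' →ₗ[ℂ] W) (c : Y' →ₗ[ℂ] E →ₗ[ℂ] Y) (v : V) (u : Y) :
    bmap e a b' c v u = ∑ j, b' (a v (e j)) (LinearMap.adjoint (c.flip (e j)) u) := by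
  rw [bmap, LinearMap.sum_apply, LinearMap.sum_apply]
  rfl

theorem P01_ne (C : CSub L) {N : ℕ} {e : OrthonormalBasis (Fin N) ℂ E} {w : Fin N → g}
    {K : Finset (Fin N)} {q : ℝ} {s : CRep J E} (h : Orth C s e w K q) {K' : Finset (Fin N)}
    (hK' : K' ⊆ K) {i₁ : Fin N} (hi₁ : i₁ ∈ K') (p : CRep J V) {p' : CRep J V'} (hp' : Irr p')
    {y : CRep J Y} (hy : Irr y) {y' : CRep J Y'} (hy' : Irr y') {t : CRep J W} (ht : Irr t)
    {a : V →ₗ[ℂ] E →ₗ[ℂ] V'} {b' : V' →ₗ[ℂ] Y' →ₗ[ℂ] W} {c : Y' →ₗ[ℂ] E →ₗ[ℂ] Y}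
    (ha : ∀ Z v x, p'.op Z (a v x) = a (p.op Z v) x + a v (s.op Z x))
    (hb : ∀ Z v u, t.op Z (b' v u) = b' (p'.op Z v) u + b' v (y'.op Z u))
    (hc : ∀ Z u x, y.op Z (c u x) = c (y'.op Z u) x + c u (s.op Z x))
    {H₁ H₂ H₃ H₄ H₅ mu : g} (hH₁ : Reg L C.a H₁) (hH₂ : Reg L C.a H₂) (hH₃ : Reg L C.a H₃)
    (hH₄ : Reg L C.a H₄) (hH₅ : Reg L C.a H₅) {w₁ : W} {v₁ : V} {v₁' : V'} {u₁ : Y} {u₁' : Y'}
    (hw₁ : HW t C.a H₁ mu w₁) (hv₁ : HW p C.a H₂ (mu - ∑ i ∈ K', w i) v₁)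
    (hv₁' : HW p' C.a H₃ (mu - ∑ i ∈ K'.erase i₁, w i) v₁')
    (hu₁ : HW y C.a H₄ (∑ i ∈ K', w i) u₁) (hu₁' : HW y' C.a H₅ (∑ i ∈ K'.erase i₁, w i) u₁')
    (hmin : ∀ j ∈ K', ⟪mu - ∑ i ∈ K', w i, w i₁⟫_ℝ ≤ ⟪mu - ∑ i ∈ K', w i, w j⟫_ℝ)
    (ha0 : a v₁ (e i₁) ≠ 0) (hb0 : b' v₁' u₁' ≠ 0) (hc0 : c u₁' (e i₁) ≠ 0) :
    bmap e a b' c v₁ u₁ ≠ 0 := by
  have hKi : i₁ ∈ K := hK' hi₁
  set ys : g := ∑ i ∈ K', w i with hys
  have hsum : ∑ i ∈ K'.erase i₁, w i = ys - w i₁ := Finset.sum_erase_eq_sub hi₁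
  have hlw : mu - ∑ i ∈ K'.erase i₁, w i = (mu - ys) + w i₁ := by
    rw [hsum]
    abel
  rw [hlw] at hv₁'
  rw [hsum] at hu₁'
  have hip : ∀ j ∈ K', ⟪ys, w j⟫_ℝ = q := by
    intro j hj
    rw [hys, sum_inner, Finset.sum_eq_single j, h.len j (hK' hj)]
    · intro i hi hij
      exact h.orth i (hK' hi) j (hK' hj) hij
    · intro hn
      exact absurd hj hn
  have hin : ∀ j, j ∉ K' → ⟪ys, w j⟫_ℝ ≤ 0 := by
    intro j hj
    rw [hys, sum_inner]
    refine Finset.sum_nonpos fun i hi => ?_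
    by_cases hjK : j ∈ K
    · exact (h.orth i (hK' hi) j hjK fun hij => hj (hij ▸ hi)).le
    · exact h.neg i (hK' hi) j hjK
  have haw : ∀ j, WV p' C.a ((mu - ys) + w j) (a v₁ (e j)) := fun j =>
    P02_aw C ha hv₁.wt (h.wv j)
  have hcw : ∀ j, WV y' C.a (ys - w j) (LinearMap.adjoint (c.flip (e j)) u₁) := fun j =>
    P02_cw C hc hu₁.wt (h.wv j)
  have hysa : ys ∈ C.a := hu₁.mem
  have hlama : mu - ys ∈ C.a := hv₁.mem
  -- the nonzero terms
  have hterm : ∀ j, b' (a v₁ (e j)) (LinearMap.adjoint (c.flip (e j)) u₁) ≠ 0 →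
      j ∈ K' ∧ ⟪mu - ys, w j⟫_ℝ = ⟪mu - ys, w i₁⟫_ℝ := by
    intro j hj
    have h1 : a v₁ (e j) ≠ 0 := by
      intro h0
      apply hj
      rw [h0, map_zero, LinearMap.zero_apply]
    have h2 : LinearMap.adjoint (c.flip (e j)) u₁ ≠ 0 := by
      intro h0
      apply hj
      rw [h0, map_zero]
    have hn1 := P01_norm p' C hp' hH₃ hv₁'
      (lam := (mu - ys) + w j) ⟨C.a.add_mem hlama (h.mem j), _, h1, haw j⟩
    have hn2 := P01_norm y' C hy' hH₅ hu₁'
      (lam := ys - w j) ⟨C.a.sub_mem hysa (h.mem j), _, h2, hcw j⟩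
    have hq := h.pos
    have hli := h.len i₁ hKi
    have hysi := hip i₁ hi₁
    have hjK : j ∈ K' := by
      by_contra hjn
      have h3 := hin j hjn
      have h4 : 0 ≤ ⟪w j, w j⟫_ℝ := real_inner_self_nonneg
      rw [real_inner_sub_sub_self, real_inner_sub_sub_self] at hn2
      linarith
    refine ⟨hjK, le_antisymm ?_ (hmin j hjK)⟩
    have hlj := h.len j (hK' hjK)
    rw [real_inner_add_add_self, real_inner_add_add_self] at hn1
    linarith
  -- the first term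
  obtain ⟨r, hr⟩ := hw_mult p' C hp' hH₃ hv₁' (haw i₁)
  obtain ⟨r', hr'⟩ := hw_mult y' C hy' hH₅ hu₁' (hcw i₁)
  have hr0 : r ≠ 0 := by
    intro h0
    apply ha0
    rw [hr, h0, zero_smul]
  have hr'0 : r' ≠ 0 := by
    intro h0
    have h1 : WV y C.a (ys - w i₁ + w i₁) (c u₁' (e i₁)) := P02_aw C hc hu₁'.wt (h.wv i₁)
    rw [sub_add_cancel] at h1
    obtain ⟨r'', hr''⟩ := hw_mult y C hy hH₄ hu₁ h1
    have h2 : ⟪LinearMap.adjoint (c.flip (e i₁)) u₁, u₁'⟫_ℂ = r'' * ⟪u₁, u₁⟫_ℂ := by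
      rw [LinearMap.adjoint_inner_left, LinearMap.flip_apply, hr'', inner_smul_right]
    rw [hr', h0, zero_smul, inner_zero_left] at h2
    rcases mul_eq_zero.1 h2.symm with h3 | h3
    · apply hc0
      rw [hr'', h3, zero_smul]
    · exact hu₁.ne (inner_self_eq_zero.1 h3)
  have hT1 : b' (a v₁ (e i₁)) (LinearMap.adjoint (c.flip (e i₁)) u₁) ≠ 0 := by
    rw [hr, hr', map_smul, map_smul, LinearMap.smul_apply, smul_ne_zero_iff, smul_ne_zero_iff]
    exact ⟨hr'0, hr0, hb0⟩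
  -- the other nonzero terms
  have hTj : ∀ j, j ≠ i₁ → j ∈ K' → ⟪mu - ys, w j⟫_ℝ = ⟪mu - ys, w i₁⟫_ℝ →
      b' (a v₁ (e j)) (LinearMap.adjoint (c.flip (e j)) u₁) =
        b' (a v₁ (e i₁)) (LinearMap.adjoint (c.flip (e i₁)) u₁) := by
    intro j hji hjK' hlam
    have hjK := hK' hjK'
    obtain ⟨Z, hZ, hZe, hthe⟩ := P01_root C s h hKi hjK (Ne.symm hji)
    have hroot := h.root i₁ hKi j hjK (Ne.symm hji)
    have hal : w i₁ - w j ∈ C.a := hroot.1
    have hal0 : w i₁ - w j ≠ 0 := hroot.2.1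
    have hnal : -(w i₁ - w j) ∈ C.a := C.a.neg_mem hal
    have hnal0 : -(w i₁ - w j) ≠ 0 := neg_ne_zero.2 hal0
    have hZ' := RV_th C hZ
    have hq := h.pos
    have hli := h.len i₁ hKi
    have hlj := h.len j hjK
    have hij := h.orth i₁ hKi j hjK (Ne.symm hji)
    have hji' := h.orth j hjK i₁ hKi hji
    have hysi := hip i₁ hi₁
    have hysj := hip j hjK'
    have k1 : p.op (L.th Z) v₁ = 0 := by
      refine ext_kill p C hH₂ hv₁ hnal hnal0 hZ' ?_
      rw [real_inner_comm, inner_neg_right, inner_sub_right, hlam, sub_self, neg_zero]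
    have k2 : a v₁ (e j) = -p'.op (L.th Z) (a v₁ (e i₁)) := by
      rw [ha, k1, map_zero, LinearMap.zero_apply, zero_add, hthe, map_neg, neg_neg]
    have k3 : y.op Z u₁ = 0 := by
      refine ext_kill y C hH₄ hu₁ hal hal0 hZ ?_
      rw [real_inner_comm, inner_sub_right, hysi, hysj, sub_self]
    have k4 : LinearMap.adjoint (c.flip (e j)) u₁ =
        -y'.op Z (LinearMap.adjoint (c.flip (e i₁)) u₁) := by
      rw [P01_star s y y' hc Z (e i₁) u₁, k3, map_zero, zero_add, hthe, map_neg, map_neg,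
        LinearMap.neg_apply, neg_neg]
    have k5 : y'.op (L.th Z) (LinearMap.adjoint (c.flip (e i₁)) u₁) = 0 := by
      rw [hr', map_smul, ext_kill y' C hH₅ hu₁' hnal hnal0 hZ' ?_, smul_zero]
      rw [inner_neg_left, inner_sub_left, inner_sub_right, inner_sub_right, real_inner_comm ys,
        real_inner_comm ys, hysi, hysj, hli, hji']
      linarith
    have k6 : s.op Z (e i₁) = 0 := by
      obtain ⟨H₀, hH₀, hw₀⟩ := h.ext i₁ hKi
      refine ext_kill s C hH₀ hw₀ hal hal0 hZ ?_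
      rw [inner_sub_left, hli, hji']
      linarith
    have k7 : ⟪Z, Z⟫_ℝ * q = 1 := by
      have h1 := s.bracket Z (L.th Z) (e i₁)
      rw [k6, map_zero, sub_zero, hthe, map_neg, hZe, br_th_root C hal hZ, Rep.neg',
        LinearMap.neg_apply, s.smul, LinearMap.smul_apply, h.wv i₁ _ hal, smul_smul,
        inner_sub_right, hli, hij, sub_zero, neg_inj, ← Complex.ofReal_mul] at h1
      have h2 : (((⟪Z, Z⟫_ℝ * q : ℝ) : ℂ) - 1) • e i₁ = 0 := by
        rw [sub_smul, h1, one_smul, sub_self]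
      rcases smul_eq_zero.1 h2 with h3 | h3
      · rw [sub_eq_zero] at h3
        exact_mod_cast h3
      · exact absurd h3 (e.orthonormal.ne_zero i₁)
    have k8 : y'.op (L.th Z) (y'.op Z (LinearMap.adjoint (c.flip (e i₁)) u₁)) =
        -LinearMap.adjoint (c.flip (e i₁)) u₁ := by
      have h1 := y'.bracket Z (L.th Z) (LinearMap.adjoint (c.flip (e i₁)) u₁)
      have h2 : ⟪ys - w i₁, w i₁ - w j⟫_ℝ = -q := by
        rw [inner_sub_left, inner_sub_right, inner_sub_right, hysi, hysj, hli, hij]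
        ring
      rw [k5, map_zero, zero_sub, br_th_root C hal hZ, Rep.neg', LinearMap.neg_apply, neg_inj,
        y'.smul, LinearMap.smul_apply, hcw i₁ _ hal, smul_smul, h2, ← Complex.ofReal_mul,
        mul_neg, k7] at h1
      rw [← h1]
      simp
    have k9 : b' (a v₁ (e i₁)) (y'.op Z (LinearMap.adjoint (c.flip (e i₁)) u₁)) = 0 := by
      by_contra hne
      have hmua : mu ∈ C.a := hw₁.mem
      have hwt := P02_aw C hb (haw i₁) (wt_shift y' C hZ (hcw i₁))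
      have he : (mu - ys) + w i₁ + ((w i₁ - w j) + (ys - w i₁)) = mu + (w i₁ - w j) := by abel
      rw [he] at hwt
      have hn := P01_norm t C ht hH₁ hw₁ (lam := mu + (w i₁ - w j))
        ⟨C.a.add_mem hmua hal, _, hne, hwt⟩
      rw [real_inner_add_add_self] at hn
      have h1 : ⟪mu, w i₁ - w j⟫_ℝ = 0 := by
        have h2 : ⟪mu - ys, w i₁ - w j⟫_ℝ = 0 := by
          rw [inner_sub_right, hlam, sub_self]
        have h3 : ⟪ys, w i₁ - w j⟫_ℝ = 0 := by
          rw [inner_sub_right, hysi, hysj, sub_self]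
        rw [inner_sub_left, h3, sub_zero] at h2
        exact h2
      have h4 : 0 < ⟪w i₁ - w j, w i₁ - w j⟫_ℝ := real_inner_self_pos.2 hal0
      linarith
    have k10 := hb (L.th Z) (a v₁ (e i₁)) (y'.op Z (LinearMap.adjoint (c.flip (e i₁)) u₁))
    rw [k9, map_zero, k8, map_neg] at k10
    rw [k2, k4, map_neg, map_neg, LinearMap.neg_apply, neg_neg]
    exact (eq_of_sub_eq_zero (by rw [sub_eq_add_neg]; exact k10.symm))
  rw [P02_bmap]
  have hall : ∀ j, ∃ m : ℕ, b' (a v₁ (e j)) (LinearMap.adjoint (c.flip (e j)) u₁) =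
      (m : ℂ) • b' (a v₁ (e i₁)) (LinearMap.adjoint (c.flip (e i₁)) u₁) := by
    intro j
    by_cases h0 : b' (a v₁ (e j)) (LinearMap.adjoint (c.flip (e j)) u₁) = 0
    · exact ⟨0, by rw [h0, Nat.cast_zero, zero_smul]⟩
    · by_cases hji : j = i₁
      · exact ⟨1, by rw [hji, Nat.cast_one, one_smul]⟩
      · exact ⟨1, by rw [Nat.cast_one, one_smul]; exact hTj j hji (hterm j h0).1 (hterm j h0).2⟩
  choose m hm using hall
  have hm1 : m i₁ ≠ 0 := by
    intro h0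
    apply hT1
    rw [hm i₁, h0, Nat.cast_zero, zero_smul]
  have hsm : ∑ j, b' (a v₁ (e j)) (LinearMap.adjoint (c.flip (e j)) u₁) =
      ((∑ j, m j : ℕ) : ℂ) • b' (a v₁ (e i₁)) (LinearMap.adjoint (c.flip (e i₁)) u₁) := by
    rw [Nat.cast_sum, Finset.sum_smul]
    exact Finset.sum_congr rfl fun j _ => hm j
  rw [hsm]
  have hpos : ∑ j, m j ≠ 0 := by
    have h1 := Finset.single_le_sum (f := m) (fun j _ => Nat.zero_le _) (Finset.mem_univ i₁)
    omega
  exact smul_ne_zero (Nat.cast_ne_zero.2 hpos) hT1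

end

end

end Pool.Agent.Lib.MP_4322ef_CH
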