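import Pool.Agent.Lib.MP_4322ef_CH.P02

/-!
# Iterated components

See the header of file P01.
-/

set_option autoImplicit false

open scoped InnerProductSpace

namespace Pool.Agent.Lib.MP_4322ef_CH

open Pool.Agent.Lib.MP_4322ef_al.SR

variable {g : Type} [NormedAddCommGroup g] [InnerProductSpace ℝ g] {L : RedLie g}
  [FiniteDimensional ℝ g]

section
variable {J : CStr L} {E : Type} [NormedAddCommGroup E] [InnerProductSpace ℂ E]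
  [FiniteDimensional ℂ E]
  {W : Type} [NormedAddCommGroup W] [InnerProductSpace ℂ W] [FiniteDimensional ℂ W]
  {Y : Type} [NormedAddCommGroup Y] [InnerProductSpace ℂ Y] [FiniteDimensional ℂ Y]

omit [FiniteDimensional ℝ g] [FiniteDimensional ℂ E] [FiniteDimensional ℂ W]
  [FiniteDimensional ℂ Y] in
theorem P03_Q (C : CSub L) {N : ℕ} {w : Fin N → g} (hw : ∀ i, w i ∈ C.a) {K : Finset (Fin N)}
    {Q : g → Prop} (hQ : ∀ x ∈ C.a, Q x → ∀ i ∈ K, Q (x - w i)) {K' : Finset (Fin N)}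
    (hK' : K' ⊆ K) {x : g} (hx : x ∈ C.a) (hQx : Q x) : Q (x - ∑ i ∈ K', w i) := by
  classical
  induction K' using Finset.induction_on with
  | empty =>
    rw [Finset.sum_empty, sub_zero]
    exact hQx
  | insert j K' hj ih =>
    rw [Finset.sum_insert hj, add_comm, ← sub_sub]
    have h1 : K' ⊆ K := fun i hi => hK' (Finset.mem_insert_of_mem hi)
    exact hQ _ (C.a.sub_mem hx (C.a.sum_mem fun i _ => hw i)) (ih h1) j
      (hK' (Finset.mem_insert_self _ _))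

/-- one component -/
theorem P03_step (C : CSub L) (t : CRep J W) (ht : Irr t) (y : CRep J Y) (hy : Irr y)
    {H₁ H₄ x z : g} (hH₁ : Reg L C.a H₁) (hH₄ : Reg L C.a H₄) {w₁ : W} {u₁ : Y}
    (hw₁ : HW t C.a H₁ x w₁) (hu₁ : HW y C.a H₄ z u₁)
    (hsep : ∀ al ∈ roots L C.a, 0 < ⟪al, x⟫_ℝ → 0 ≤ ⟪al, x - z⟫_ℝ) :
    ∃ (V : Type) (_ : NormedAddCommGroup V) (_ : InnerProductSpace ℂ V)
      (_ : FiniteDimensional ℂ V) (p : CRep J V) (b : V →ₗ[ℂ] Y →ₗ[ℂ] W), Irr p ∧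
      (∀ Z v u, t.op Z (b v u) = b (p.op Z v) u + b v (y.op Z u)) ∧
      ∃ H₂ v₁, Reg L C.a H₂ ∧ HW p C.a H₂ (x - z) v₁ ∧ b v₁ u₁ ≠ 0 := by
  obtain ⟨H₃, hH₃, hd⟩ := exists_comm C hw₁.mem (C.a.sub_mem hw₁.mem hu₁.mem) hsep
  have hw₁' := hw_change t C hH₁ hw₁ hH₃ fun al ha hpos => (hd al ha hpos).1
  obtain ⟨V, i1, i2, i3, p, b, hp, hb, v', hv', hb0⟩ := prv_exists C t ht y hy hH₃ hH₄ hw₁' hu₁
    fun al ha hpos => (hd al ha hpos).2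
  exact ⟨V, i1, i2, i3, p, b, hp, hb, H₃, v', hH₃, hv', hb0⟩

end

section
variable {J : CStr L} {E : Type} [NormedAddCommGroup E] [InnerProductSpace ℂ E]
  [FiniteDimensional ℂ E]

theorem P03_aux (C : CSub L) {N : ℕ} {e : OrthonormalBasis (Fin N) ℂ E} {w : Fin N → g}
    {K : Finset (Fin N)} {q : ℝ} {s : CRep J E} (h : Orth C s e w K q) (hs : Irr s)
    {Q : g → Prop} (hQ : ∀ x ∈ C.a, Q x → ∀ i ∈ K, Q (x - w i) ∧
      ∀ al ∈ roots L C.a, 0 < ⟪al, x⟫_ℝ → 0 ≤ ⟪al, x - w i⟫_ℝ) (n : ℕ) :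
    ∀ K' : Finset (Fin N), K' ⊆ K → K'.card = n + 1 →
    ∀ (W : Type) (_ : NormedAddCommGroup W) (_ : InnerProductSpace ℂ W)
      (_ : FiniteDimensional ℂ W) (Y : Type) (_ : NormedAddCommGroup Y)
      (_ : InnerProductSpace ℂ Y) (_ : FiniteDimensional ℂ Y)
      (t : CRep J W) (_ : Irr t)
      (y : CRep J Y) (_ : Irr y) (H₁ H₄ mu : g) (_ : Reg L C.a H₁) (_ : Reg L C.a H₄)
      (w₁ : W) (u₁ : Y) (_ : HW t C.a H₁ mu w₁) (_ : HW y C.a H₄ (∑ i ∈ K', w i) u₁)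
      (_ : Q mu) (_ : Q (∑ i ∈ K', w i)),
    ∃ (V : Type) (_ : NormedAddCommGroup V) (_ : InnerProductSpace ℂ V)
      (_ : FiniteDimensional ℂ V) (p : CRep J V) (b : V →ₗ[ℂ] Y →ₗ[ℂ] W), Irr p ∧
      (∀ Z v u, t.op Z (b v u) = b (p.op Z v) u + b v (y.op Z u)) ∧
      ∃ H₂ v₁, Reg L C.a H₂ ∧ HW p C.a H₂ (mu - ∑ i ∈ K', w i) v₁ ∧ b v₁ u₁ ≠ 0 := by
  classical
  induction n with
  | zero =>
    intro K' hK' hcard W _ _ _ Y _ _ _ t ht y hy H₁ H₄ mu hH₁ hH₄ w₁ u₁ hw₁ hu₁ hQmu hQy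
    obtain ⟨i, rfl⟩ := Finset.card_eq_one.1 hcard
    have hi : i ∈ K := hK' (Finset.mem_singleton_self i)
    rw [Finset.sum_singleton] at hu₁ ⊢
    exact P03_step C t ht y hy hH₁ hH₄ hw₁ hu₁ (hQ mu hw₁.mem hQmu i hi).2
  | succ n ih =>
    intro K' hK' hcard W _ _ _ Y _ _ _ t ht y hy H₁ H₄ mu hH₁ hH₄ w₁ u₁ hw₁ hu₁ hQmu hQy
    have hne : K'.Nonempty := by
      rw [← Finset.card_pos, hcard]
      exact Nat.succ_pos _
    obtain ⟨i₁, hi₁, hmin⟩ := K'.exists_min_image (fun j => ⟪mu - ∑ i ∈ K', w i, w j⟫_ℝ) hne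
    have hi₁K := hK' hi₁
    have her : K'.erase i₁ ⊆ K := (Finset.erase_subset _ _).trans hK'
    have hce : (K'.erase i₁).card = n + 1 := by
      rw [Finset.card_erase_of_mem hi₁, hcard]
      rfl
    have hse : ∑ i ∈ K', w i - w i₁ = ∑ i ∈ K'.erase i₁, w i := by
      rw [← Finset.sum_erase_add _ _ hi₁, add_sub_cancel_right]
    obtain ⟨H₀, hH₀, hE⟩ := h.ext i₁ hi₁K
    -- (1)
    have hq1 := hQ _ hu₁.mem hQy i₁ hi₁K
    obtain ⟨Y', k1, k2, k3, y', c, hy', hc, H₅, u₁', hH₅, hu₁', hc0⟩ :=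
      P03_step C y hy s hs hH₄ hH₀ hu₁ hE hq1.2
    have hq2 : Q (∑ i ∈ K'.erase i₁, w i) := hse ▸ hq1.1
    rw [hse] at hu₁'
    -- (2)
    obtain ⟨V', l1, l2, l3, p', b', hp', hb', H₃, v₁', hH₃, hv₁', hb0⟩ :=
      ih (K'.erase i₁) her hce W _ _ inferInstance Y' k1 k2 k3 t ht y' hy' H₁ H₅ mu hH₁ hH₅ w₁ u₁'
        hw₁ hu₁' hQmu hq2
    -- (3)
    have hq3 : Q (mu - ∑ i ∈ K'.erase i₁, w i) :=
      P03_Q C h.mem (fun x hx hQx i hi => (hQ x hx hQx i hi).1) her hw₁.mem hQmu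
    obtain ⟨V, m1, m2, m3, p, a, hp, ha, H₂, v₁, hH₂, hv₁, ha0⟩ :=
      P03_step C p' hp' s hs hH₃ hH₀ hv₁' hE (hQ _ hv₁'.mem hq3 i₁ hi₁K).2
    have hv₁m : mu - ∑ i ∈ K'.erase i₁, w i - w i₁ = mu - ∑ i ∈ K', w i := by
      rw [← hse]
      abel
    rw [hv₁m] at hv₁
    refine ⟨V, m1, m2, m3, p, bmap e a b' c, hp, P01_b e s p p' y y' t ha hb' hc, H₂, v₁, hH₂, hv₁,
      ?_⟩
    exact P01_ne C h hK' hi₁ p hp' hy hy' ht ha hb' hc hH₁ hH₂ hH₃ hH₄ hH₅ hw₁ hv₁ hv₁' hu₁ hu₁'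
      hmin ha0 hb0 hc0

end

section
variable {J : CStr L} {E : Type} [NormedAddCommGroup E] [InnerProductSpace ℂ E]
  [FiniteDimensional ℂ E]
  {W : Type} [NormedAddCommGroup W] [InnerProductSpace ℂ W] [FiniteDimensional ℂ W]
  {Y : Type} [NormedAddCommGroup Y] [InnerProductSpace ℂ Y] [FiniteDimensional ℂ Y]

theorem prv_iter (C : CSub L) {N : ℕ} {e : OrthonormalBasis (Fin N) ℂ E} {w : Fin N → g}
    {K : Finset (Fin N)} {q : ℝ} {s : CRep J E} (h : Orth C s e w K q) (hs : Irr s)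
    {Q : g → Prop} (hQ : ∀ x ∈ C.a, Q x → ∀ i ∈ K, Q (x - w i) ∧
      ∀ al ∈ roots L C.a, 0 < ⟪al, x⟫_ℝ → 0 ≤ ⟪al, x - w i⟫_ℝ)
    {K' : Finset (Fin N)} (hK' : K' ⊆ K) (hne : K'.Nonempty) (t : CRep J W) (ht : Irr t)
    (y : CRep J Y) (hy : Irr y) {H₁ H₄ mu : g} (hH₁ : Reg L C.a H₁) (hH₄ : Reg L C.a H₄)
    {w₁ : W} {u₁ : Y} (hw₁ : HW t C.a H₁ mu w₁) (hu₁ : HW y C.a H₄ (∑ i ∈ K', w i) u₁)
    (hQmu : Q mu) (hQy : Q (∑ i ∈ K', w i)) :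
    ∃ (V : Type) (_ : NormedAddCommGroup V) (_ : InnerProductSpace ℂ V)
      (_ : FiniteDimensional ℂ V) (p : CRep J V) (b : V →ₗ[ℂ] Y →ₗ[ℂ] W), Irr p ∧
      (∀ Z v u, t.op Z (b v u) = b (p.op Z v) u + b v (y.op Z u)) ∧
      ∃ H₂ v₁, Reg L C.a H₂ ∧ HW p C.a H₂ (mu - ∑ i ∈ K', w i) v₁ ∧ b v₁ u₁ ≠ 0 := by
  have hcard : K'.card = (K'.card - 1) + 1 := by
    have := hne.card_pos
    omega
  exact P03_aux C h hs hQ _ K' hK' hcard W _ _ inferInstance Y _ _ inferInstance t ht y hy H₁ H₄ mu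
    hH₁ hH₄ w₁ u₁ hw₁ hu₁ hQmu hQy

end

end Pool.Agent.Lib.MP_4322ef_CH
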