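import Pool.Agent.Lib.MP_4322ef_CH.P03
import Pool.Agent.Lib.MP_4322ef_CH.P04

/-!
# Classical groups: the irreducible representations with the weights `∑ ± ep i`, and `PRVData`
-/

set_option autoImplicit false

open scoped InnerProductSpace

namespace Pool.Agent.Lib.MP_4322ef_CH

open Pool.Agent.Lib.MP_4322ef_al.SR

variable {g : Type} [NormedAddCommGroup g] [InnerProductSpace ℝ g] {L : RedLie g}

section
variable {J : CStr L}

/-- the trivial representation -/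
noncomputable def trivRep (J : CStr L) : CRep J ℂ where
  op _ := 0
  add _ _ := (add_zero _).symm
  smul _ _ := (smul_zero _).symm
  bracket _ _ _ := by simp
  lin _ := (smul_zero _).symm
  adj _ _ _ := by simp

theorem bcd_q {a : Submodule ℝ g} {m n : ℕ} {ep : Fin n → g} (h : BCD L a m ep) :
    ∃ q : ℝ, 0 < q ∧ ∀ i, ⟪ep i, ep i⟫_ℝ = q := by
  rcases Nat.eq_zero_or_pos n with hn | hn
  · subst hn
    exact ⟨1, one_pos, fun i => i.elim0⟩
  · exact ⟨⟪ep ⟨0, hn⟩, ep ⟨0, hn⟩⟫_ℝ, real_inner_self_pos.2 (h.ne _), fun i => h.len _ _⟩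

/-- inner product of a signed sum with `ep j` -/
theorem bcd_sum {a : Submodule ℝ g} {m n : ℕ} {ep : Fin n → g} (h : BCD L a m ep)
    {q : ℝ} (hq : ∀ i, ⟪ep i, ep i⟫_ℝ = q) (σ : Fin n → ℝ) (I : Finset (Fin n)) (j : Fin n) :
    ⟪∑ i ∈ I, σ i • ep i, ep j⟫_ℝ = if j ∈ I then σ j * q else 0 := by
  rw [sum_inner]
  have h1 : ∀ i ∈ I, ⟪σ i • ep i, ep j⟫_ℝ = if i = j then σ j * q else 0 := by
    intro i _
    rw [real_inner_smul_left]
    split_ifs with hij
    · rw [hij, hq]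
    · rw [h.orth i j hij, mul_zero]
  rw [Finset.sum_congr rfl h1, Finset.sum_ite_eq']

/-- integral weights are not separated from `x - σ • ep j` by a root hyperplane -/
theorem bcd_sep {a : Submodule ℝ g} {m n : ℕ} {ep : Fin n → g} (h : BCD L a m ep)
    {q : ℝ} (hq0 : 0 < q) (hq : ∀ i, ⟪ep i, ep i⟫_ℝ = q) {x : g}
    (hint : ∀ al ∈ roots L a, ∃ k : ℤ, 2 * ⟪x, al⟫_ℝ = k * ⟪al, al⟫_ℝ)
    (hc : m = 1 → ∀ i, ∃ k : ℤ, ⟪x, ep i⟫_ℝ = k * q) {σ : ℝ} (hσ : |σ| = 1) (j : Fin n) :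
    ∀ al ∈ roots L a, 0 < ⟪al, x⟫_ℝ → 0 ≤ ⟪al, x - σ • ep j⟫_ℝ := by
  intro al ha hpos
  rw [inner_sub_right, sub_nonneg]
  have hσ' : σ = 1 ∨ σ = -1 := eq_or_eq_neg_of_abs_eq hσ
  have hij : ∀ i, ⟪ep i, σ • ep j⟫_ℝ = if i = j then σ * q else 0 := by
    intro i
    rw [real_inner_smul_right]
    split_ifs with hij
    · rw [hij, hq]
    · rw [h.orth i j hij, mul_zero]
  have hone : ∀ k : ℤ, 0 < (k : ℝ) → (1 : ℝ) ≤ k := by
    intro k hk
    have h1 : 0 < k := by exact_mod_cast hk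
    exact_mod_cast h1
  obtain ⟨k, hk⟩ := hint al ha
  rw [real_inner_comm] at hk
  rcases (h.root al).1 ha with ⟨i, i', τ, τ', hne, hτ, hτ', rfl⟩ | ⟨i, τ, hm, hτ, rfl⟩
  · have s2 : τ = 1 ∨ τ = -1 := eq_or_eq_neg_of_abs_eq hτ
    have s3 : τ' = 1 ∨ τ' = -1 := eq_or_eq_neg_of_abs_eq hτ'
    have t2 : τ * τ = 1 := by rw [← abs_mul_abs_self, hτ, mul_one]
    have t3 : τ' * τ' = 1 := by rw [← abs_mul_abs_self, hτ', mul_one]
    have hal : ⟪τ • ep i + τ' • ep i', τ • ep i + τ' • ep i'⟫_ℝ = 2 * q := by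
      simp only [inner_add_left, inner_add_right, real_inner_smul_left, real_inner_smul_right, hq,
        h.orth i i' hne, h.orth i' i hne.symm]
      linear_combination q * t2 + q * t3
    rw [hal] at hk
    have hk1 : (1 : ℝ) ≤ k := by
      refine hone k ?_
      by_contra hcon
      have h2 : (k : ℝ) * (2 * q) ≤ 0 :=
        mul_nonpos_of_nonpos_of_nonneg (not_lt.1 hcon) (by linarith)
      linarith
    have hle : q ≤ ⟪τ • ep i + τ' • ep i', x⟫_ℝ := by nlinarith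
    refine le_trans ?_ hle
    rw [inner_add_left, real_inner_smul_left, real_inner_smul_left, hij, hij]
    by_cases c1 : i = j
    · have c2 : i' ≠ j := fun h => hne (c1.trans h.symm)
      rw [if_pos c1, if_neg c2]
      rcases s2 with s2 | s2 <;> rcases hσ' with s1 | s1 <;> rw [s2, s1] <;> linarith
    · rw [if_neg c1]
      by_cases c2 : i' = j
      · rw [if_pos c2]
        rcases s3 with s3 | s3 <;> rcases hσ' with s1 | s1 <;> rw [s3, s1] <;> linarith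
      · rw [if_neg c2]
        linarith
  · rw [real_inner_smul_left, hij]
    have hal : ⟪τ • ep i, τ • ep i⟫_ℝ = m * m * q := by
      rw [real_inner_smul_left, real_inner_smul_right, hq, ← mul_assoc, ← abs_mul_abs_self, hτ]
    rw [hal] at hk
    have hm' : m = 1 ∨ m = 2 := by
      have := h.le
      omega
    rcases hm' with rfl | rfl
    · rw [Nat.cast_one] at hτ
      have s2 : τ = 1 ∨ τ = -1 := eq_or_eq_neg_of_abs_eq hτ
      obtain ⟨l, hl⟩ := hc rfl i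
      rw [real_inner_smul_left, real_inner_comm, hl] at hpos ⊢
      have hle : q ≤ τ * (l * q) := by
        rcases s2 with rfl | rfl
        · have h1 := hone l (by
            by_contra hcon
            have h2 : (l : ℝ) * q ≤ 0 := mul_nonpos_of_nonpos_of_nonneg (not_lt.1 hcon) hq0.le
            linarith)
          nlinarith
        · have h1 := hone (-l) (by
            push_cast
            by_contra hcon
            have h2 : -(l : ℝ) * q ≤ 0 := mul_nonpos_of_nonpos_of_nonneg (not_lt.1 hcon) hq0.le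
            linarith)
          push_cast at h1
          nlinarith
      refine le_trans ?_ hle
      split_ifs
      · rcases s2 with rfl | rfl <;> rcases hσ' with s1 | s1 <;> rw [s1] <;> linarith
      · linarith
    · have hle : 2 * q ≤ ⟪τ • ep i, x⟫_ℝ := by
        have h4 : 2 * ⟪τ • ep i, x⟫_ℝ = k * (4 * q) := by
          rw [hk]
          push_cast
          ring
        have h1 := hone k (by
          by_contra hcon
          have h2 : (k : ℝ) * (4 * q) ≤ 0 :=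
            mul_nonpos_of_nonpos_of_nonneg (not_lt.1 hcon) (by linarith)
          linarith)
        nlinarith
      have s2 : τ = 2 ∨ τ = -2 := by
        have h1 : |τ| = 2 := by rw [hτ]; norm_num
        exact eq_or_eq_neg_of_abs_eq h1
      refine le_trans ?_ hle
      split_ifs
      · rcases s2 with rfl | rfl <;> rcases hσ' with s1 | s1 <;> rw [s1] <;> linarith
      · linarith

variable {E : Type} [NormedAddCommGroup E] [InnerProductSpace ℂ E] [FiniteDimensional ℂ E]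
variable [FiniteDimensional ℝ g]

theorem bcd_rep (C : CSub L) {m n : ℕ} {ep : Fin n → g} (h : BCD L C.a m ep) {s : CRep J E}
    (hs : NatMod C.a s ep) {σ : Fin n → ℝ} (hσ : ∀ i, |σ i| = 1) (I : Finset (Fin n)) :
    ∃ (Y : Type) (_ : NormedAddCommGroup Y) (_ : InnerProductSpace ℂ Y)
      (_ : FiniteDimensional ℂ Y) (p : CRep J Y), Irr p ∧
        IsExt J C.a p.op ⊤ (∑ i ∈ I, σ i • ep i) := by
  classical
  obtain ⟨q, hq0, hq⟩ := bcd_q h
  have key : ∃ (Y : Type) (_ : NormedAddCommGroup Y) (_ : InnerProductSpace ℂ Y)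
      (_ : FiniteDimensional ℂ Y) (p : CRep J Y), Irr p ∧ ∃ H₁ v, Reg L C.a H₁ ∧
        HW p C.a H₁ (∑ i ∈ I, σ i • ep i) v := by
    induction I using Finset.induction_on with
    | empty =>
      refine ⟨ℂ, inferInstance, inferInstance, inferInstance, trivRep J,
        fun U _ => Ideal.eq_bot_or_top U, C.H₀, 1, ?_, ?_⟩
      · obtain ⟨P, hP, hPm, hPh, hPv, hP0⟩ := exists_P C
        exact ⟨C.mem, fun al ha => hP0 ⟨al, ha.1⟩ ((hPm _).2 ha)⟩
      · rw [Finset.sum_empty]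
        refine ⟨C.a.zero_mem, one_ne_zero, fun H hH => ?_, fun Z hZ => rfl⟩
        rw [inner_zero_left, Complex.ofReal_zero, zero_smul]
        rfl
    | insert j I hj ih =>
      obtain ⟨Y, i1, i2, i3, p, hp, H₁, v, hH₁, hv⟩ := ih
      obtain ⟨H₄, hH₄, h4⟩ := hs.ext j (-σ j) (by rw [abs_neg, hσ])
      obtain ⟨u, hu⟩ := high_hw' s C h4
      obtain ⟨V, j1, j2, j3, p', b, hp', -, H₂, v', hH₂, hv', -⟩ := P03_step C p hp s hs.irr hH₁
        hH₄ hv hu (bcd_sep h hq0 hq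
          (fun al ha => wt_int p C ⟨hv.mem, v, hv.ne, hv.wt⟩ ha) (fun _ i => by
            rw [bcd_sum h hq σ I i]
            split_ifs
            · rcases eq_or_eq_neg_of_abs_eq (hσ i) with h1 | h1
              · exact ⟨1, by rw [h1, Int.cast_one]⟩
              · exact ⟨-1, by rw [h1]; push_cast; ring⟩
            · exact ⟨0, by rw [Int.cast_zero, zero_mul]⟩) (by rw [abs_neg, hσ]) j)
      refine ⟨V, j1, j2, j3, p', hp', H₂, v', hH₂, ?_⟩
      rw [Finset.sum_insert hj, add_comm]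
      rw [neg_smul, sub_neg_eq_add] at hv'
      exact hv'
  obtain ⟨Y, i1, i2, i3, p, hp, H₁, v, hH₁, hv⟩ := key
  exact ⟨Y, i1, i2, i3, p, hp, hw_ext p C hH₁ hv⟩

theorem bcd_prv {X : Type} [NormedAddCommGroup X] [InnerProductSpace ℂ X] (C : CSub L) {m n : ℕ}
    {ep : Fin n → g} (h : BCD L C.a m ep) {s : CRep J E} (hs : NatMod C.a s ep) (r : HC L X)
    {V₀ : Submodule ℂ X} (hV₀ : IsKType L r.op V₀) {mu : g} (hmu : IsExt J C.a r.op V₀ mu)
    (hint : m = 1 → ∀ i, ∃ k : ℤ, ⟪mu, ep i⟫_ℝ = k * ⟪ep i, ep i⟫_ℝ)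
    {σ : Fin n → ℝ} (hσ : ∀ i, |σ i| = 1) {I : Finset (Fin n)} (hI : I.Nonempty)
    {Y : Type} [NormedAddCommGroup Y] [InnerProductSpace ℂ Y] [FiniteDimensional ℂ Y]
    (p : CRep J Y) (hp : Irr p) (hy : IsExt J C.a p.op ⊤ (∑ i ∈ I, σ i • ep i)) :
    PRVData J C.a r.op V₀ p mu (∑ i ∈ I, σ i • ep i) := by
  classical
  obtain ⟨H', hH', hmu⟩ := hmu
  obtain ⟨H₄, hH₄, hy⟩ := hy
  have hV₀fin := hV₀.fin
  obtain ⟨t₀, hirr₀, hk₀, hcas₀⟩ := ktype_pack r.toRep r.skew J hV₀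
  obtain ⟨v₀, hv₀⟩ := high_hw r.toRep J C hk₀ hmu
  obtain ⟨y₁, hy₁⟩ := high_hw' p C hy
  obtain ⟨q, hq0, hq⟩ := bcd_q h
  obtain ⟨N, e, w, k, hk, hwk, hO⟩ := bcd_orth C h hs hσ q hq hq0
  have hsum : ∑ c ∈ I.image k, w c = ∑ i ∈ I, σ i • ep i := by
    rw [Finset.sum_image fun i _ j _ hij => hk hij]
    exact Finset.sum_congr rfl fun i _ => hwk i
  have hwint : ∀ c, ∀ al ∈ roots L C.a, ∃ k : ℤ, 2 * ⟪w c, al⟫_ℝ = k * ⟪al, al⟫_ℝ := by
    intro c al ha
    refine wt_int s C ⟨hO.mem c, e c, ?_, hO.wv c⟩ ha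
    intro h0
    have h1 := e.norm_eq_one c
    rw [h0, norm_zero] at h1
    exact zero_ne_one h1
  have hcoord : ∀ l i, ∃ k : ℤ, ⟪σ l • ep l, ep i⟫_ℝ = k * q := by
    intro l i
    rw [real_inner_smul_left]
    by_cases hl : l = i
    · rcases eq_or_eq_neg_of_abs_eq (hσ l) with h1 | h1
      · exact ⟨1, by rw [h1, hl, hq, Int.cast_one]⟩
      · exact ⟨-1, by rw [h1, hl, hq]; push_cast; ring⟩
    · exact ⟨0, by rw [h.orth l i hl, Int.cast_zero]; ring⟩
  let Q : g → Prop := fun x => (∀ al ∈ roots L C.a, ∃ k : ℤ, 2 * ⟪x, al⟫_ℝ = k * ⟪al, al⟫_ℝ) ∧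
    (m = 1 → ∀ i, ∃ k : ℤ, ⟪x, ep i⟫_ℝ = k * q)
  have hQ : ∀ x ∈ C.a, Q x → ∀ c ∈ Finset.univ.image k, Q (x - w c) ∧
      ∀ al ∈ roots L C.a, 0 < ⟪al, x⟫_ℝ → 0 ≤ ⟪al, x - w c⟫_ℝ := by
    intro x hx hQx c hc
    obtain ⟨l, -, rfl⟩ := Finset.mem_image.1 hc
    refine ⟨⟨fun al ha => ?_, fun hm i => ?_⟩, ?_⟩
    · obtain ⟨k₁, h1⟩ := hQx.1 al ha
      obtain ⟨k₂, h2⟩ := hwint (k l) al ha
      refine ⟨k₁ - k₂, ?_⟩
      rw [inner_sub_left]
      push_cast
      linarith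
    · obtain ⟨k₁, h1⟩ := hQx.2 hm i
      obtain ⟨k₂, h2⟩ := hcoord l i
      refine ⟨k₁ - k₂, ?_⟩
      rw [inner_sub_left, hwk, h1, h2]
      push_cast
      ring
    · rw [hwk]
      exact bcd_sep h hq0 hq hQx.1 hQx.2 (hσ l) l
  have hQmu : Q mu := by
    refine ⟨fun al ha => wt_int t₀ C ⟨hv₀.mem, v₀, hv₀.ne, hv₀.wt⟩ ha, fun hm i => ?_⟩
    obtain ⟨k₁, h1⟩ := hint hm i
    exact ⟨k₁, by rw [h1, hq]⟩
  have hQy : Q (∑ c ∈ I.image k, w c) := by
    rw [hsum]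
    refine ⟨fun al ha => wt_int p C ⟨hy₁.mem, y₁, hy₁.ne, hy₁.wt⟩ ha, fun hm i => ?_⟩
    rw [bcd_sum h hq σ I i]
    split_ifs
    · rcases eq_or_eq_neg_of_abs_eq (hσ i) with h1 | h1
      · exact ⟨1, by rw [h1, Int.cast_one]⟩
      · exact ⟨-1, by rw [h1]; push_cast; ring⟩
    · exact ⟨0, by rw [Int.cast_zero, zero_mul]⟩
  obtain ⟨V, i1, i2, i3, p', b, hp', hb, H₂, v', hH₂, hv', hb0⟩ := prv_iter C hO hs.irr hQ
    (K' := I.image k) (Finset.image_subset_image (Finset.subset_univ _)) (hI.image k) t₀ hirr₀ p hp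
    hH' hH₄ hv₀ (hsum ▸ hy₁) hQmu hQy
  rw [hsum] at hv'
  refine ⟨V, i1, i2, i3, p', b.compr₂ V₀.subtype, hp', hw_ext p' C hH₂ hv', fun v u => (b v u).2,
    ?_, v', y₁, ?_, hv'.wt, hy₁.wt⟩
  · intro Z hZ v u
    show r.op Z ((b v u : V₀) : X) = ((b (p'.op Z v) u : V₀) : X) + ((b v (p.op Z u) : V₀) : X)
    rw [← hk₀ Z hZ, hb]
    rfl
  · intro h0
    exact hb0 (Subtype.ext h0)

end

end Pool.Agent.Lib.MP_4322ef_CH
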