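import Pool.Agent.Lib.MP_4322ef_CH.Defs3

/-!
# Generators of the Weyl chambers of type `B`, `C`, `D`

Let `H` be regular. The numbers `|⟪ep i, H⟫|` are distinct (`ep i ± ep j` are roots) and nonzero if `m ≠ 0`. Sort: there is a
permutation `π` with `|⟪ep (π 0), H⟫| > |⟪ep (π 1), H⟫| > …` (`Tuple.sort`). Choose signs `σ i` with `0 ≤ σ i ⟪ep i, H⟫`, `|σ i| = 1`.
`δ k = σ (π k) • ep (π k)`, `k < n`: pairwise orthogonal, of length² `q`, `⟪δ 0, H⟫ > ⟪δ 1, H⟫ > … > ⟪δ (n-1), H⟫ ≥ 0`. The positive roots are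
the `δ i ± δ j` with `i < j` and the `m δ i` (`m ≠ 0`). For `x ∈ a` dominant put `x k = ⟪δ k, x⟫ / q`: `x 0 ≥ x 1 ≥ …`, `x (n-1) ≥ 0` if `m ≠ 0`,
`x (n-2) + x (n-1) ≥ 0` if `m = 0` and `n ≥ 2`. The vector `x - ∑ x k • δ k` is orthogonal to the `δ k`, so to all roots. With
`om k = δ 0 + … + δ (k-1)` (`k = 1, …, n`) and `sp = ½ om n`, `sp' = ½ (om (n-1) - δ (n-1))`:
* `m = 2`: `∑ x k • δ k = ∑_{k < n} (x (k-1) - x k) • om k + x (n-1) • om n`;
* `m = 1`: the same with `x (n-1) • om n = (2 x (n-1)) • sp`;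
* `m = 0`, `n ≥ 2`: `∑_{k ≤ n-2} (x (k-1) - x k) • om k + (x (n-2) - x (n-1)) • sp' + (x (n-2) + x (n-1)) • sp`;
* `m = 0`, `n ≤ 1`, or `n = 0`: there are no roots, `S = ∅`.
`S` is the set of these weights; for the coefficient function `c : g → ℝ` use `Finset.sum_image`-type lemmas (the weights are
distinct) or `c y = ∑` of the coefficients of all `k` with `om k = y`. The set `I` for `om k` is the image of `{0, …, k-1}` under `π`. (In
the case `m = 0` the `om k` have `k ≤ n - 2`, in the case `m = 1` they have `k ≤ n - 1`, so `I ≠ univ`.) It may help to prove first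
the statement for an abstract family `δ : Fin n → g` that is already sorted, by the renumbering `ep' = ep ∘ π`, `σ' = σ ∘ π` (`BCD` is
invariant under permutations).
-/

set_option autoImplicit false

open scoped InnerProductSpace

namespace Pool.Agent.Lib.MP_4322ef_CH

open Pool.Agent.Lib.MP_4322ef_al.SR

variable {g : Type} [NormedAddCommGroup g] [InnerProductSpace ℝ g] {L : RedLie g}

theorem P07_fin [DecidableEq g] {ι : Type} (s : Finset ι) (w : ι → g) (coef : ι → ℝ)
    (hc : ∀ i ∈ s, 0 ≤ coef i) :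
    ∃ c : g → ℝ, (∀ y, 0 ≤ c y) ∧ ∑ y ∈ s.image w, c y • y = ∑ i ∈ s, coef i • w i := by
  refine ⟨fun y => ∑ i ∈ s.filter (fun i => w i = y), coef i,
    fun y => Finset.sum_nonneg fun i hi => hc i (Finset.mem_filter.1 hi).1, ?_⟩
  rw [← Finset.sum_fiberwise_of_maps_to (g := w) (fun i hi => Finset.mem_image_of_mem w hi)]
  refine Finset.sum_congr rfl fun y _ => ?_
  rw [Finset.sum_smul]
  refine Finset.sum_congr rfl fun i hi => ?_
  rw [(Finset.mem_filter.1 hi).2]

theorem P07_inner {n : ℕ} {δ : Fin n → g} (ho : ∀ i j, i ≠ j → ⟪δ i, δ j⟫_ℝ = 0)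
    (W : Fin n → ℝ) (l : Fin n) :
    ⟪δ l, ∑ i, W i • δ i⟫_ℝ = W l * ⟪δ l, δ l⟫_ℝ := by
  rw [inner_sum, Finset.sum_eq_single l]
  · rw [inner_smul_right]
  · intro j _ hj
    rw [inner_smul_right, ho l j (Ne.symm hj), mul_zero]
  · intro h
    exact absurd (Finset.mem_univ l) h

theorem P07_dom {a : Submodule ℝ g} {m n : ℕ} {δ : Fin n → g} (h : BCD L a m δ) {H : g}
    (hs : ∀ k l : Fin n, k < l → ⟪δ l, H⟫_ℝ < ⟪δ k, H⟫_ℝ) (hn : ∀ k, 0 ≤ ⟪δ k, H⟫_ℝ) {y : g}
    (hy : ∀ k l : Fin n, k < l → |⟪δ l, y⟫_ℝ| ≤ ⟪δ k, y⟫_ℝ)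
    (hy' : m ≠ 0 → ∀ k, 0 ≤ ⟪δ k, y⟫_ℝ) :
    ∀ al ∈ roots L a, 0 < ⟪al, H⟫_ℝ → 0 ≤ ⟪al, y⟫_ℝ := by
  intro al hal hp
  have key : ∀ k l : Fin n, k < l → ∀ s t : ℝ, |s| = 1 → |t| = 1 →
      0 < s * ⟪δ k, H⟫_ℝ + t * ⟪δ l, H⟫_ℝ → 0 ≤ s * ⟪δ k, y⟫_ℝ + t * ⟪δ l, y⟫_ℝ := by
    intro k l hkl s t hs1 ht1 hpos
    have h1 := hs k l hkl
    have h2 := hn l
    have h3 := abs_le.1 (hy k l hkl)
    rcases eq_or_eq_neg_of_abs_eq hs1 with rfl | rfl <;>
      rcases eq_or_eq_neg_of_abs_eq ht1 with rfl | rfl <;> linarith [h3.1, h3.2]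
  rcases (h.root al).1 hal with ⟨i, j, σ, τ, hij, hσ, hτ, rfl⟩ | ⟨i, σ, hm, hσ, rfl⟩
  · rw [inner_add_left, real_inner_smul_left, real_inner_smul_left] at hp ⊢
    rcases lt_or_gt_of_ne hij with hlt | hgt
    · exact key i j hlt σ τ hσ hτ hp
    · have := key j i hgt τ σ hτ hσ (by linarith)
      linarith
  · rw [real_inner_smul_left] at hp ⊢
    have h1 := hn i
    have h2 : 0 ≤ σ := by
      by_contra hc
      have := mul_nonneg (neg_nonneg.2 (not_le.1 hc).le) h1
      linarith
    exact mul_nonneg h2 (hy' hm i)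

theorem P07_strict {a : Submodule ℝ g} {m n : ℕ} {δ : Fin n → g} (h : BCD L a m δ) {H : g}
    (hH : Reg L a H) (hs : ∀ k l : Fin n, k ≤ l → ⟪δ l, H⟫_ℝ ≤ ⟪δ k, H⟫_ℝ) :
    ∀ k l : Fin n, k < l → ⟪δ l, H⟫_ℝ < ⟪δ k, H⟫_ℝ := by
  intro k l hkl
  refine lt_of_le_of_ne (hs k l hkl.le) fun he => ?_
  have hr : (1 : ℝ) • δ k + (-1 : ℝ) • δ l ∈ roots L a :=
    (h.root _).2 (Or.inl ⟨k, l, 1, -1, ne_of_lt hkl, by simp, by simp, rfl⟩)
  refine hH.2 _ hr ?_
  rw [inner_add_left, real_inner_smul_left, real_inner_smul_left, he]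
  ring

theorem P07_gen [DecidableEq g] {a : Submodule ℝ g} {m n : ℕ} {δ : Fin n → g}
    (h : BCD L a m δ) {H : g} (hH : Reg L a H)
    (hs : ∀ k l : Fin n, k ≤ l → ⟪δ l, H⟫_ℝ ≤ ⟪δ k, H⟫_ℝ) (hn : ∀ k, 0 ≤ ⟪δ k, H⟫_ℝ)
    (s : Finset ℕ) (W : ℕ → Fin n → ℝ)
    (hA : ∀ k ∈ s, (∀ i j : Fin n, i < j → |W k j| ≤ W k i) ∧ (m ≠ 0 → ∀ i, 0 ≤ W k i))
    (hB : ∀ X : Fin n → ℝ, (∀ i j : Fin n, i < j → |X j| ≤ X i) → (m ≠ 0 → ∀ i, 0 ≤ X i) →
      ∃ coef : ℕ → ℝ, (∀ k ∈ s, 0 ≤ coef k) ∧ ∀ i, ∑ k ∈ s, coef k * W k i = X i) :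
    Gen L a H (s.image fun k => ∑ i, W k i • δ i) := by
  have hst := P07_strict h hH hs
  have hq : ∀ l, 0 < ⟪δ l, δ l⟫_ℝ := fun l => real_inner_self_pos.2 (h.ne l)
  refine ⟨?_, ?_⟩
  · intro y hy
    obtain ⟨k, hk, rfl⟩ := Finset.mem_image.1 hy
    obtain ⟨h1, h2⟩ := hA k hk
    refine P07_dom h hst hn ?_ ?_
    · intro i j hij
      rw [P07_inner h.orth, P07_inner h.orth, abs_mul, abs_of_pos (hq j), h.len j i]
      exact mul_le_mul_of_nonneg_right (h1 i j hij) (hq i).le
    · intro hm i
      rw [P07_inner h.orth]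
      exact mul_nonneg (h2 hm i) (hq i).le
  · intro x _ hx
    obtain ⟨coef, hc, hsum⟩ := hB (fun k => ⟪δ k, x⟫_ℝ / ⟪δ k, δ k⟫_ℝ) (by
      intro i j hij
      have r1 : (1 : ℝ) • δ i + (-1 : ℝ) • δ j ∈ roots L a :=
        (h.root _).2 (Or.inl ⟨i, j, 1, -1, ne_of_lt hij, by simp, by simp, rfl⟩)
      have r2 : (1 : ℝ) • δ i + (1 : ℝ) • δ j ∈ roots L a :=
        (h.root _).2 (Or.inl ⟨i, j, 1, 1, ne_of_lt hij, by simp, by simp, rfl⟩)
      have e1 := hx _ r1 (by
        rw [inner_add_left, real_inner_smul_left, real_inner_smul_left]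
        have := hst i j hij
        linarith)
      have e2 := hx _ r2 (by
        rw [inner_add_left, real_inner_smul_left, real_inner_smul_left]
        have := hst i j hij
        have := hn j
        linarith)
      rw [inner_add_left, real_inner_smul_left, real_inner_smul_left] at e1 e2
      show |⟪δ j, x⟫_ℝ / ⟪δ j, δ j⟫_ℝ| ≤ ⟪δ i, x⟫_ℝ / ⟪δ i, δ i⟫_ℝ
      rw [abs_div, abs_of_pos (hq j), h.len j i]
      refine div_le_div_of_nonneg_right ?_ (hq i).le
      exact abs_le.2 ⟨by linarith, by linarith⟩) (by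
      intro hm i
      have hm' : (0 : ℝ) < m := by exact_mod_cast Nat.pos_of_ne_zero hm
      have r : (m : ℝ) • δ i ∈ roots L a :=
        (h.root _).2 (Or.inr ⟨i, m, hm, abs_of_pos hm', rfl⟩)
      have hne := hH.2 _ r
      rw [real_inner_smul_left] at hne
      have hp : 0 < ⟪δ i, H⟫_ℝ := lt_of_le_of_ne (hn i) fun he => hne (by rw [← he, mul_zero])
      have e := hx _ r (by rw [real_inner_smul_left]; exact mul_pos hm' hp)
      rw [real_inner_smul_left] at e
      exact div_nonneg (nonneg_of_mul_nonneg_right e hm') (hq i).le)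
    obtain ⟨c, hc0, hcs⟩ := P07_fin s (fun k => ∑ i, W k i • δ i) coef hc
    refine ⟨c, fun y _ => hc0 y, ?_⟩
    rw [hcs]
    have hv : ∑ k ∈ s, coef k • ∑ i, W k i • δ i
        = ∑ i, (⟪δ i, x⟫_ℝ / ⟪δ i, δ i⟫_ℝ) • δ i := by
      simp only [Finset.smul_sum, smul_smul]
      rw [Finset.sum_comm]
      refine Finset.sum_congr rfl fun i _ => ?_
      rw [← Finset.sum_smul, hsum i]
    rw [hv]
    have h0 : ∀ l, ⟪δ l, x - ∑ i, (⟪δ i, x⟫_ℝ / ⟪δ i, δ i⟫_ℝ) • δ i⟫_ℝ = 0 := by
      intro l
      rw [inner_sub_right, P07_inner h.orth, div_mul_cancel₀ _ (hq l).ne', sub_self]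
    intro al hal
    rcases (h.root al).1 hal with ⟨i, j, σ, τ, _, _, _, rfl⟩ | ⟨i, σ, _, _, rfl⟩
    · rw [inner_add_left, real_inner_smul_left, real_inner_smul_left, h0, h0]
      ring
    · rw [real_inner_smul_left, h0, mul_zero]

theorem P07_tel (Y : ℕ → ℝ) (i N : ℕ) :
    ∑ k ∈ Finset.range N, (Y k - Y (k + 1)) * (if i < k + 1 then (1 : ℝ) else 0)
      = if i < N then Y i - Y N else 0 := by
  induction N with
  | zero => simp
  | succ N ih =>
    rw [Finset.sum_range_succ, ih]
    rcases lt_trichotomy i N with hlt | rfl | hgt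
    · rw [if_pos hlt, if_pos (by omega), if_pos (by omega)]
      ring
    · rw [if_neg (lt_irrefl _), if_pos (by omega : i < i + 1), if_pos (by omega : i < i + 1)]
      ring
    · rw [if_neg (by omega : ¬ i < N), if_neg (by omega : ¬ i < N + 1),
        if_neg (by omega : ¬ i < N + 1)]
      ring

theorem P07_filter {n : ℕ} (δ : Fin n → g) (k : ℕ) :
    ∑ i : Fin n, (if i.val < k then (1 : ℝ) else 0) • δ i
      = ∑ i ∈ Finset.univ.filter (fun i : Fin n => i.val < k), δ i := by
  rw [Finset.sum_filter]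
  refine Finset.sum_congr rfl fun i _ => ?_
  split_ifs <;> simp

theorem P07_core {a : Submodule ℝ g} {m n : ℕ} {δ : Fin n → g}
    (h : BCD L a m δ) {H : g} (hH : Reg L a H)
    (hs : ∀ k l : Fin n, k ≤ l → ⟪δ l, H⟫_ℝ ≤ ⟪δ k, H⟫_ℝ) (hn : ∀ k, 0 ≤ ⟪δ k, H⟫_ℝ) :
    ∃ S : Finset g, Gen L a H S ∧ ∀ y ∈ S,
      (∃ I : Finset (Fin n), I.Nonempty ∧ (m = 2 ∨ ∃ c, c ∉ I) ∧ y = ∑ i ∈ I, δ i) ∨
      (m ≠ 2 ∧ ∃ σ : Fin n → ℝ, (∀ i, |σ i| = 1) ∧ y = (1 / 2 : ℝ) • ∑ i, σ i • δ i) := by
  classical
  have hext : ∀ X : Fin n → ℝ, ∃ Y : ℕ → ℝ, (∀ i : Fin n, Y i.val = X i) ∧ ∀ k, n ≤ k → Y k = 0 :=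
    fun X => ⟨fun k => if hk : k < n then X ⟨k, hk⟩ else 0, fun i => by simp [i.2],
      fun k hk => by simp [not_lt.2 hk]⟩
  have hone : ∀ (k : ℕ) (i j : Fin n), i < j →
      |(if j.val < k then (1 : ℝ) else 0)| ≤ (if i.val < k then (1 : ℝ) else 0) := by
    intro k i j hij
    have hij' : i.val < j.val := hij
    split_ifs with h1 h2 h2
    · simp
    · omega
    · simp
    · simp
  have hone' : ∀ (k : ℕ) (i : Fin n), 0 ≤ (if i.val < k then (1 : ℝ) else 0) := by
    intro k i
    split_ifs <;> norm_num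
  obtain rfl | rfl | rfl : m = 2 ∨ m = 1 ∨ m = 0 := by
    have := h.le
    omega
  · -- type C
    refine ⟨(Finset.range n).image fun k => ∑ i, (if i.val < k + 1 then (1 : ℝ) else 0) • δ i,
      P07_gen h hH hs hn _ (fun k i => if i.val < k + 1 then (1 : ℝ) else 0) ?_ ?_, ?_⟩
    · intro k _
      exact ⟨hone (k + 1), fun _ => hone' (k + 1)⟩
    · intro X h1 h2
      obtain ⟨Y, hY, hY0⟩ := hext X
      refine ⟨fun k => Y k - Y (k + 1), ?_, ?_⟩
      · intro k hk
        have hk' := Finset.mem_range.1 hk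
        simp only []
        rcases Nat.lt_or_ge (k + 1) n with h3 | h3
        · have e1 := hY ⟨k, hk'⟩
          have e2 := hY ⟨k + 1, h3⟩
          have e3 := h1 ⟨k, hk'⟩ ⟨k + 1, h3⟩ (by simp [Fin.lt_def])
          have e4 := le_abs_self (X ⟨k + 1, h3⟩)
          simp only [] at e1 e2
          rw [e1, e2]
          linarith
        · have e1 := hY ⟨k, hk'⟩
          simp only [] at e1
          rw [e1, hY0 _ h3]
          have := h2 (by norm_num) ⟨k, hk'⟩
          linarith
      · intro i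
        rw [P07_tel Y i.val n, if_pos i.2, hY0 n le_rfl, hY]
        ring
    · intro y hy
      obtain ⟨k, hk, rfl⟩ := Finset.mem_image.1 hy
      refine Or.inl ⟨Finset.univ.filter (fun i : Fin n => i.val < k + 1),
        ⟨⟨k, Finset.mem_range.1 hk⟩, by simp⟩, Or.inl rfl, P07_filter δ (k + 1)⟩
  · -- type B
    rcases n with _ | N
    · refine ⟨∅, ⟨by simp, fun x _ _ => ⟨fun _ => 0, by simp, ?_⟩⟩, by simp⟩
      intro al hal
      rcases (h.root al).1 hal with ⟨i, _⟩ | ⟨i, _⟩
      · exact i.elim0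
      · exact i.elim0
    · refine ⟨(Finset.range (N + 1)).image fun k => ∑ i, (if k < N then
          (if i.val < k + 1 then (1 : ℝ) else 0) else (1 / 2 : ℝ)) • δ i,
        P07_gen h hH hs hn _ (fun k i => if k < N then
          (if i.val < k + 1 then (1 : ℝ) else 0) else (1 / 2 : ℝ)) ?_ ?_, ?_⟩
      · intro k _
        constructor
        · intro i j hij
          by_cases hk : k < N
          · simp only [hk, if_true]
            exact hone (k + 1) i j hij
          · simp only [hk, if_false]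
            norm_num
        · intro _ i
          by_cases hk : k < N
          · simp only [hk, if_true]
            exact hone' (k + 1) i
          · simp only [hk, if_false]
            norm_num
      · intro X h1 h2
        obtain ⟨Y, hY, hY0⟩ := hext X
        refine ⟨fun k => if k < N then Y k - Y (k + 1) else 2 * Y k, ?_, ?_⟩
        · intro k hk
          have hk' := Finset.mem_range.1 hk
          by_cases h3 : k < N
          · simp only [h3, if_true]
            have e1 := hY ⟨k, hk'⟩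
            have e2 := hY ⟨k + 1, by omega⟩
            have e3 := h1 ⟨k, hk'⟩ ⟨k + 1, by omega⟩ (by simp [Fin.lt_def])
            have e4 := le_abs_self (X ⟨k + 1, by omega⟩)
            simp only [] at e1 e2
            rw [e1, e2]
            linarith
          · simp only [h3, if_false]
            have e1 := hY ⟨k, hk'⟩
            simp only [] at e1
            rw [e1]
            have := h2 (by norm_num) ⟨k, hk'⟩
            linarith
        · intro i
          rw [Finset.sum_range_succ]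
          have hsum : ∑ k ∈ Finset.range N, (if k < N then Y k - Y (k + 1) else 2 * Y k) *
              (if k < N then (if i.val < k + 1 then (1 : ℝ) else 0) else (1 / 2 : ℝ))
              = ∑ k ∈ Finset.range N, (Y k - Y (k + 1)) * (if i.val < k + 1 then (1 : ℝ) else 0) := by
            refine Finset.sum_congr rfl fun k hk => ?_
            have hk' := Finset.mem_range.1 hk
            simp only [hk', if_true]
          rw [hsum, P07_tel Y i.val N]
          simp only [lt_irrefl, if_false]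
          rcases Nat.lt_or_ge i.val N with h3 | h3
          · rw [if_pos h3, hY]
            ring
          · rw [if_neg (not_lt.2 h3)]
            have h4 : i.val = N := by
              have := i.2
              omega
            rw [← hY i, h4]
            ring
      · intro y hy
        obtain ⟨k, hk, rfl⟩ := Finset.mem_image.1 hy
        have hk' := Finset.mem_range.1 hk
        by_cases h3 : k < N
        · refine Or.inl ⟨Finset.univ.filter (fun i : Fin (N + 1) => i.val < k + 1),
            ⟨⟨k, hk'⟩, by simp⟩, Or.inr ⟨⟨k + 1, by omega⟩, by simp⟩, ?_⟩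
          simp only [h3, if_true]
          exact P07_filter δ (k + 1)
        · refine Or.inr ⟨by norm_num, fun _ => 1, fun _ => abs_one, ?_⟩
          simp only [h3, if_false, one_smul, Finset.smul_sum]
  · -- type D
    rcases n with _ | _ | N
    · refine ⟨∅, ⟨by simp, fun x _ _ => ⟨fun _ => 0, by simp, ?_⟩⟩, by simp⟩
      intro al hal
      rcases (h.root al).1 hal with ⟨i, _⟩ | ⟨i, _⟩
      · exact i.elim0
      · exact i.elim0
    · refine ⟨∅, ⟨by simp, fun x _ _ => ⟨fun _ => 0, by simp, ?_⟩⟩, by simp⟩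
      intro al hal
      rcases (h.root al).1 hal with ⟨i, j, _, _, hij, _⟩ | ⟨i, _, hm, _⟩
      · exact absurd (Fin.ext (by have := i.2; have := j.2; omega)) hij
      · exact absurd rfl hm
    · refine ⟨(Finset.range (N + 2)).image fun k => ∑ i, (if k < N then
          (if i.val < k + 1 then (1 : ℝ) else 0) else if k = N then
          (if i.val < N + 1 then (1 / 2 : ℝ) else -(1 / 2)) else (1 / 2 : ℝ)) • δ i,
        P07_gen h hH hs hn _ (fun k i => if k < N then
          (if i.val < k + 1 then (1 : ℝ) else 0) else if k = N then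
          (if i.val < N + 1 then (1 / 2 : ℝ) else -(1 / 2)) else (1 / 2 : ℝ)) ?_ ?_, ?_⟩
      · intro k _
        refine ⟨?_, fun hm => absurd rfl hm⟩
        intro i j hij
        have hij' : i.val < j.val := hij
        by_cases hk : k < N
        · simp only [hk, if_true]
          exact hone (k + 1) i j hij
        · simp only [hk, if_false]
          by_cases hk2 : k = N
          · simp only [hk2, if_true]
            have hi : i.val < N + 1 := by
              have := j.2
              omega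
            rw [if_pos hi]
            split_ifs <;> simp
          · simp only [hk2, if_false]
            norm_num
      · intro X h1 _
        obtain ⟨Y, hY, hY0⟩ := hext X
        have e1 := hY ⟨N, by omega⟩
        have e2 := hY ⟨N + 1, by omega⟩
        have e3 := abs_le.1 (h1 ⟨N, by omega⟩ ⟨N + 1, by omega⟩ (by simp [Fin.lt_def]))
        simp only [] at e1 e2
        refine ⟨fun k => if k < N then Y k - Y (k + 1) else if k = N then Y N - Y (N + 1)
          else Y N + Y (N + 1), ?_, ?_⟩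
        · intro k hk
          have hk' := Finset.mem_range.1 hk
          by_cases h3 : k < N
          · simp only [h3, if_true]
            have f1 := hY ⟨k, hk'⟩
            have f2 := hY ⟨k + 1, by omega⟩
            have f3 := h1 ⟨k, hk'⟩ ⟨k + 1, by omega⟩ (by simp [Fin.lt_def])
            have f4 := le_abs_self (X ⟨k + 1, by omega⟩)
            simp only [] at f1 f2
            rw [f1, f2]
            linarith
          · simp only [h3, if_false]
            by_cases h4 : k = N
            · simp only [h4, if_true]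
              rw [e1, e2]
              linarith [e3.2]
            · simp only [h4, if_false]
              rw [e1, e2]
              linarith [e3.1]
        · intro i
          rw [Finset.sum_range_succ, Finset.sum_range_succ]
          have hsum : ∑ k ∈ Finset.range N, (if k < N then Y k - Y (k + 1) else if k = N then
              Y N - Y (N + 1) else Y N + Y (N + 1)) * (if k < N then
              (if i.val < k + 1 then (1 : ℝ) else 0) else if k = N then
              (if i.val < N + 1 then (1 / 2 : ℝ) else -(1 / 2)) else (1 / 2 : ℝ))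
              = ∑ k ∈ Finset.range N, (Y k - Y (k + 1)) * (if i.val < k + 1 then (1 : ℝ) else 0) := by
            refine Finset.sum_congr rfl fun k hk => ?_
            have hk' := Finset.mem_range.1 hk
            simp only [hk', if_true]
          rw [hsum, P07_tel Y i.val N]
          have g1 : ¬ (N + 1 < N) := by omega
          have g2 : ¬ (N + 1 = N) := by omega
          simp only [lt_irrefl, if_false, if_true, g1, g2]
          have hi2 := i.2
          rcases Nat.lt_or_ge i.val N with h3 | h3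
          · rw [if_pos h3, if_pos (by omega), hY]
            ring
          · rw [if_neg (not_lt.2 h3)]
            rcases Nat.lt_or_ge i.val (N + 1) with h4 | h4
            · have h5 : i.val = N := by omega
              rw [if_pos h4, ← hY i, h5]
              ring
            · have h5 : i.val = N + 1 := by omega
              rw [if_neg (not_lt.2 h4), ← hY i, h5]
              ring
      · intro y hy
        obtain ⟨k, hk, rfl⟩ := Finset.mem_image.1 hy
        have hk' := Finset.mem_range.1 hk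
        by_cases h3 : k < N
        · refine Or.inl ⟨Finset.univ.filter (fun i : Fin (N + 2) => i.val < k + 1),
            ⟨⟨k, hk'⟩, by simp⟩, Or.inr ⟨⟨k + 1, by omega⟩, by simp⟩, ?_⟩
          simp only [h3, if_true]
          exact P07_filter δ (k + 1)
        · by_cases h4 : k = N
          · refine Or.inr ⟨by norm_num, fun i => if i.val < N + 1 then 1 else -1,
              fun i => by dsimp only; split_ifs <;> simp, ?_⟩
            subst h4
            simp only [lt_irrefl, if_false, if_true, Finset.smul_sum, smul_smul]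
            refine Finset.sum_congr rfl fun i _ => ?_
            congr 1
            by_cases h5 : i.val < k + 1
            · rw [if_pos h5, if_pos h5]
              norm_num
            · rw [if_neg h5, if_neg h5]
              norm_num
          · refine Or.inr ⟨by norm_num, fun _ => 1, fun _ => abs_one, ?_⟩
            simp only [h3, if_false, h4, one_smul, Finset.smul_sum]

theorem P07_perm {a : Submodule ℝ g} {m n : ℕ} {ep : Fin n → g} (h : BCD L a m ep)
    (π : Equiv.Perm (Fin n)) (σ : Fin n → ℝ) (hσ : ∀ i, |σ i| = 1) :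
    BCD L a m (fun k => σ (π k) • ep (π k)) := by
  have hσ2 : ∀ i, σ i * σ i = 1 := fun i => by
    rw [← abs_mul_abs_self, hσ, one_mul]
  have hback : ∀ i, ep i = σ i • (σ (π (π.symm i)) • ep (π (π.symm i))) := by
    intro i
    rw [Equiv.apply_symm_apply, smul_smul, hσ2, one_smul]
  refine ⟨h.le, fun k => a.smul_mem _ (h.mem _), ?_, ?_, ?_, ?_⟩
  · intro k hk
    rcases smul_eq_zero.1 hk with h0 | h0
    · have := hσ (π k)
      rw [h0, abs_zero] at this
      exact zero_ne_one this
    · exact h.ne _ h0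
  · intro i j
    rw [real_inner_smul_left, real_inner_smul_right, ← mul_assoc, hσ2, real_inner_smul_left,
      real_inner_smul_right, ← mul_assoc, hσ2, h.len (π i) (π j)]
  · intro i j hij
    rw [real_inner_smul_left, real_inner_smul_right, h.orth _ _ (fun he => hij (π.injective he))]
    ring
  · intro al
    rw [h.root al]
    constructor
    · rintro (⟨i, j, s, t, hij, hs, ht, rfl⟩ | ⟨i, s, hm, hs, rfl⟩)
      · refine Or.inl ⟨π.symm i, π.symm j, s * σ i, t * σ j, fun he => hij (π.symm.injective he),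
          by rw [abs_mul, hs, hσ, one_mul], by rw [abs_mul, ht, hσ, one_mul], ?_⟩
        rw [← smul_smul, ← smul_smul, ← hback i, ← hback j]
      · refine Or.inr ⟨π.symm i, s * σ i, hm, by rw [abs_mul, hs, hσ, mul_one], ?_⟩
        rw [← smul_smul, ← hback i]
    · rintro (⟨i, j, s, t, hij, hs, ht, rfl⟩ | ⟨i, s, hm, hs, rfl⟩)
      · refine Or.inl ⟨π i, π j, s * σ (π i), t * σ (π j), fun he => hij (π.injective he),
          by rw [abs_mul, hs, hσ, one_mul], by rw [abs_mul, ht, hσ, one_mul], ?_⟩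
        rw [smul_smul, smul_smul]
      · refine Or.inr ⟨π i, s * σ (π i), hm, by rw [abs_mul, hs, hσ, mul_one], ?_⟩
        rw [smul_smul]

theorem bcd_gen {a : Submodule ℝ g} {m n : ℕ} {ep : Fin n → g} (h : BCD L a m ep) {H : g}
    (hH : Reg L a H) :
    ∃ S : Finset g, Gen L a H S ∧ ∀ y ∈ S,
      (∃ (σ : Fin n → ℝ) (I : Finset (Fin n)), (∀ i, |σ i| = 1) ∧ I.Nonempty ∧
        (m = 2 ∨ ∃ c, c ∉ I) ∧ y = ∑ i ∈ I, σ i • ep i) ∨
      (m ≠ 2 ∧ ∃ σ : Fin n → ℝ, (∀ i, |σ i| = 1) ∧ y = (1 / 2 : ℝ) • ∑ i, σ i • ep i) := by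
  classical
  set t : Fin n → ℝ := fun i => ⟪ep i, H⟫_ℝ with ht
  set σ : Fin n → ℝ := fun i => if 0 ≤ t i then 1 else -1 with hσd
  have hσ : ∀ i, |σ i| = 1 := fun i => by
    simp only [hσd]
    split_ifs <;> simp
  have hσt : ∀ i, σ i * t i = |t i| := fun i => by
    simp only [hσd]
    split_ifs with h0
    · rw [one_mul, abs_of_nonneg h0]
    · rw [abs_of_neg (not_le.1 h0)]
      ring
  set π : Equiv.Perm (Fin n) := Tuple.sort (fun i => -|t i|) with hπ
  have hmono : Monotone ((fun i => -|t i|) ∘ π) := Tuple.monotone_sort _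
  have hδ : ∀ k, ⟪σ (π k) • ep (π k), H⟫_ℝ = |t (π k)| := fun k => by
    rw [real_inner_smul_left]
    exact hσt (π k)
  obtain ⟨S, hS, hd⟩ := P07_core (P07_perm h π σ hσ) hH
    (fun k l hkl => by
      rw [hδ, hδ]
      have := hmono hkl
      simp only [Function.comp] at this
      linarith)
    (fun k => by
      rw [hδ]
      exact abs_nonneg _)
  refine ⟨S, hS, fun y hy => ?_⟩
  rcases hd y hy with ⟨I, hI, hm, rfl⟩ | ⟨hm, τ, hτ, rfl⟩
  · refine Or.inl ⟨σ, I.image π, hσ, hI.image π, ?_, ?_⟩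
    · rcases hm with hm | ⟨c, hc⟩
      · exact Or.inl hm
      · refine Or.inr ⟨π c, fun hmem => ?_⟩
        obtain ⟨d, hd', he⟩ := Finset.mem_image.1 hmem
        exact hc (π.injective he ▸ hd')
    · rw [Finset.sum_image fun x _ y _ he => π.injective he]
  · refine Or.inr ⟨hm, fun i => τ (π.symm i) * σ i, fun i => by rw [abs_mul, hτ, hσ, one_mul], ?_⟩
    congr 1
    rw [← Equiv.sum_comp π fun i => (τ (π.symm i) * σ i) • ep i]
    refine Finset.sum_congr rfl fun k _ => ?_
    rw [Equiv.symm_apply_apply, smul_smul]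

end Pool.Agent.Lib.MP_4322ef_CH
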