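import Pool.Agent.Lib.MP_4322ef_CH.P05
import Pool.Agent.Lib.MP_4322ef_CH.P06

/-!
# Type `B`, half-integral weights: `PRVData` from the spin modules
-/

set_option autoImplicit false

open scoped InnerProductSpace

namespace Pool.Agent.Lib.MP_4322ef_CH

open Pool.Agent.Lib.MP_4322ef_al.SR

variable {g : Type} [NormedAddCommGroup g] [InnerProductSpace ℝ g] {L : RedLie g}
variable [FiniteDimensional ℝ g]

section
variable {J : CStr L} {W : Type} [NormedAddCommGroup W] [InnerProductSpace ℂ W]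
  [FiniteDimensional ℂ W]

omit [FiniteDimensional ℂ W] in
/-- the weights lie in one coset of the root lattice -/
theorem wt_coset (s : CRep J W) (C : CSub L) (hs : Irr s) {H₁ be : g} {v : W}
    (hv : HW s C.a H₁ be v) {Q : g → Prop} (hQ : ∀ x, Q x → ∀ al ∈ roots L C.a, Q (al + x))
    (h0 : Q be) {lam : g} (hlam : IsW s C.a lam) : Q lam := by
  let U : Submodule ℂ W := Submodule.span ℂ {u | ∃ x ∈ C.a, Q x ∧ WV s C.a x u}
  have hst : ∀ Z, ∀ u ∈ U, s.op Z u ∈ U := by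
    intro Z u hu
    have hZ := span_RV C Z
    induction hZ using Submodule.span_induction with
    | mem Z hZ =>
      obtain ⟨al, hal, hZ⟩ := hZ
      have h1 : U ≤ U.comap (s.op Z) := by
        refine Submodule.span_le.2 ?_
        rintro u ⟨x, hx, hQx, hu⟩
        show s.op Z u ∈ U
        by_cases hZ0 : Z = 0
        · rw [hZ0, Rep.zero', LinearMap.zero_apply]
          exact U.zero_mem
        by_cases hal0 : al = 0
        · refine Submodule.subset_span ⟨x, hx, hQx, ?_⟩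
          have h2 := wt_shift s C hZ hu
          rw [hal0, zero_add] at h2
          exact h2
        · exact Submodule.subset_span ⟨al + x, C.a.add_mem hal hx, hQ x hQx al
            ⟨hal, hal0, Z, hZ0, hZ⟩, wt_shift s C hZ hu⟩
      exact h1 hu
    | zero =>
      rw [Rep.zero', LinearMap.zero_apply]
      exact U.zero_mem
    | add A B _ _ hA hB =>
      rw [s.add, LinearMap.add_apply]
      exact U.add_mem hA hB
    | smul c A _ hA =>
      rw [s.smul, LinearMap.smul_apply]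
      exact U.smul_mem _ hA
  have hvU : v ∈ U := Submodule.subset_span ⟨be, hv.mem, h0, hv.wt⟩
  have htop : U = ⊤ := by
    rcases hs U hst with h | h
    · rw [h, Submodule.mem_bot] at hvU
      exact absurd hvU hv.ne
    · exact h
  obtain ⟨hla, u, hu0, hu⟩ := hlam
  by_contra hcon
  have h1 : U ≤ LinearMap.ker ((innerSL ℂ u).toLinearMap) := by
    refine Submodule.span_le.2 ?_
    rintro w ⟨x, hx, hQx, hw⟩
    show ⟪u, w⟫_ℂ = 0
    refine wt_orth s C hla hx hu hw ?_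
    rintro rfl
    exact hcon hQx
  have h2 : u ∈ U := by rw [htop]; trivial
  exact hu0 (inner_self_eq_zero.1 (h1 h2))

omit [FiniteDimensional ℝ g] in
theorem bcd_half_norm {a : Submodule ℝ g} {m n : ℕ} {ep : Fin n → g} (h : BCD L a m ep)
    {q : ℝ} (hq : ∀ i, ⟪ep i, ep i⟫_ℝ = q) (τ : Fin n → ℝ) :
    ⟪(1 / 2 : ℝ) • ∑ i, τ i • ep i, (1 / 2 : ℝ) • ∑ i, τ i • ep i⟫_ℝ =
      q / 4 * ∑ i, τ i * τ i := by
  have h1 : ⟪∑ i, τ i • ep i, ∑ j, τ j • ep j⟫_ℝ = ∑ j, τ j * (τ j * q) := by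
    rw [inner_sum]
    refine Finset.sum_congr rfl fun j _ => ?_
    rw [real_inner_smul_right, bcd_sum h hq τ Finset.univ j, if_pos (Finset.mem_univ j)]
  rw [real_inner_smul_left, real_inner_smul_right, h1, Finset.mul_sum, Finset.mul_sum,
    Finset.mul_sum]
  exact Finset.sum_congr rfl fun j _ => by ring

/-- the weights of a spin module in type `B` -/
theorem spin_wt (s : CRep J W) (C : CSub L) (hs : Irr s) {n : ℕ} {ep : Fin n → g}
    (h : BCD L C.a 1 ep) {τ : Fin n → ℝ} (hτ : ∀ i, |τ i| = 1) {H₁ : g} {v : W}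
    (hH₁ : Reg L C.a H₁) (hv : HW s C.a H₁ ((1 / 2 : ℝ) • ∑ i, τ i • ep i) v) {om : g}
    (hom : IsW s C.a om) :
    ∃ τ' : Fin n → ℝ, (∀ i, |τ' i| = 1) ∧ om = (1 / 2 : ℝ) • ∑ i, τ' i • ep i := by
  classical
  obtain ⟨q, hq0, hq⟩ := bcd_q h
  have hτ' : ∀ i, τ i = 1 ∨ τ i = -1 := fun i => eq_or_eq_neg_of_abs_eq (hτ i)
  obtain ⟨c, hc⟩ : ∃ c : Fin n → ℤ, om = (1 / 2 : ℝ) • ∑ i, (τ i + 2 * c i) • ep i := by
    refine wt_coset s C hs hv (Q := fun x => ∃ c : Fin n → ℤ,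
      x = (1 / 2 : ℝ) • ∑ i, (τ i + 2 * c i) • ep i) ?_ ⟨fun _ => 0, by simp⟩ hom
    rintro x ⟨c, rfl⟩ al hal
    have hsing : ∀ (i : Fin n) (a : ℝ), a • ep i = (1 / 2 : ℝ) • ∑ j, (2 * (if j = i then a else 0)) • ep j := by
      intro i a
      simp only [mul_ite, mul_zero, ite_smul, zero_smul, Finset.sum_ite_eq', Finset.mem_univ,
        if_true, smul_smul]
      congr 1
      ring
    have hadd : ∀ (i : Fin n) (k : ℤ) (c : Fin n → ℤ), ∃ c' : Fin n → ℤ,
        (k : ℝ) • ep i + (1 / 2 : ℝ) • ∑ i, (τ i + 2 * c i) • ep i =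
          (1 / 2 : ℝ) • ∑ i, (τ i + 2 * c' i) • ep i := by
      intro i k c
      refine ⟨fun j => c j + if j = i then k else 0, ?_⟩
      rw [hsing i k, ← smul_add, ← Finset.sum_add_distrib]
      congr 1
      refine Finset.sum_congr rfl fun j _ => ?_
      rw [← add_smul]
      congr 1
      push_cast
      split_ifs <;> ring
    have hint : ∀ x : ℝ, |x| = 1 → ∃ k : ℤ, x = k := by
      intro x hx
      rcases eq_or_eq_neg_of_abs_eq hx with h1 | h1
      · exact ⟨1, by rw [h1, Int.cast_one]⟩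
      · exact ⟨-1, by rw [h1]; push_cast; ring⟩
    rcases (h.root al).1 hal with ⟨i, i', a, a', hne, ha, ha', rfl⟩ | ⟨i, a, hm, ha, rfl⟩
    · obtain ⟨k, rfl⟩ := hint a ha
      obtain ⟨k', rfl⟩ := hint a' ha'
      obtain ⟨c', hc'⟩ := hadd i' k' c
      obtain ⟨c'', hc''⟩ := hadd i k c'
      exact ⟨c'', by rw [add_assoc, hc', hc'']⟩
    · obtain ⟨k, rfl⟩ := hint a (by rw [ha, Nat.cast_one])
      exact hadd i k c
  have hn := N04_norm s C hs hH₁ hv hom
  rw [hc, bcd_half_norm h hq, bcd_half_norm h hq] at hn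
  have h1 : ∀ i, 1 ≤ (τ i + 2 * c i) * (τ i + 2 * c i) := by
    intro i
    have h2 : ∀ k : ℤ, (1 : ℝ) ≤ (1 + 2 * k) * (1 + 2 * k) := by
      intro k
      have h3 : (0 : ℤ) ≤ k * (k + 1) := by
        rcases le_or_gt 0 k with h | h
        · exact mul_nonneg h (by omega)
        · exact mul_nonneg_of_nonpos_of_nonpos (by omega) (by omega)
      have h4 : (0 : ℝ) ≤ (k : ℝ) * (k + 1) := by exact_mod_cast h3
      nlinarith
    rcases hτ' i with h3 | h3
    · rw [h3]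
      exact h2 _
    · rw [h3]
      have h4 := h2 (-c i)
      push_cast at h4
      nlinarith
  have h2 : ∀ i, τ i * τ i = 1 := fun i => by rw [← abs_mul_abs_self, hτ, mul_one]
  have h3 : ∑ i, (τ i + 2 * (c i : ℝ)) * (τ i + 2 * c i) ≤ ∑ i, τ i * τ i :=
    le_of_mul_le_mul_left hn (by linarith)
  have h4 : ∑ i, ((τ i + 2 * (c i : ℝ)) * (τ i + 2 * c i) - τ i * τ i) = 0 := by
    refine le_antisymm (by rw [Finset.sum_sub_distrib]; linarith) (Finset.sum_nonneg fun i _ => ?_)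
    rw [h2]
    linarith [h1 i]
  have h5 := (Finset.sum_eq_zero_iff_of_nonneg (fun i _ => by rw [h2]; linarith [h1 i])).1 h4
  refine ⟨fun i => τ i + 2 * c i, fun i => ?_, hc⟩
  have h6 := h5 i (Finset.mem_univ i)
  rw [h2] at h6
  have h7 : (τ i + 2 * (c i : ℝ)) * (τ i + 2 * c i) = 1 := by linarith
  rw [← abs_mul_abs_self] at h7
  nlinarith [abs_nonneg (τ i + 2 * (c i : ℝ))]

omit [FiniteDimensional ℝ g] in
theorem min_sep (s : CRep J W) (C : CSub L) {x z : g} (hx : IsW s C.a x) (hz : Mins L C.a z) :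
    ∀ al ∈ roots L C.a, 0 < ⟪al, x⟫_ℝ → 0 ≤ ⟪al, x - z⟫_ℝ := by
  intro al ha h0
  have hp : 0 < ⟪al, al⟫_ℝ := real_inner_self_pos.2 ha.2.1
  obtain ⟨k, hk⟩ := wt_int s C hx ha
  rw [real_inner_comm] at hk
  have hk1 : (1 : ℝ) ≤ k := by
    have h1 : (0 : ℝ) < k := by
      by_contra hcon
      have h2 : (k : ℝ) * ⟪al, al⟫_ℝ ≤ 0 := mul_nonpos_of_nonpos_of_nonneg (not_lt.1 hcon) hp.le
      linarith
    have h2 : 0 < k := by exact_mod_cast h1
    exact_mod_cast h2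
  have h1 := hz al ha
  have h2 := le_abs_self ⟪z, al⟫_ℝ
  have h3 : ⟪al, al⟫_ℝ ≤ k * ⟪al, al⟫_ℝ := by nlinarith
  rw [inner_sub_right, real_inner_comm z al]
  linarith

/-- the weight of the adjoint map -/
theorem P09_adj {E : Type} [NormedAddCommGroup E] [InnerProductSpace ℂ E] [FiniteDimensional ℂ E]
    {Y : Type} [NormedAddCommGroup Y] [InnerProductSpace ℂ Y] [FiniteDimensional ℂ Y]
    {Y' : Type} [NormedAddCommGroup Y'] [InnerProductSpace ℂ Y'] [FiniteDimensional ℂ Y']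
    (C : CSub L) (s : CRep J E) (y : CRep J Y) (y' : CRep J Y') {c : Y' →ₗ[ℂ] E →ₗ[ℂ] Y}
    (hc : ∀ Z u x, y.op Z (c u x) = c (y'.op Z u) x + c u (s.op Z x)) {la om : g} {u : Y} {x : E}
    (hu : WV y C.a la u) (hx : WV s C.a om x) :
    WV y' C.a (la - om) (LinearMap.adjoint (c.flip x) u) := by
  intro H hH
  have h1 : c.flip ((⟪om, H⟫_ℝ : ℂ) • x) = (⟪om, H⟫_ℝ : ℂ) • c.flip x := map_smul _ _ _
  have h2 : s.op (L.th H) x = -((⟪om, H⟫_ℝ : ℂ) • x) := by
    rw [C.a_p H hH, Rep.neg', LinearMap.neg_apply, hx H hH]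
  rw [P01_star s y y' hc, hu H hH, map_smul, h2, map_neg, map_neg, h1, map_smulₛₗ,
    LinearMap.neg_apply, LinearMap.smul_apply, Complex.conj_ofReal, ← sub_eq_add_neg, ← sub_smul,
    inner_sub_left]
  push_cast
  rfl

/-- `PRVData` in type `B` for half-integral weights -/
theorem bcd_prv_half {X : Type} [NormedAddCommGroup X] [InnerProductSpace ℂ X] (C : CSub L) {n : ℕ}
    {ep : Fin n → g} (h : BCD L C.a 1 ep)
    (hspin : ∀ σ : Fin n → ℝ, (∀ i, |σ i| = 1) → ∃ (Y : Type) (_ : NormedAddCommGroup Y)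
      (_ : InnerProductSpace ℂ Y) (_ : FiniteDimensional ℂ Y) (p : CRep J Y), Irr p ∧
        IsExt J C.a p.op ⊤ ((1 / 2 : ℝ) • ∑ i, σ i • ep i)) (r : HC L X)
    {V₀ : Submodule ℂ X} (hV₀ : IsKType L r.op V₀) {mu : g} (hmu : IsExt J C.a r.op V₀ mu)
    (hhalf : ∀ i, ∃ k : ℤ, ⟪mu, ep i⟫_ℝ = (k + 1 / 2) * ⟪ep i, ep i⟫_ℝ)
    {σ : Fin n → ℝ} (hσ : ∀ i, |σ i| = 1) {I : Finset (Fin n)}
    {Y : Type} [NormedAddCommGroup Y] [InnerProductSpace ℂ Y] [FiniteDimensional ℂ Y]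
    (p : CRep J Y) (hp : Irr p) (hy : IsExt J C.a p.op ⊤ (∑ i ∈ I, σ i • ep i)) :
    PRVData J C.a r.op V₀ p mu (∑ i ∈ I, σ i • ep i) := by
  classical
  obtain ⟨H', hH', hmu⟩ := hmu
  obtain ⟨H₄, hH₄, hy⟩ := hy
  have hV₀fin := hV₀.fin
  obtain ⟨t₀, hirr₀, hk₀, hcas₀⟩ := ktype_pack r.toRep r.skew J hV₀
  obtain ⟨v₀, hv₀⟩ := high_hw r.toRep J C hk₀ hmu
  obtain ⟨u₁, hu₁⟩ := high_hw' p C hy
  obtain ⟨q, hq0, hq⟩ := bcd_q h
  set y : g := ∑ i ∈ I, σ i • ep i with hydef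
  -- the signs
  let τ : Fin n → ℝ := fun i => if i ∈ I then σ i else if 0 < ⟪mu - y, ep i⟫_ℝ then -1 else 1
  have hτ : ∀ i, |τ i| = 1 := by
    intro i
    show |if i ∈ I then σ i else if 0 < ⟪mu - y, ep i⟫_ℝ then -1 else 1| = 1
    split_ifs
    · exact hσ i
    · rw [abs_neg, abs_one]
    · exact abs_one
  let τ₂ : Fin n → ℝ := fun i => if i ∈ I then σ i else -τ i
  have hτ₂ : ∀ i, |τ₂ i| = 1 := by
    intro i
    show |if i ∈ I then σ i else -τ i| = 1
    split_ifs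
    · exact hσ i
    · rw [abs_neg, hτ]
  set z : g := (1 / 2 : ℝ) • ∑ i, τ i • ep i with hz
  have hyz : y - z = (1 / 2 : ℝ) • ∑ i, τ₂ i • ep i := by
    have h1 : y = ∑ i, (if i ∈ I then σ i else 0) • ep i := by
      rw [hydef]
      simp only [ite_smul, zero_smul, Finset.sum_ite_mem, Finset.univ_inter]
    rw [h1, hz, Finset.smul_sum, Finset.smul_sum, ← Finset.sum_sub_distrib]
    refine Finset.sum_congr rfl fun i _ => ?_
    rw [smul_smul, smul_smul, ← sub_smul]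
    congr 1
    show (if i ∈ I then σ i else 0) - 1 / 2 * τ i = 1 / 2 * (if i ∈ I then σ i else -τ i)
    have h2 : τ i = if i ∈ I then σ i else τ i := by
      show (if i ∈ I then σ i else _) = if i ∈ I then σ i else (if i ∈ I then σ i else _)
      split_ifs <;> rfl
    rw [h2]
    split_ifs <;> ring
  -- the spin module
  obtain ⟨E, e1, e2, e3, s, hs, hsz⟩ := hspin τ hτ
  obtain ⟨H₀, hH₀, hsz⟩ := hsz
  obtain ⟨x₁, hx₁⟩ := high_hw' s C hsz
  obtain ⟨N, e, w, hw⟩ := G01_onb C s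
  have hne : ∀ j, e j ≠ 0 := by
    intro j h0
    have h1 := e.norm_eq_one j
    rw [h0, norm_zero] at h1
    exact zero_ne_one h1
  have hzm : Mins L C.a z := bcd_spin_mins h (by norm_num) hτ
  have hyzm : Mins L C.a (y - z) := by
    rw [hyz]
    exact bcd_spin_mins h (by norm_num) hτ₂
  -- (1)
  obtain ⟨Y', k1, k2, k3, y', c, hy', hc, H₅, u₁', hH₅, hu₁', hc0⟩ :=
    P03_step C p hp s hs hH₄ hH₀ hu₁ hx₁ (min_sep p C ⟨hu₁.mem, u₁, hu₁.ne, hu₁.wt⟩ hzm)
  -- (2)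
  obtain ⟨V', l1, l2, l3, p', b', hp', hb', H₃, v₁', hH₃, hv₁', hb0⟩ :=
    P03_step C t₀ hirr₀ y' hy' hH' hH₅ hv₀ hu₁' (min_sep t₀ C ⟨hv₀.mem, v₀, hv₀.ne, hv₀.wt⟩ hyzm)
  -- (3)
  obtain ⟨V, m1, m2, m3, p₂, a, hp₂, ha, H₂, v₁, hH₂, hv₁, ha0⟩ :=
    P03_step C p' hp' s hs hH₃ hH₀ hv₁' hx₁
      (min_sep p' C ⟨hv₁'.mem, v₁', hv₁'.ne, hv₁'.wt⟩ hzm)
  have hv₁m : mu - (y - z) - z = mu - y := by abel
  rw [hv₁m] at hv₁
  -- the index of the extreme vector
  obtain ⟨j₀, hj₀⟩ : ∃ j, w j = z := by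
    by_contra hcon
    push Not at hcon
    apply hx₁.ne
    rw [← e.sum_repr' x₁]
    exact Finset.sum_eq_zero fun k _ => by
      rw [wt_orth s C (hw k).1 hx₁.mem (hw k).2 hx₁.wt (hcon k), zero_smul]
  have huniq : ∀ j, w j = z → j = j₀ := by
    intro j hj
    by_contra hne'
    obtain ⟨d, hd⟩ := hw_mult s C hs hH₀ hx₁ (u := e j)
      (by have h3 := (hw j).2; rw [hj] at h3; exact h3)
    obtain ⟨d', hd'⟩ := hw_mult s C hs hH₀ hx₁ (u := e j₀)
      (by have h3 := (hw j₀).2; rw [hj₀] at h3; exact h3)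
    have h1 : ⟪e j, e j₀⟫_ℂ = 0 := e.orthonormal.2 hne'
    rw [hd, hd', inner_smul_left, inner_smul_right] at h1
    rcases mul_eq_zero.1 h1 with h2 | h2
    · exact hne j (by rw [hd, (map_eq_zero _).1 h2, zero_smul])
    · rcases mul_eq_zero.1 h2 with h3 | h3
      · exact hne j₀ (by rw [hd', h3, zero_smul])
      · exact hx₁.ne (inner_self_eq_zero.1 h3)
  obtain ⟨d, hd⟩ := hw_mult s C hs hH₀ hx₁ (u := e j₀)
      (by have h3 := (hw j₀).2; rw [hj₀] at h3; exact h3)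
  have hd0 : d ≠ 0 := by
    rintro rfl
    exact hne j₀ (by rw [hd, zero_smul])
  have ha0' : a v₁ (e j₀) ≠ 0 := by
    rw [hd, map_smul]
    exact smul_ne_zero hd0 ha0
  have hc0' : c u₁' (e j₀) ≠ 0 := by
    rw [hd, map_smul]
    exact smul_ne_zero hd0 hc0
  -- the terms
  have hterm : ∀ j, j ≠ j₀ → b' (a v₁ (e j)) (LinearMap.adjoint (c.flip (e j)) u₁) = 0 := by
    intro j hj
    by_contra hcon
    have n1 : a v₁ (e j) ≠ 0 := by
      intro h0
      exact hcon (by rw [h0, map_zero, LinearMap.zero_apply])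
    have n2 : LinearMap.adjoint (c.flip (e j)) u₁ ≠ 0 := by
      intro h0
      exact hcon (by rw [h0, map_zero])
    obtain ⟨τ', hτ', hwj⟩ := spin_wt s C hs h hτ hH₀ hx₁ ⟨(hw j).1, e j, hne j, (hw j).2⟩
    obtain ⟨τ'', hτ'', hyw⟩ := spin_wt y' C hy' h hτ₂ hH₅ (hyz ▸ hu₁')
      ⟨C.a.sub_mem hu₁.mem (hw j).1, _, n2, P09_adj C s p y' hc hu₁.wt (hw j).2⟩
    have hav : WV p' C.a (mu - y + w j) (a v₁ (e j)) := by
      intro H hH
      rw [ha, hv₁.wt H hH, (hw j).2 H hH, map_smul, LinearMap.smul_apply, map_smul, ← add_smul,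
        inner_add_left]
      push_cast
      rfl
    have hn := N04_norm p' C hp' hH₃ hv₁'
      ⟨C.a.add_mem (C.a.sub_mem hv₀.mem hu₁.mem) (hw j).1, _, n1, hav⟩
    have hsum : ∀ (ρ : Fin n → ℝ) i, ⟪(1 / 2 : ℝ) • ∑ i, ρ i • ep i, ep i⟫_ℝ = 1 / 2 * (ρ i * q) := by
      intro ρ i
      rw [real_inner_smul_left, bcd_sum h hq ρ Finset.univ i, if_pos (Finset.mem_univ i)]
    -- on `I`
    have hI : ∀ i ∈ I, τ' i = τ i := by
      intro i hi
      have h1 : ⟪y - w j, ep i⟫_ℝ = 1 / 2 * (τ'' i * q) := by rw [hyw, hsum]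
      rw [inner_sub_left, hydef, bcd_sum h hq σ I i, if_pos hi, hwj, hsum] at h1
      have h2 : 2 * σ i = τ' i + τ'' i := by
        have h3 : q * (2 * σ i - τ' i - τ'' i) = 0 := by linarith
        rcases mul_eq_zero.1 h3 with h4 | h4
        · exact absurd h4 hq0.ne'
        · linarith
      have h4 : τ i = σ i := if_pos hi
      rw [h4]
      have a1 := abs_le.1 (hτ' i).le
      have a2 := abs_le.1 (hτ'' i).le
      rcases eq_or_eq_neg_of_abs_eq (hσ i) with h5 | h5 <;> rw [h5] at h2 ⊢ <;> linarith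
    -- outside `I`
    have hle : ⟪mu - y, w j⟫_ℝ ≤ ⟪mu - y, z⟫_ℝ := by
      have h1 : mu - (y - z) = mu - y + z := by abel
      rw [h1] at hn
      simp only [inner_add_left, inner_add_right] at hn
      rw [real_inner_comm (mu - y) (w j), real_inner_comm (mu - y) z] at hn
      have h2 : ⟪w j, w j⟫_ℝ = ⟪z, z⟫_ℝ := by
        rw [hwj, hz, bcd_half_norm h hq, bcd_half_norm h hq]
        congr 1
        refine Finset.sum_congr rfl fun i _ => ?_
        rw [← abs_mul_abs_self (τ' i), ← abs_mul_abs_self (τ i), hτ', hτ]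
      simp only [inner_sub_left, inner_sub_right] at hn ⊢
      linarith
    have hdiff : ∀ i, 0 ≤ (τ' i - τ i) * ⟪mu - y, ep i⟫_ℝ := by
      intro i
      by_cases hi : i ∈ I
      · rw [hI i hi, sub_self, zero_mul]
      · have h1 : τ i = if 0 < ⟪mu - y, ep i⟫_ℝ then -1 else 1 := if_neg hi
        have a1 := abs_le.1 (hτ' i).le
        by_cases h2 : 0 < ⟪mu - y, ep i⟫_ℝ
        · rw [h1, if_pos h2]
          exact mul_nonneg (by linarith) h2.le
        · rw [h1, if_neg h2]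
          exact mul_nonneg_of_nonpos_of_nonpos (by linarith) (not_lt.1 h2)
    have hzero : ∑ i, (τ' i - τ i) * ⟪mu - y, ep i⟫_ℝ = 0 := by
      refine le_antisymm ?_ (Finset.sum_nonneg fun i _ => hdiff i)
      have h1 : ∀ ρ : Fin n → ℝ, ⟪mu - y, (1 / 2 : ℝ) • ∑ i, ρ i • ep i⟫_ℝ =
          1 / 2 * ∑ i, ρ i * ⟪mu - y, ep i⟫_ℝ := by
        intro ρ
        rw [real_inner_smul_right, inner_sum]
        congr 1
        exact Finset.sum_congr rfl fun i _ => real_inner_smul_right _ _ _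
      rw [hwj, hz, h1, h1] at hle
      simp only [sub_mul, Finset.sum_sub_distrib]
      linarith
    have hall := (Finset.sum_eq_zero_iff_of_nonneg fun i _ => hdiff i).1 hzero
    apply hj
    apply huniq
    rw [hwj, hz]
    congr 1
    refine Finset.sum_congr rfl fun i _ => ?_
    congr 1
    by_cases hi : i ∈ I
    · exact hI i hi
    · rcases mul_eq_zero.1 (hall i (Finset.mem_univ i)) with h1 | h1
      · linarith
      · exfalso
        obtain ⟨k, hk⟩ := hhalf i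
        rw [inner_sub_left, hydef, bcd_sum h hq σ I i, if_neg hi, sub_zero, hk, hq] at h1
        rcases mul_eq_zero.1 h1 with h2 | h2
        · have h3 : ((2 * k + 1 : ℤ) : ℝ) = 0 := by
            push_cast
            linarith
          have h4 : (2 * k + 1 : ℤ) = 0 := by exact_mod_cast h3
          omega
        · exact hq0.ne' h2
  -- the map
  have hbne : bmap e a b' c v₁ u₁ ≠ 0 := by
    have h1 : bmap e a b' c v₁ u₁ = b' (a v₁ (e j₀)) (LinearMap.adjoint (c.flip (e j₀)) u₁) := by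
      rw [bmap, LinearMap.sum_apply, LinearMap.sum_apply]
      exact Finset.sum_eq_single j₀ (fun j _ hj => hterm j hj)
        fun hj => absurd (Finset.mem_univ _) hj
    rw [h1]
    have hav : WV p' C.a (mu - (y - z)) (a v₁ (e j₀)) := by
      intro H hH
      rw [ha, hv₁.wt H hH, (hw j₀).2 H hH, map_smul, LinearMap.smul_apply, map_smul, ← add_smul,
        hj₀, ← Complex.ofReal_add, ← inner_add_left]
      congr 3
      abel
    have hcv := P09_adj C s p y' hc hu₁.wt (hw j₀).2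
    rw [hj₀] at hcv
    obtain ⟨d₁, hd₁⟩ := hw_mult p' C hp' hH₃ hv₁' hav
    obtain ⟨d₂, hd₂⟩ := hw_mult y' C hy' hH₅ hu₁' hcv
    have hd₁0 : d₁ ≠ 0 := by
      rintro rfl
      exact ha0' (by rw [hd₁, zero_smul])
    have hcw : WV p C.a y (c u₁' (e j₀)) := by
      intro H hH
      rw [hc, hu₁'.wt H hH, (hw j₀).2 H hH, map_smul, LinearMap.smul_apply, map_smul, ← add_smul,
        hj₀, ← Complex.ofReal_add, ← inner_add_left, sub_add_cancel]
    obtain ⟨d₃, hd₃⟩ := hw_mult p C hp hH₄ hu₁ hcw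
    have hd₃0 : d₃ ≠ 0 := by
      rintro rfl
      exact hc0' (by rw [hd₃, zero_smul])
    have hd₂0 : d₂ ≠ 0 := by
      rintro rfl
      rw [zero_smul] at hd₂
      have h2 : ⟪LinearMap.adjoint (c.flip (e j₀)) u₁, u₁'⟫_ℂ = ⟪u₁, c u₁' (e j₀)⟫_ℂ :=
        LinearMap.adjoint_inner_left _ _ _
      rw [hd₂, inner_zero_left, hd₃, inner_smul_right] at h2
      rcases mul_eq_zero.1 h2.symm with h3 | h3
      · exact hd₃0 h3
      · exact hu₁.ne (inner_self_eq_zero.1 h3)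
    rw [hd₁, hd₂, map_smul, map_smul, LinearMap.smul_apply]
    exact smul_ne_zero hd₂0 (smul_ne_zero hd₁0 hb0)
  have hbeq := P01_b e s p₂ p' p y' t₀ ha hb' hc
  refine ⟨V, m1, m2, m3, p₂, (bmap e a b' c).compr₂ V₀.subtype, hp₂, hw_ext p₂ C hH₂ hv₁,
    fun v u => (bmap e a b' c v u).2, ?_, v₁, u₁, ?_, hv₁.wt, hu₁.wt⟩
  · intro Z hZ v u
    show r.op Z ((bmap e a b' c v u : V₀) : X) =
      ((bmap e a b' c (p₂.op Z v) u : V₀) : X) + ((bmap e a b' c v (p.op Z u) : V₀) : X)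
    rw [← hk₀ Z hZ, hbeq]
    rfl
  · intro h0
    exact hbne (Subtype.ext h0)

end

end Pool.Agent.Lib.MP_4322ef_CH
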