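import Pool.Agent.Lib.MP_4322ef_CH.Defs4
import Pool.Agent.Lib.MP_4322ef_CH.Mg.G001

/-!
# Orthogonal and symplectic Lie algebras: weight bases (technical definitions)
-/

set_option autoImplicit false

open scoped InnerProductSpace

namespace Pool.Agent.Lib.MP_4322ef_CH

open Pool.Agent.Lib.MP_4322ef_al.SR

variable {g : Type} [NormedAddCommGroup g] [InnerProductSpace ℝ g] {L : RedLie g}
variable {J : CStr L} {E : Type} [NormedAddCommGroup E] [InnerProductSpace ℂ E]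

/-- the operator `z ↦ ⟪c x, z⟫ y - e ⟪c y, z⟫ x` -/
noncomputable def wd (c : E →ₗ⋆[ℂ] E) (e : ℝ) (x y : E) : E →ₗ[ℂ] E where
  toFun z := ⟪c x, z⟫_ℂ • y - ((e : ℂ) * ⟪c y, z⟫_ℂ) • x
  map_add' z z' := by
    rw [inner_add_right, inner_add_right, mul_add, add_smul, add_smul]
    abel
  map_smul' k z := by
    rw [inner_smul_right, inner_smul_right, RingHom.id_apply, smul_sub, smul_smul, smul_smul]
    congr 2
    ring

theorem wd_apply (c : E →ₗ⋆[ℂ] E) (e : ℝ) (x y z : E) :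
    wd c e x y z = ⟪c x, z⟫_ℂ • y - ((e : ℂ) * ⟪c y, z⟫_ℂ) • x := rfl

/-- A basis of `E` adapted to `a` and `c`: the `u i` have the weights `ep i`, the `c (u i)` the weights
`- ep i`, and `w` the weight `0`. All these vectors are orthonormal, but `w` may be `0`. -/
structure QB {L : RedLie g} {J : CStr L} (C : CSub L) (s : CRep J E) (c : E →ₗ⋆[ℂ] E) {n : ℕ}
    (ep : Fin n → g) (u : Fin n → E) (w : E) : Prop where
  mem : ∀ i, ep i ∈ C.a
  wt : ∀ i, WV s C.a (ep i) (u i)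
  wt0 : WV s C.a 0 w
  cw : c w = w
  uu : ∀ i j, ⟪u i, u j⟫_ℂ = if i = j then 1 else 0
  uc : ∀ i j, ⟪c (u i), u j⟫_ℂ = 0
  uw : ∀ i, ⟪u i, w⟫_ℂ = 0
  ww : w = 0 ∨ ⟪w, w⟫_ℂ = 1
  exp : ∀ x, x = ∑ i, ⟪u i, x⟫_ℂ • u i + ∑ i, ⟪c (u i), x⟫_ℂ • c (u i) + ⟪w, x⟫_ℂ • w

end Pool.Agent.Lib.MP_4322ef_CH
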