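import Pool.Agent.Lib.MP_4322ef_CH.T01
import Pool.Agent.Lib.MP_4322ef_CH.G01

/-!
# The adapted basis

* `T02_line`: the weight spaces of the weights `≠ 0` are lines.
* `T02_zero`: for `e = -1` there is no weight `0`; for `e = 1` the weight space of `0` is at most a line.
* `exists_qb`: take one vector from each pair of weights `± x` of the orthonormal basis of `G01_onb`.
-/

set_option autoImplicit false

open scoped InnerProductSpace

namespace Pool.Agent.Lib.MP_4322ef_CH

open Pool.Agent.Lib.MP_4322ef_al.SR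

variable {g : Type} [NormedAddCommGroup g] [InnerProductSpace ℝ g] {L : RedLie g}

section
variable {J : CStr L} {E : Type} [NormedAddCommGroup E] [InnerProductSpace ℂ E]
variable {s : CRep J E} {c : E →ₗ⋆[ℂ] E} {e : ℝ}

theorem T02_line (h : TypeQ s c e) (C : CSub L) {lam : g} (hlam : lam ∈ C.a) (h0 : lam ≠ 0)
    {x y : E} (hx : WV s C.a lam x) (hy : WV s C.a lam y) (hxx : ⟪x, x⟫_ℂ = 1)
    (hxy : ⟪x, y⟫_ℂ = 0) : y = 0 := by
  have hne : -lam ≠ lam := by
    intro h1
    apply h0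
    have h2 : (2 : ℝ) • lam = 0 := by
      rw [two_smul]
      nth_rewrite 1 [← h1]
      exact neg_add_cancel lam
    exact (smul_eq_zero.1 h2).resolve_left two_ne_zero
  obtain ⟨H, hH, hT⟩ := diag_mem h C hx
  have hcx : ⟪c x, x⟫_ℂ = 0 := wt_orth s C (C.a.neg_mem hlam) hlam (q_cwt h C hx) hx hne
  have hcy : ⟪c x, y⟫_ℂ = 0 := wt_orth s C (C.a.neg_mem hlam) hlam (q_cwt h C hx) hy hne
  have h1 := hT x
  have h2 := hT y
  rw [hx H hH, hxx, hcx, zero_smul, sub_zero] at h1
  rw [hy H hH, hxy, hcy, zero_smul, zero_smul, sub_zero] at h2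
  have hx0 : x ≠ 0 := by
    rintro rfl
    rw [inner_zero_left] at hxx
    exact zero_ne_one hxx
  have h3 : (⟪lam, H⟫_ℝ : ℂ) = 1 := smul_left_injective ℂ hx0 h1
  rw [h3, one_smul] at h2
  exact h2

theorem T02_neg (h : TypeQ s c (-1)) (C : CSub L) {x : E} (hx : WV s C.a 0 x) : x = 0 := by
  have h1 := q_symm h x x
  have h2 : ⟪c x, x⟫_ℂ = 0 := by
    have h3 : (2 : ℂ) * ⟪c x, x⟫_ℂ = 0 := by
      rw [two_mul]
      nth_rewrite 1 [h1]
      push_cast
      ring
    exact (mul_eq_zero.1 h3).resolve_left two_ne_zero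
  obtain ⟨H, hH, hT⟩ := diag_mem h C hx
  have h3 := hT x
  rw [hx H hH, inner_zero_left, Complex.ofReal_zero, zero_smul, h2, zero_smul, sub_zero] at h3
  by_contra hne
  rcases smul_eq_zero.1 h3.symm with h4 | h4
  · exact hne (inner_self_eq_zero.1 h4)
  · exact hne h4

theorem T02_pos (h : TypeQ s c 1) (C : CSub L) {x y : E} (hx : WV s C.a 0 x) (hy : WV s C.a 0 y)
    (hcx : c x = x) (hcy : c y = y) (hxx : ⟪x, x⟫_ℂ = 1) (hxy : ⟪x, y⟫_ℂ = 0) : y = 0 := by
  obtain ⟨A, hA⟩ := wd_mem h x y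
  have h1 := wd_rv h C hx hy hA
  rw [add_zero] at h1
  obtain ⟨H, hH, H', hH', rfl⟩ := RV_zero J C h1
  have h2 : s.op (H + J.J H') x = 0 := by
    rw [s.add, s.lin, LinearMap.add_apply, LinearMap.smul_apply, hx H hH, hx H' hH',
      inner_zero_left, inner_zero_left, Complex.ofReal_zero, zero_smul, smul_zero, add_zero]
  have hyx : ⟪y, x⟫_ℂ = 0 := by rw [← inner_conj_symm, hxy, map_zero]
  rw [hA, wd_apply, hcx, hcy, hxx, hyx, mul_zero, zero_smul, one_smul, sub_zero] at h2
  exact h2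

/-- the weight `0` -/
theorem T02_zero (h : TypeQ s c e) (C : CSub L) : ∃ w : E, WV s C.a 0 w ∧ c w = w ∧
    (w = 0 ∨ ⟪w, w⟫_ℂ = 1) ∧ ∀ x, WV s C.a 0 x → x = ⟪w, x⟫_ℂ • w := by
  have hz : WV s C.a 0 (0 : E) := by
    intro H hH
    rw [map_zero, smul_zero]
  by_cases hall : ∀ x, WV s C.a 0 x → x = 0
  · refine ⟨0, hz, map_zero c, Or.inl rfl, fun x hx => ?_⟩
    rw [hall x hx, smul_zero]
  push Not at hall
  obtain ⟨x, hx, hx0⟩ := hall
  have he : e = 1 := by
    rcases h.sgn with h1 | h1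
    · exact h1
    · rw [h1] at h
      exact absurd (T02_neg h C hx) hx0
  rw [he] at h
  have hadd : ∀ {a b : E}, WV s C.a 0 a → WV s C.a 0 b → WV s C.a 0 (a + b) := by
    intro a b ha hb H hH
    rw [map_add, ha H hH, hb H hH, smul_add]
  have hsmul : ∀ (k : ℂ) {a : E}, WV s C.a 0 a → WV s C.a 0 (k • a) := by
    intro k a ha H hH
    rw [map_smul, ha H hH, smul_comm]
  have hc0 : ∀ {a : E}, WV s C.a 0 a → WV s C.a 0 (c a) := by
    intro a ha
    have h1 := q_cwt h C ha
    rw [neg_zero] at h1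
    exact h1
  have hcc : ∀ a, c (c a) = a := by
    intro a
    rw [h.sq, Complex.ofReal_one, one_smul]
  have hfix1 : ∀ a, c (a + c a) = a + c a := by
    intro a
    rw [map_add, hcc, add_comm]
  have hfix2 : ∀ a, c (Complex.I • (a + (-1 : ℂ) • c a)) = Complex.I • (a + (-1 : ℂ) • c a) := by
    intro a
    rw [LinearMap.map_smulₛₗ, map_add, LinearMap.map_smulₛₗ, hcc, Complex.conj_I, map_neg, map_one]
    module
  have hzero : ∀ a, a + c a = 0 → Complex.I • (a + (-1 : ℂ) • c a) = 0 → a = 0 := by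
    intro a h1 h2
    have h3 := (smul_eq_zero.1 h2).resolve_left Complex.I_ne_zero
    have h4 : (2 : ℂ) • a = 0 := by
      have h5 : (2 : ℂ) • a = (a + c a) + (a + (-1 : ℂ) • c a) := by module
      rw [h5, h1, h3, add_zero]
    exact (smul_eq_zero.1 h4).resolve_left two_ne_zero
  obtain ⟨v, hv, hcv, hv0⟩ : ∃ v, WV s C.a 0 v ∧ c v = v ∧ v ≠ 0 := by
    by_contra hcon
    push Not at hcon
    exact hx0 (hzero x (hcon _ (hadd hx (hc0 hx)) (hfix1 x))
      (hcon _ (hsmul _ (hadd hx (hsmul _ (hc0 hx)))) (hfix2 x)))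
  have hn : ‖v‖ ≠ 0 := norm_ne_zero_iff.2 hv0
  obtain ⟨w, hw, hcw, hww⟩ : ∃ w, WV s C.a 0 w ∧ c w = w ∧ ⟪w, w⟫_ℂ = 1 := by
    refine ⟨((‖v‖⁻¹ : ℝ) : ℂ) • v, hsmul _ hv, ?_, ?_⟩
    · rw [LinearMap.map_smulₛₗ, Complex.conj_ofReal, hcv]
    · rw [inner_smul_left, inner_smul_right, Complex.conj_ofReal, inner_self_eq_norm_sq_to_K]
      have h1 : ((‖v‖⁻¹ : ℝ) : ℂ) * (((‖v‖⁻¹ : ℝ) : ℂ) * ((‖v‖ : ℝ) : ℂ) ^ 2) = 1 := by
        push_cast
        have h2 : ((‖v‖ : ℝ) : ℂ) ≠ 0 := by exact_mod_cast hn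
        field_simp
      exact h1
  refine ⟨w, hw, hcw, Or.inr hww, fun x hx => ?_⟩
  have hy : WV s C.a 0 (x + (-⟪w, x⟫_ℂ) • w) := hadd hx (hsmul _ hw)
  have hwy : ⟪w, x + (-⟪w, x⟫_ℂ) • w⟫_ℂ = 0 := by
    rw [inner_add_right, inner_smul_right, hww, mul_one, add_neg_cancel]
  generalize hyd : x + (-⟪w, x⟫_ℂ) • w = y at hy hwy
  have hwc : ⟪w, c y⟫_ℂ = 0 := by
    rw [← hcw, h.iso, ← inner_conj_symm, hwy, map_zero]
  have h1 := T02_pos h C hw (hadd hy (hc0 hy)) hcw (hfix1 y) hww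
    (by rw [inner_add_right, hwy, hwc, add_zero])
  have h2 := T02_pos h C hw (hsmul Complex.I (hadd hy (hsmul (-1) (hc0 hy)))) hcw (hfix2 y) hww
    (by rw [inner_smul_right, inner_add_right, inner_smul_right, hwy, hwc, mul_zero, add_zero,
      mul_zero])
  have h3 := hzero y h1 h2
  rw [h3, neg_smul] at hyd
  exact sub_eq_zero.1 ((sub_eq_add_neg _ _).trans hyd)

theorem exists_qb [FiniteDimensional ℝ g] [FiniteDimensional ℂ E] (h : TypeQ s c e) (C : CSub L) :
    ∃ (n : ℕ) (ep : Fin n → g) (u : Fin n → E) (w : E), QB C s c ep u w := by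
  classical
  obtain ⟨N, b, x, hx⟩ := G01_onb C s
  obtain ⟨w, hw, hcw, hww, hw0⟩ := T02_zero h C
  have hbb : ∀ i j, ⟪b i, b j⟫_ℂ = if i = j then 1 else 0 := fun i j =>
    orthonormal_iff_ite.1 b.orthonormal i j
  have hself : ∀ i, ⟪b i, b i⟫_ℂ = 1 := fun i => by rw [hbb, if_pos rfl]
  have hne2 : ∀ i, x i ≠ 0 → -x i ≠ x i := by
    intro i h0 h1
    apply h0
    have h2 : (2 : ℝ) • x i = 0 := by
      rw [two_smul]
      nth_rewrite 1 [← h1]
      exact neg_add_cancel _
    exact (smul_eq_zero.1 h2).resolve_left two_ne_zero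
  have hinj : ∀ i j, x i ≠ 0 → x i = x j → i = j := by
    intro i j h0 hij
    by_contra hne
    have h1 := T02_line h C (hx i).1 h0 (hx i).2 (hij ▸ (hx j).2) (hself i)
      (by rw [hbb, if_neg hne])
    have h2 := hself j
    rw [h1, inner_zero_left] at h2
    exact zero_ne_one h2
  let I : Finset (Fin N) := Finset.univ.filter fun i => x i ≠ 0 ∧ ∀ j, x j = -x i → i < j
  have hI : ∀ i, i ∈ I ↔ (x i ≠ 0 ∧ ∀ j, x j = -x i → i < j) := fun i => by
    simp only [I, Finset.mem_filter, Finset.mem_univ, true_and]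
  let f : Fin I.card ≃ I := I.equivFin.symm
  have hsum : ∀ F : Fin N → E, ∑ i, F (f i) = ∑ k ∈ I, F k := by
    intro F
    rw [← Finset.sum_coe_sort I F]
    exact Equiv.sum_comp f (fun k : I => F k)
  have hcb : ∀ i, WV s C.a (-x i) (c (b i)) := fun i => q_cwt h C (hx i).2
  have hcc : ∀ i, ⟪c (b i), c (b i)⟫_ℂ = 1 := fun i => by rw [h.iso, hself]
  have huc : ∀ i ∈ I, ∀ j ∈ I, ⟪c (b i), b j⟫_ℂ = 0 := by
    intro i hi j hj
    refine wt_orth s C (C.a.neg_mem (hx i).1) (hx j).1 (hcb i) (hx j).2 ?_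
    intro h1
    have h2 := ((hI i).1 hi).2 j h1.symm
    have h3 := ((hI j).1 hj).2 i (by rw [← h1, neg_neg])
    exact lt_asymm h2 h3
  refine ⟨I.card, fun i => x (f i), fun i => b (f i), w, fun i => (hx _).1, fun i => (hx _).2, hw,
    hcw, ?_, ?_, ?_, hww, ?_⟩
  · intro i j
    rw [hbb]
    by_cases hij : i = j
    · rw [if_pos hij, if_pos (by rw [hij])]
    · rw [if_neg hij, if_neg fun h1 => hij (f.injective (Subtype.ext h1))]
  · intro i j
    exact huc _ (f i).2 _ (f j).2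
  · intro i
    exact wt_orth s C (hx _).1 C.a.zero_mem (hx _).2 hw ((hI _).1 (f i).2).1
  · let Φ : E →ₗ[ℂ] E := ∑ i, ((innerSL ℂ (b (f i))).toLinearMap).smulRight (b (f i)) +
      ∑ i, ((innerSL ℂ (c (b (f i)))).toLinearMap).smulRight (c (b (f i))) +
      ((innerSL ℂ w).toLinearMap).smulRight w
    have hΦ : ∀ z, Φ z = ∑ i, ⟪b (f i), z⟫_ℂ • b (f i) + ∑ i, ⟪c (b (f i)), z⟫_ℂ • c (b (f i)) +
        ⟪w, z⟫_ℂ • w := by
      intro z
      simp only [Φ, LinearMap.add_apply, LinearMap.sum_apply]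
      rfl
    have hid : Φ = LinearMap.id := by
      refine b.toBasis.ext fun k => ?_
      rw [b.coe_toBasis, hΦ, LinearMap.id_apply, hsum fun i => ⟪b i, b k⟫_ℂ • b i,
        hsum fun i => ⟪c (b i), b k⟫_ℂ • c (b i)]
      have h1 : ∑ i ∈ I, ⟪b i, b k⟫_ℂ • b i = if k ∈ I then b k else 0 := by
        have h2 : ∀ i ∈ I, ⟪b i, b k⟫_ℂ • b i = if k = i then b i else 0 := by
          intro i _
          rw [hbb]
          by_cases hik : i = k
          · rw [if_pos hik, if_pos hik.symm, one_smul]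
          · rw [if_neg hik, if_neg (Ne.symm hik), zero_smul]
        rw [Finset.sum_congr rfl h2, Finset.sum_ite_eq]
      rw [h1]
      by_cases h0 : x k = 0
      · have h2 : k ∉ I := fun h3 => ((hI k).1 h3).1 h0
        have h3 : ∑ i ∈ I, ⟪c (b i), b k⟫_ℂ • c (b i) = 0 := by
          refine Finset.sum_eq_zero fun i hi => ?_
          rw [wt_orth s C (C.a.neg_mem (hx i).1) (hx k).1 (hcb i) (hx k).2, zero_smul]
          rw [h0]
          exact neg_ne_zero.2 ((hI i).1 hi).1
        rw [if_neg h2, h3, zero_add, zero_add]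
        exact (hw0 _ (h0 ▸ (hx k).2)).symm
      · have h4 : ⟪w, b k⟫_ℂ = 0 := wt_orth s C C.a.zero_mem (hx k).1 hw (hx k).2 (Ne.symm h0)
        rw [h4, zero_smul, add_zero]
        by_cases hk : k ∈ I
        · have h3 : ∑ i ∈ I, ⟪c (b i), b k⟫_ℂ • c (b i) = 0 :=
            Finset.sum_eq_zero fun i hi => by rw [huc i hi k hk, zero_smul]
          rw [if_pos hk, h3, add_zero]
        · rw [if_neg hk, zero_add]
          have h5 : ∃ j, x j = -x k ∧ ¬ k < j := by
            by_contra hcon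
            push Not at hcon
            exact hk ((hI k).2 ⟨h0, hcon⟩)
          obtain ⟨j, hj, hjk⟩ := h5
          have hj0 : x j ≠ 0 := by
            rw [hj]
            exact neg_ne_zero.2 h0
          have hjne : j ≠ k := by
            rintro rfl
            exact hne2 j h0 hj.symm
          have hjI : j ∈ I := by
            rw [hI]
            refine ⟨hj0, fun l hl => ?_⟩
            have h6 : x l = x k := by rw [hl, hj, neg_neg]
            have h7 : k = l := hinj k l h0 h6.symm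
            rw [← h7]
            exact lt_of_le_of_ne (not_lt.1 hjk) hjne
          have hcj : WV s C.a (x k) (c (b j)) := by
            have h6 := hcb j
            rw [hj, neg_neg] at h6
            exact h6
          have h6 : b k + (-⟪c (b j), b k⟫_ℂ) • c (b j) = 0 := by
            refine T02_line h C (hx k).1 h0 hcj ?_ (hcc j) ?_
            · intro H hH
              rw [map_add, map_smul, (hx k).2 H hH, hcj H hH, smul_add, smul_comm]
            · rw [inner_add_right, inner_smul_right, hcc, mul_one, add_neg_cancel]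
          rw [Finset.sum_eq_single_of_mem j hjI]
          · rw [neg_smul] at h6
            exact (sub_eq_zero.1 ((sub_eq_add_neg _ _).trans h6)).symm
          · intro i hi hij
            rw [wt_orth s C (C.a.neg_mem (hx i).1) (hx k).1 (hcb i) (hx k).2, zero_smul]
            intro h7
            have h8 : x j = x i := by rw [hj, ← h7, neg_neg]
            exact hij (hinj j i hj0 h8).symm
    intro z
    have h1 := LinearMap.congr_fun hid z
    rw [hΦ, LinearMap.id_apply] at h1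
    exact h1.symm

end

end Pool.Agent.Lib.MP_4322ef_CH
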