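import Pool.Agent.Lib.MP_4322ef_CH.T03

/-!
# The natural representation of the orthogonal and symplectic Lie algebras

* `qb_irr`: let `U` be stable under `g`, `U ≠ ⊥`. By `diag_mem` for `u i`, `U` is stable under
  `T z = ⟪u i, z⟫ u i - ⟪c (u i), z⟫ c (u i)` and `T²`, so `⟪u i, z⟫ u i ∈ U` and `⟪c (u i), z⟫ c (u i) ∈ U` for `z ∈ U`, hence by `exp` also
  `⟪w, z⟫ w ∈ U`. So `U` contains one of the vectors `b = u i`, `c (u i)`, `w` (`w ≠ 0`). It contains the other ones `b'`: if
  `⟪c b', b⟫ = 0` then `wd c e (c b) b' b = ⟪c (c b), b⟫ b' = e b'` (for `b = w`: `c b = b`); this is the case if `b' ≠ ± c b`.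
  `b' = c b`: via a third vector, or for `e = -1`: `wd c e (c b) (c b) b = 2 e (c b)` up to sign. Then `U = ⊤` by `exp`.
* `qb_wt`: `⟪b, v⟫ ≠ 0` for one of the vectors `b` (`exp`), and `wt_orth`.
* `qb_nat`, the extreme weights: `H₁ = ∑ j, t j • H j`, with the `H j` of `qb_H`, `t i = σ (n + 1)`, `t j = j + 1` for `j ≠ i`:
  regular by `qb_roots`, and the weights `± ep j`, `0` have values `≤ n + 1 = ⟪σ ep i, H₁⟫`; `hw_of_max`, `hw_ext`.
-/

set_option autoImplicit false

open scoped InnerProductSpace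

namespace Pool.Agent.Lib.MP_4322ef_CH

open Pool.Agent.Lib.MP_4322ef_al.SR

variable {g : Type} [NormedAddCommGroup g] [InnerProductSpace ℝ g] {L : RedLie g}

section
variable {J : CStr L} {E : Type} [NormedAddCommGroup E] [InnerProductSpace ℂ E]
variable {s : CRep J E} {c : E →ₗ⋆[ℂ] E} {e : ℝ}

theorem T04_ee (h : TypeQ s c e) : (e : ℂ) ≠ 0 := by
  intro h0
  have h1 := q_ee h
  rw [h0, mul_zero] at h1
  exact zero_ne_one h1

theorem T04_cc (h : TypeQ s c e) {C : CSub L} {n : ℕ} {ep : Fin n → g} {u : Fin n → E} {w : E}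
    (hb : QB C s c ep u w) (i j : Fin n) : ⟪c (u i), c (u j)⟫_ℂ = if i = j then 1 else 0 := by
  rw [h.iso, hb.uu]
  by_cases hij : i = j
  · rw [if_pos hij, if_pos hij.symm]
  · rw [if_neg hij, if_neg (Ne.symm hij)]

theorem T04_uc {C : CSub L} {n : ℕ} {ep : Fin n → g} {u : Fin n → E} {w : E}
    (hb : QB C s c ep u w) (i j : Fin n) : ⟪u i, c (u j)⟫_ℂ = 0 := by
  rw [← inner_conj_symm, hb.uc, map_zero]

theorem T04_cw (h : TypeQ s c e) {C : CSub L} {n : ℕ} {ep : Fin n → g} {u : Fin n → E} {w : E}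
    (hb : QB C s c ep u w) (i : Fin n) : ⟪c (u i), w⟫_ℂ = 0 := by
  rw [← hb.cw, h.iso, ← inner_conj_symm, hb.uw, map_zero]

theorem T04_wu {C : CSub L} {n : ℕ} {ep : Fin n → g} {u : Fin n → E} {w : E}
    (hb : QB C s c ep u w) (i : Fin n) : ⟪w, u i⟫_ℂ = 0 := by
  rw [← inner_conj_symm, hb.uw, map_zero]

theorem T04_w0 (h : TypeQ s c e) {C : CSub L} {n : ℕ} {ep : Fin n → g} {u : Fin n → E} {w : E}
    (hb : QB C s c ep u w) (hw : w ≠ 0) : e = 1 := by
  rcases h.sgn with h1 | h1
  · exact h1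
  · exfalso
    apply hw
    have h2 := h.sq w
    rw [hb.cw, hb.cw, h1] at h2
    have h3 : (2 : ℂ) • w = 0 := by
      rw [two_smul]
      nth_rewrite 1 [h2]
      push_cast
      module
    exact (smul_eq_zero.1 h3).resolve_left two_ne_zero

theorem qb_irr (h : TypeQ s c e) (C : CSub L) {n : ℕ} {ep : Fin n → g} {u : Fin n → E} {w : E}
    (hb : QB C s c ep u w) (hn : 2 ≤ n ∨ qm e w ≠ 0) : Irr s := by
  intro U hU
  by_contra hcon
  push Not at hcon
  apply hcon.2
  obtain ⟨x, hxU, hx0⟩ := (Submodule.ne_bot_iff U).1 hcon.1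
  have hwd : ∀ a b z, z ∈ U → wd c e a b z ∈ U := by
    intro a b z hz
    obtain ⟨A, hA⟩ := wd_mem h a b
    rw [← hA]
    exact hU A z hz
  have he := T04_ee h
  have hu : ∀ i, u i ∈ U → ∀ v, ⟪c v, u i⟫_ℂ = 0 → v ∈ U := by
    intro i hi v hv
    have h1 := hwd (c (u i)) v _ hi
    rw [wd_apply, h.sq, hv, mul_zero, zero_smul, sub_zero, inner_smul_left, Complex.conj_ofReal,
      hb.uu, if_pos rfl, mul_one] at h1
    exact (U.smul_mem_iff he).1 h1
  have hc : ∀ i, c (u i) ∈ U → ∀ v, ⟪u i, v⟫_ℂ = 0 → v ∈ U := by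
    intro i hi v hv
    have h1 := hwd (u i) v _ hi
    rw [wd_apply, T04_cc h hb, if_pos rfl, one_smul, h.iso, hv, mul_zero, zero_smul,
      sub_zero] at h1
    exact h1
  have hw : w ≠ 0 → w ∈ U → ∀ v, ⟪c v, w⟫_ℂ = 0 → v ∈ U := by
    intro hw0 hi v hv
    have h1 := hwd w v _ hi
    rw [wd_apply, hb.cw, hb.ww.resolve_left hw0, one_smul, hv, mul_zero, zero_smul,
      sub_zero] at h1
    exact h1
  -- all vectors
  have hall : (∀ i, u i ∈ U) ∧ (∀ i, c (u i) ∈ U) ∧ w ∈ U := by
    have hstart : (∃ i, u i ∈ U ∨ c (u i) ∈ U) ∨ (w ≠ 0 ∧ w ∈ U) := by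
      by_contra hno
      push Not at hno
      have hco : ∀ i, ⟪u i, x⟫_ℂ • u i ∈ U ∧ ⟪c (u i), x⟫_ℂ • c (u i) ∈ U := by
        intro i
        obtain ⟨H, hH, hT⟩ := diag_mem h C (hb.wt i)
        have h1 := hU H x hxU
        have h2 := hU H _ h1
        rw [hT x] at h1 h2
        have h3 : s.op H (⟪u i, x⟫_ℂ • u i - ⟪c (u i), x⟫_ℂ • c (u i)) =
            ⟪u i, x⟫_ℂ • u i + ⟪c (u i), x⟫_ℂ • c (u i) := by
          rw [hT, inner_sub_right, inner_sub_right, inner_smul_right, inner_smul_right,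
            inner_smul_right, inner_smul_right, hb.uu, if_pos rfl, T04_uc hb, hb.uc, T04_cc h hb,
            if_pos rfl]
          module
        rw [h3] at h2
        constructor
        · have h4 := U.smul_mem (1 / 2 : ℂ) (U.add_mem h1 h2)
          have h5 : (1 / 2 : ℂ) • (⟪u i, x⟫_ℂ • u i - ⟪c (u i), x⟫_ℂ • c (u i) +
              (⟪u i, x⟫_ℂ • u i + ⟪c (u i), x⟫_ℂ • c (u i))) = ⟪u i, x⟫_ℂ • u i := by module
          rwa [h5] at h4
        · have h4 := U.smul_mem (1 / 2 : ℂ) (U.sub_mem h2 h1)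
          have h5 : (1 / 2 : ℂ) • ((⟪u i, x⟫_ℂ • u i + ⟪c (u i), x⟫_ℂ • c (u i)) -
              (⟪u i, x⟫_ℂ • u i - ⟪c (u i), x⟫_ℂ • c (u i))) = ⟪c (u i), x⟫_ℂ • c (u i) := by module
          rwa [h5] at h4
      have h0 : ∀ i, ⟪u i, x⟫_ℂ = 0 ∧ ⟪c (u i), x⟫_ℂ = 0 := by
        intro i
        constructor
        · by_contra hne
          exact (hno.1 i).1 ((U.smul_mem_iff hne).1 (hco i).1)
        · by_contra hne
          exact (hno.1 i).2 ((U.smul_mem_iff hne).1 (hco i).2)
      have h1 := hb.exp x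
      rw [Finset.sum_eq_zero fun i _ => by rw [(h0 i).1, zero_smul],
        Finset.sum_eq_zero fun i _ => by rw [(h0 i).2, zero_smul], zero_add, zero_add] at h1
      have h2 : ⟪w, x⟫_ℂ ≠ 0 := by
        intro h3
        apply hx0
        rw [h1, h3, zero_smul]
      have h3 : w ≠ 0 := by
        rintro rfl
        exact h2 (inner_zero_left _)
      refine hno.2 h3 ?_
      rw [h1] at hxU
      exact (U.smul_mem_iff h2).1 hxU
    have hccu : ∀ i j, ⟪c (c (u i)), u j⟫_ℂ = (e : ℂ) * if i = j then 1 else 0 := by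
      intro i j
      rw [h.sq, inner_smul_left, Complex.conj_ofReal, hb.uu]
    by_cases hw0 : w = 0
    · have hwU : w ∈ U := by
        rw [hw0]
        exact U.zero_mem
      have hst : ∃ i, u i ∈ U ∨ c (u i) ∈ U := hstart.resolve_right fun h1 => h1.1 hw0
      obtain ⟨i, hi⟩ := hst
      by_cases h2n : 2 ≤ n
      · obtain ⟨j, hj⟩ : ∃ j : Fin n, j ≠ i := by
          have : Nontrivial (Fin n) := Fin.nontrivial_iff_two_le.2 h2n
          exact exists_ne i
        have step : ∀ k, u k ∈ U ∨ c (u k) ∈ U → ∀ l, l ≠ k → u l ∈ U ∧ c (u l) ∈ U := by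
          rintro k (hk | hk) l hl
          · exact ⟨hu k hk _ (hb.uc _ _), hu k hk _ (by rw [hccu, if_neg hl, mul_zero])⟩
          · exact ⟨hc k hk _ (by rw [hb.uu, if_neg (Ne.symm hl)]), hc k hk _ (T04_uc hb _ _)⟩
        have hjU := step i hi j hj
        have hiU := step j (Or.inl hjU.1) i (Ne.symm hj)
        refine ⟨fun l => ?_, fun l => ?_, hwU⟩
        · by_cases hl : l = i
          · rw [hl]
            exact hiU.1
          · exact (step i hi l hl).1
        · by_cases hl : l = i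
          · rw [hl]
            exact hiU.2
          · exact (step i hi l hl).2
      · have he1 : e = -1 := by
          have h3 := hn.resolve_left h2n
          by_contra h4
          apply h3
          rw [qm, if_pos (h.sgn.resolve_right h4), if_pos hw0]
        have hboth : u i ∈ U ∧ c (u i) ∈ U := by
          rcases hi with hi | hi
          · refine ⟨hi, ?_⟩
            have h3 := hwd (c (u i)) (c (u i)) _ hi
            rw [wd_apply, hccu, if_pos rfl, mul_one, he1] at h3
            have h4 : (((-1 : ℝ) : ℂ)) • c (u i) - (((-1 : ℝ) : ℂ) * ((-1 : ℝ) : ℂ)) • c (u i) =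
                (-2 : ℂ) • c (u i) := by
              push_cast
              module
            rw [h4] at h3
            exact (U.smul_mem_iff (by norm_num)).1 h3
          · refine ⟨?_, hi⟩
            have h3 := hwd (u i) (u i) _ hi
            rw [wd_apply, T04_cc h hb, if_pos rfl, mul_one, he1] at h3
            have h4 : (1 : ℂ) • u i - (((-1 : ℝ) : ℂ)) • u i = (2 : ℂ) • u i := by
              push_cast
              module
            rw [h4] at h3
            exact (U.smul_mem_iff (by norm_num)).1 h3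
        have hl : ∀ l : Fin n, l = i := by
          intro l
          have := i.isLt
          have := l.isLt
          apply Fin.ext
          omega
        exact ⟨fun l => by rw [hl l]; exact hboth.1, fun l => by rw [hl l]; exact hboth.2, hwU⟩
    · have hwU : w ∈ U := by
        rcases hstart with ⟨i, hi | hi⟩ | h1
        · exact hu i hi _ (by rw [hb.cw, T04_wu hb])
        · exact hc i hi _ (hb.uw i)
        · exact h1.2
      refine ⟨fun i => hw hw0 hwU _ (T04_cw h hb i), fun i => hw hw0 hwU _ ?_, hwU⟩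
      rw [h.sq, inner_smul_left, hb.uw, mul_zero]
  rw [eq_top_iff]
  intro z _
  rw [hb.exp z]
  exact U.add_mem (U.add_mem (U.sum_mem fun i _ => U.smul_mem _ (hall.1 i))
    (U.sum_mem fun i _ => U.smul_mem _ (hall.2.1 i))) (U.smul_mem _ hall.2.2)

theorem qb_wt (h : TypeQ s c e) (C : CSub L) {n : ℕ} {ep : Fin n → g} {u : Fin n → E} {w : E}
    (hb : QB C s c ep u w) {lam : g} (hl : IsW s C.a lam) :
    (lam = 0 ∧ w ≠ 0) ∨ ∃ i, ∃ σ : ℝ, |σ| = 1 ∧ lam = σ • ep i := by
  obtain ⟨hla, v, hv0, hv⟩ := hl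
  by_contra hcon
  push Not at hcon
  apply hv0
  have h1 : ∀ i, ⟪u i, v⟫_ℂ = 0 := fun i => by
    refine wt_orth s C (hb.mem i) hla (hb.wt i) hv ?_
    rintro rfl
    exact hcon.2 i 1 (by simp) (by simp)
  have h2 : ∀ i, ⟪c (u i), v⟫_ℂ = 0 := fun i => by
    refine wt_orth s C (C.a.neg_mem (hb.mem i)) hla (q_cwt h C (hb.wt i)) hv ?_
    rintro rfl
    exact hcon.2 i (-1) (by simp) (by simp)
  have h3 : ⟪w, v⟫_ℂ • w = 0 := by
    by_cases hw : w = 0
    · rw [hw, smul_zero]
    · have h4 : lam ≠ 0 := fun h5 => hw (hcon.1 h5)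
      rw [wt_orth s C C.a.zero_mem hla hb.wt0 hv (Ne.symm h4), zero_smul]
  rw [hb.exp v, Finset.sum_eq_zero fun i _ => by rw [h1 i, zero_smul],
    Finset.sum_eq_zero fun i _ => by rw [h2 i, zero_smul], h3, add_zero, add_zero]

theorem qb_nat [FiniteDimensional ℝ g] (h : TypeQ s c e) (C : CSub L) {n : ℕ} {ep : Fin n → g}
    {u : Fin n → E} {w : E} (hb : QB C s c ep u w) (hn : 2 ≤ n ∨ qm e w ≠ 0) :
    NatMod C.a s ep := by
  refine ⟨qb_irr h C hb hn, ?_, ?_⟩
  · intro i σ hσ
    choose H hH hHe using qb_H h C hb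
    let t : Fin n → ℝ := fun j => if j = i then σ * (n + 1) else (j : ℝ) + 1
    let H₁ : g := ∑ j, t j • H j
    have hval : ∀ k, ⟪ep k, H₁⟫_ℝ = t k := by
      intro k
      show ⟪ep k, ∑ j, t j • H j⟫_ℝ = t k
      rw [inner_sum, Finset.sum_eq_single k]
      · rw [real_inner_smul_right, hHe, if_pos rfl, mul_one]
      · intro j _ hj
        rw [real_inner_smul_right, hHe, if_neg (Ne.symm hj), mul_zero]
      · intro h1
        exact absurd (Finset.mem_univ _) h1
    have habs : ∀ k, |t k| = if k = i then (n : ℝ) + 1 else (k : ℝ) + 1 := by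
      intro k
      simp only [t]
      by_cases hk : k = i
      · rw [if_pos hk, if_pos hk, abs_mul, hσ, one_mul, abs_of_pos (by positivity)]
      · rw [if_neg hk, if_neg hk, abs_of_pos (by positivity)]
    have hlt : ∀ k : Fin n, (k : ℝ) + 1 ≤ n := by
      intro k
      have h1 : (k : ℕ) + 1 ≤ n := k.isLt
      exact_mod_cast h1
    have hpos : ∀ k, 0 < |t k| := by
      intro k
      rw [habs]
      split_ifs <;> positivity
    have hne : ∀ k l, k ≠ l → |t k| ≠ |t l| := by
      intro k l hkl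
      rw [habs, habs]
      by_cases hk : k = i
      · have hl : l ≠ i := fun h1 => hkl (by rw [hk, h1])
        rw [if_pos hk, if_neg hl]
        have := hlt l
        intro h1
        linarith
      · rw [if_neg hk]
        by_cases hl : l = i
        · rw [if_pos hl]
          have := hlt k
          intro h1
          linarith
        · rw [if_neg hl]
          intro h1
          apply hkl
          apply Fin.ext
          have h2 : ((k : ℕ) : ℝ) = ((l : ℕ) : ℝ) := by linarith
          exact_mod_cast h2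
    have hH₁ : H₁ ∈ C.a := C.a.sum_mem fun j _ => C.a.smul_mem _ (hH j)
    have hreg : Reg L C.a H₁ := by
      refine ⟨hH₁, fun al ha => ?_⟩
      rcases (qb_roots h C hb al).1 ha with ⟨k, l, σ', τ, hkl, hσ', hτ, rfl⟩ | ⟨k, σ', hm, hσ', rfl⟩
      · rw [inner_add_left, real_inner_smul_left, real_inner_smul_left, hval, hval]
        intro h1
        apply hne k l hkl
        have h2 : σ' * t k = -(τ * t l) := by linarith
        have h3 := congrArg abs h2
        rw [abs_neg, abs_mul, abs_mul, hσ', hτ, one_mul, one_mul] at h3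
        exact h3
      · rw [real_inner_smul_left, hval]
        refine mul_ne_zero ?_ (abs_pos.1 (hpos k))
        rintro rfl
        rw [abs_zero] at hσ'
        exact hm (by exact_mod_cast hσ'.symm)
    have hbe : σ • ep i ∈ C.a := C.a.smul_mem _ (hb.mem i)
    have hmax : ∀ lam, IsW s C.a lam → ⟪lam, H₁⟫_ℝ ≤ ⟪σ • ep i, H₁⟫_ℝ := by
      intro lam hl
      have h1 : ⟪σ • ep i, H₁⟫_ℝ = n + 1 := by
        rw [real_inner_smul_left, hval]
        simp only [t, if_pos]
        rw [← mul_assoc, ← abs_mul_abs_self σ, hσ]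
        ring
      rw [h1]
      rcases qb_wt h C hb hl with h2 | ⟨k, σ', hσ', rfl⟩
      · rw [h2.1, inner_zero_left]
        positivity
      · rw [real_inner_smul_left, hval]
        refine (le_abs_self _).trans ?_
        rw [abs_mul, hσ', one_mul, habs]
        split_ifs
        · exact le_rfl
        · have := hlt k
          linarith
    have hvec : ∃ v, v ≠ 0 ∧ WV s C.a (σ • ep i) v := by
      rcases (abs_eq zero_le_one).1 hσ with h1 | h1
      · refine ⟨u i, fun h2 => ?_, ?_⟩
        · have h3 := hb.uu i i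
          rw [h2, inner_zero_left, if_pos rfl] at h3
          exact zero_ne_one h3
        · rw [h1, one_smul]
          exact hb.wt i
      · refine ⟨c (u i), fun h2 => ?_, ?_⟩
        · have h3 := T04_cc h hb i i
          rw [h2, inner_zero_left, if_pos rfl] at h3
          exact zero_ne_one h3
        · rw [h1, neg_one_smul]
          exact q_cwt h C (hb.wt i)
    obtain ⟨v, hv0, hv⟩ := hvec
    exact hw_ext s C hreg (hw_of_max s C hH₁ hbe hv0 hv hmax)
  · rintro lam ⟨hla, v, -, hv0, hv⟩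
    have h1 : IsW s C.a lam := ⟨hla, v, hv0, fun H hH => K01_wt s (hv H hH)⟩
    rcases qb_wt h C hb h1 with h2 | h2
    · exact Or.inl h2.1
    · exact Or.inr h2

end

end Pool.Agent.Lib.MP_4322ef_CH
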