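import Mathlib

/-!
# The fermionic Fock space

`(cr i f) I = ± f (I \ i)` for `i ∈ I` (creation), `(an i f) I = ± f (I ∪ i)` for `i ∉ I` (annihilation), the sign
being `sg i I = (-1) ^ (number of the j ∈ I with j < i)`. For `i ≠ j`:
`sg i (insert j I) = - sg i I` if `j < i`, `j ∉ I`, and `sg i (insert j I) = sg i I` if `i < j`; the same for `erase`;
`sg i (insert i I) = sg i I`.
-/

set_option autoImplicit false

open scoped InnerProductSpace

namespace Pool.Agent.Lib.MP_4322ef_CH

/-- the Fock space -/
abbrev Fock (n : ℕ) : Type := EuclideanSpace ℂ (Finset (Fin n))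

/-- the sign -/
noncomputable def sg {n : ℕ} (i : Fin n) (I : Finset (Fin n)) : ℂ :=
  (-1) ^ (I.filter (fun j => j < i)).card

/-- the creation operator -/
noncomputable def cr {n : ℕ} (i : Fin n) : Fock n →ₗ[ℂ] Fock n where
  toFun f := WithLp.toLp 2 fun I => if i ∈ I then sg i I * f (I.erase i) else 0
  map_add' f h := by
    ext I
    simp only [PiLp.add_apply]
    split_ifs <;> ring
  map_smul' k f := by
    ext I
    simp only [PiLp.smul_apply, smul_eq_mul, RingHom.id_apply]
    split_ifs <;> ring

/-- the annihilation operator -/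
noncomputable def an {n : ℕ} (i : Fin n) : Fock n →ₗ[ℂ] Fock n where
  toFun f := WithLp.toLp 2 fun I => if i ∈ I then 0 else sg i I * f (insert i I)
  map_add' f h := by
    ext I
    simp only [PiLp.add_apply]
    split_ifs <;> ring
  map_smul' k f := by
    ext I
    simp only [PiLp.smul_apply, smul_eq_mul, RingHom.id_apply]
    split_ifs <;> ring

/-- the parity operator -/
noncomputable def par {n : ℕ} : Fock n →ₗ[ℂ] Fock n where
  toFun f := WithLp.toLp 2 fun I => (-1) ^ I.card * f I
  map_add' f h := by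
    ext I
    simp only [PiLp.add_apply]
    ring
  map_smul' k f := by
    ext I
    simp only [PiLp.smul_apply, smul_eq_mul, RingHom.id_apply]
    ring

/-- the basis vector of `I` -/
noncomputable def vac {n : ℕ} (I : Finset (Fin n)) : Fock n := EuclideanSpace.single I 1

theorem sg_sq {n : ℕ} (i : Fin n) (I : Finset (Fin n)) : sg i I * sg i I = 1 := by
  unfold sg
  rw [← pow_add, ← two_mul]
  exact Even.neg_one_pow (even_two_mul _)

theorem sg_insert_lt {n : ℕ} {i j : Fin n} {I : Finset (Fin n)} (h : j < i) (hj : j ∉ I) :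
    sg i (insert j I) = - sg i I := by
  unfold sg
  rw [Finset.filter_insert, if_pos h, Finset.card_insert_of_notMem, pow_succ]
  · ring
  · exact fun h' => hj (Finset.mem_filter.1 h').1

theorem sg_insert_ge {n : ℕ} {i j : Fin n} {I : Finset (Fin n)} (h : ¬ j < i) :
    sg i (insert j I) = sg i I := by
  unfold sg
  rw [Finset.filter_insert, if_neg h]

theorem sg_erase_lt {n : ℕ} {i j : Fin n} {I : Finset (Fin n)} (h : j < i) (hj : j ∈ I) :
    sg i (I.erase j) = - sg i I := by
  have h1 := sg_insert_lt h (Finset.notMem_erase j I)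
  rw [Finset.insert_erase hj] at h1
  rw [h1, neg_neg]

theorem sg_erase_ge {n : ℕ} {i j : Fin n} {I : Finset (Fin n)} (h : ¬ j < i) :
    sg i (I.erase j) = sg i I := by
  by_cases hj : j ∈ I
  · have h1 := sg_insert_ge (I := I.erase j) h
    rw [Finset.insert_erase hj] at h1
    exact h1.symm
  · rw [Finset.erase_eq_of_notMem hj]

theorem cr_apply {n : ℕ} (i : Fin n) (f : Fock n) (I : Finset (Fin n)) :
    cr i f I = if i ∈ I then sg i I * f (I.erase i) else 0 := rfl

theorem an_apply {n : ℕ} (i : Fin n) (f : Fock n) (I : Finset (Fin n)) :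
    an i f I = if i ∈ I then 0 else sg i I * f (insert i I) := rfl

theorem par_apply {n : ℕ} (f : Fock n) (I : Finset (Fin n)) :
    par f I = (-1) ^ I.card * f I := rfl

theorem cr_cr {n : ℕ} (i j : Fin n) (f : Fock n) : cr i (cr j f) + cr j (cr i f) = 0 := by
  ext I
  rw [PiLp.add_apply, PiLp.zero_apply, cr_apply, cr_apply, cr_apply, cr_apply]
  rcases eq_or_ne i j with hij | hij
  · subst hij
    simp
  · by_cases hi : i ∈ I
    · by_cases hj : j ∈ I
      · rw [if_pos hi, if_pos hj, if_pos (Finset.mem_erase.2 ⟨hij.symm, hj⟩),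
          if_pos (Finset.mem_erase.2 ⟨hij, hi⟩), Finset.erase_right_comm]
        rcases lt_or_gt_of_ne hij with h | h
        · rw [sg_erase_lt h hi, sg_erase_ge (not_lt.2 h.le)]
          ring
        · rw [sg_erase_lt h hj, sg_erase_ge (not_lt.2 h.le)]
          ring
      · rw [if_neg hj, if_pos hi, if_neg (fun h' => hj (Finset.mem_erase.1 h').2)]
        ring
    · rw [if_neg hi]
      by_cases hj : j ∈ I
      · rw [if_pos hj, if_neg (fun h' => hi (Finset.mem_erase.1 h').2)]
        ring
      · rw [if_neg hj]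
        ring

theorem an_an {n : ℕ} (i j : Fin n) (f : Fock n) : an i (an j f) + an j (an i f) = 0 := by
  ext I
  rw [PiLp.add_apply, PiLp.zero_apply, an_apply, an_apply, an_apply, an_apply]
  rcases eq_or_ne i j with hij | hij
  · subst hij
    simp
  · by_cases hi : i ∈ I
    · rw [if_pos hi, if_pos (Finset.mem_insert_of_mem hi)]
      simp
    · by_cases hj : j ∈ I
      · rw [if_neg hi, if_pos hj, if_pos (Finset.mem_insert_of_mem hj)]
        simp
      · rw [if_neg hi, if_neg hj, if_neg, if_neg, Finset.insert_comm]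
        · rcases lt_or_gt_of_ne hij with h | h
          · rw [sg_insert_lt h hi, sg_insert_ge (not_lt.2 h.le)]
            ring
          · rw [sg_insert_lt h hj, sg_insert_ge (not_lt.2 h.le)]
            ring
        · rw [Finset.mem_insert, not_or]
          exact ⟨hij, hi⟩
        · rw [Finset.mem_insert, not_or]
          exact ⟨hij.symm, hj⟩

theorem cr_an {n : ℕ} (i j : Fin n) (f : Fock n) :
    cr i (an j f) + an j (cr i f) = if i = j then f else 0 := by
  ext I
  rw [PiLp.add_apply, cr_apply, an_apply, an_apply, cr_apply]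
  rcases eq_or_ne i j with hij | hij
  · subst hij
    rw [if_pos rfl]
    by_cases hi : i ∈ I
    · rw [if_pos hi, if_pos hi, if_neg (Finset.notMem_erase i I), Finset.insert_erase hi,
        sg_erase_ge (lt_irrefl i), ← mul_assoc, sg_sq]
      ring
    · rw [if_neg hi, if_neg hi, if_pos (Finset.mem_insert_self i I), Finset.erase_insert hi,
        sg_insert_ge (lt_irrefl i), ← mul_assoc, sg_sq]
      ring
  · rw [if_neg hij, PiLp.zero_apply]
    by_cases hi : i ∈ I
    · by_cases hj : j ∈ I
      · rw [if_pos hi, if_pos hj, if_pos (Finset.mem_erase.2 ⟨hij.symm, hj⟩)]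
        ring
      · rw [if_pos hi, if_neg hj, if_neg (fun h' => hj (Finset.mem_erase.1 h').2),
          if_pos (Finset.mem_insert_of_mem hi), Finset.erase_insert_of_ne hij.symm]
        rcases lt_or_gt_of_ne hij with h | h
        · rw [sg_erase_lt h hi, sg_insert_ge (not_lt.2 h.le)]
          ring
        · rw [sg_erase_ge (not_lt.2 h.le), sg_insert_lt h hj]
          ring
    · rw [if_neg hi, if_neg (c := i ∈ insert j I)]
      · by_cases hj : j ∈ I
        · rw [if_pos hj]
          ring
        · rw [if_neg hj]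
          ring
      · rw [Finset.mem_insert, not_or]
        exact ⟨hij, hi⟩

theorem par_par {n : ℕ} (f : Fock n) : par (par f) = f := by
  ext I
  rw [par_apply, par_apply, ← mul_assoc, ← pow_add, ← two_mul, Even.neg_one_pow (even_two_mul _),
    one_mul]

theorem par_cr {n : ℕ} (i : Fin n) (f : Fock n) : cr i (par f) + par (cr i f) = 0 := by
  ext I
  rw [PiLp.add_apply, PiLp.zero_apply, cr_apply, par_apply, par_apply, cr_apply]
  by_cases hi : i ∈ I
  · rw [if_pos hi, if_pos hi, ← Finset.card_erase_add_one hi, pow_succ]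
    ring
  · rw [if_neg hi, if_neg hi]
    ring

theorem par_an {n : ℕ} (i : Fin n) (f : Fock n) : an i (par f) + par (an i f) = 0 := by
  ext I
  rw [PiLp.add_apply, PiLp.zero_apply, an_apply, par_apply, par_apply, an_apply]
  by_cases hi : i ∈ I
  · rw [if_pos hi, if_pos hi]
    ring
  · rw [if_neg hi, if_neg hi, Finset.card_insert_of_notMem hi, pow_succ]
    ring

theorem sg_conj {n : ℕ} (i : Fin n) (I : Finset (Fin n)) : (starRingEnd ℂ) (sg i I) = sg i I := by
  unfold sg
  simp

theorem cr_adj {n : ℕ} (i : Fin n) (f h : Fock n) : ⟪cr i f, h⟫_ℂ = ⟪f, an i h⟫_ℂ := by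
  rw [PiLp.inner_apply, PiLp.inner_apply]
  have e1 : ∀ I : Finset (Fin n), ⟪cr i f I, h I⟫_ℂ =
      if i ∈ I then sg i I * ((starRingEnd ℂ) (f (I.erase i)) * h I) else 0 := by
    intro I
    rw [cr_apply]
    by_cases hi : i ∈ I
    · rw [if_pos hi, if_pos hi, RCLike.inner_apply, map_mul, sg_conj]
      ring
    · rw [if_neg hi, if_neg hi, inner_zero_left]
  have e2 : ∀ I : Finset (Fin n), ⟪f I, an i h I⟫_ℂ =
      if i ∈ I then 0 else sg i I * ((starRingEnd ℂ) (f I) * h (insert i I)) := by
    intro I
    rw [an_apply]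
    by_cases hi : i ∈ I
    · rw [if_pos hi, if_pos hi, inner_zero_right]
    · rw [if_neg hi, if_neg hi, RCLike.inner_apply]
      ring
  rw [Finset.sum_congr rfl (fun I _ => e1 I), Finset.sum_congr rfl (fun I _ => e2 I)]
  have e3 : ∀ I : Finset (Fin n), (if i ∈ I then (0 : ℂ) else
      sg i I * ((starRingEnd ℂ) (f I) * h (insert i I))) =
      if ¬ (i ∈ I) then sg i I * ((starRingEnd ℂ) (f I) * h (insert i I)) else 0 := by
    intro I
    by_cases hi : i ∈ I
    · rw [if_pos hi, if_neg (not_not.2 hi)]
    · rw [if_neg hi, if_pos hi]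
  rw [Finset.sum_congr rfl (fun I _ => e3 I), ← Finset.sum_filter, ← Finset.sum_filter]
  refine Finset.sum_bij' (fun I _ => I.erase i) (fun I _ => insert i I) ?_ ?_ ?_ ?_ ?_
  · intro I hI
    rw [Finset.mem_filter]
    exact ⟨Finset.mem_univ _, Finset.notMem_erase i I⟩
  · intro I hI
    rw [Finset.mem_filter]
    exact ⟨Finset.mem_univ _, Finset.mem_insert_self i I⟩
  · intro I hI
    exact Finset.insert_erase (Finset.mem_filter.1 hI).2
  · intro I hI
    exact Finset.erase_insert (Finset.mem_filter.1 hI).2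
  · intro I hI
    show _ = sg i (I.erase i) * ((starRingEnd ℂ) (f (I.erase i)) * h (insert i (I.erase i)))
    rw [Finset.insert_erase (Finset.mem_filter.1 hI).2, sg_erase_ge (lt_irrefl i)]

theorem an_adj {n : ℕ} (i : Fin n) (f h : Fock n) : ⟪an i f, h⟫_ℂ = ⟪f, cr i h⟫_ℂ := by
  rw [← inner_conj_symm, ← cr_adj, inner_conj_symm]

theorem par_adj {n : ℕ} (f h : Fock n) : ⟪par f, h⟫_ℂ = ⟪f, par h⟫_ℂ := by
  rw [PiLp.inner_apply, PiLp.inner_apply]
  refine Finset.sum_congr rfl fun I _ => ?_
  rw [par_apply, par_apply, RCLike.inner_apply, RCLike.inner_apply, map_mul, map_pow, map_neg,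
    map_one]
  ring

theorem cr_an_vac {n : ℕ} (i : Fin n) (I : Finset (Fin n)) :
    cr i (an i (vac I)) - an i (cr i (vac I)) = (if i ∈ I then (1 : ℂ) else -1) • vac I := by
  ext K
  rw [PiLp.sub_apply, PiLp.smul_apply, cr_apply, an_apply, an_apply, cr_apply, smul_eq_mul]
  have ev : ∀ M : Finset (Fin n), vac I M = if M = I then 1 else 0 := by
    intro M
    unfold vac
    rw [PiLp.single_apply]
  by_cases hK : i ∈ K
  · rw [if_pos hK, if_pos hK, if_neg (Finset.notMem_erase i K), Finset.insert_erase hK,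
      sg_erase_ge (lt_irrefl i), ← mul_assoc, sg_sq, one_mul, sub_zero, ev]
    by_cases hKI : K = I
    · subst hKI
      rw [if_pos hK]
      simp
    · rw [if_neg hKI]
      simp
  · rw [if_neg hK, if_neg hK, if_pos (Finset.mem_insert_self i K), Finset.erase_insert hK,
      sg_insert_ge (lt_irrefl i), ← mul_assoc, sg_sq, one_mul, zero_sub, ev]
    by_cases hKI : K = I
    · subst hKI
      rw [if_neg hK]
      simp
    · rw [if_neg hKI]
      simp

end Pool.Agent.Lib.MP_4322ef_CH
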