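import Pool.Agent.Lib.MP_4322ef_CH.T01

/-!
# The spin representation from a Clifford module

`Q(x, y) = ⟪c x, y⟫`, `e = 1`: symmetric (`q_symm`). `b` is a family with `∑ ⟪b k, x⟫ b k = x` for all `x` (`hb`); applying
`c`: `∑ ⟪c (b k), x⟫ c (b k) = x`. Put `R A = (1 / 4) ∑ k, [γ (A (b k)), γ (c (b k))]` (`A x` for `s.op A x`).

* `[γ x γ y, γ z] = Q(y, z) γ x - Q(x, z) γ y` (`Clif.ac`), so `[R A, γ z] = γ (A z)`: use
  `∑ Q(c (b k), z) b k = z` and `∑ Q(A (b k), z) c (b k) = -∑ Q(b k, A z) c (b k) = -A z`.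
* tensor identity: for a bilinear `F`, `∑ F(B (b k), A (c (b k))) = -∑ F(B (A (b k)), c (b k))`: expand
  `A (c (b k)) = ∑ l, ⟪c (b l), A (c (b k))⟫ c (b l)` and `⟪c (b l), A (c (b k))⟫ = -⟪c (A (b l)), c (b k)⟫ = -⟪b k, A (b l)⟫`.
* bracket: `[R A, R B] = (1/4) ∑ [R A, [γ (B (b k)), γ (c (b k))]]
  = (1/4) ∑ ([γ (A (B (b k))), γ (c (b k))] + [γ (B (b k)), γ (A (c (b k)))])` and the tensor identity.
* adjoint: `(R A)^* = (1/4) ∑ [γ (c (c (b k))), γ (c (A (b k)))] = (1/4) ∑ [γ (b k), γ ((θ A) (c (b k)))]` (`Clif.adj`, `q_cop`),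
  and by the tensor identity (`B = 1`) this is `-R (θ A)`.
-/

set_option autoImplicit false

open scoped InnerProductSpace

namespace Pool.Agent.Lib.MP_4322ef_CH

open Pool.Agent.Lib.MP_4322ef_al.SR

variable {g : Type} [NormedAddCommGroup g] [InnerProductSpace ℝ g] {L : RedLie g}

/-- a Clifford module with a compatible inner product -/
structure Clif {E : Type} [NormedAddCommGroup E] [InnerProductSpace ℂ E] (c : E →ₗ⋆[ℂ] E)
    {S : Type} [NormedAddCommGroup S] [InnerProductSpace ℂ S] (γ : E →ₗ[ℂ] S →ₗ[ℂ] S) : Prop where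
  ac : ∀ x y f, γ x (γ y f) + γ y (γ x f) = ⟪c x, y⟫_ℂ • f
  adj : ∀ x f h, ⟪γ x f, h⟫_ℂ = ⟪f, γ (c x) h⟫_ℂ

section
variable {E : Type} [NormedAddCommGroup E] [InnerProductSpace ℂ E]
  {S : Type} [NormedAddCommGroup S] [InnerProductSpace ℂ S]

/-- the commutator of `γ x` and `γ y` -/
noncomputable def T06_K (γ : E →ₗ[ℂ] S →ₗ[ℂ] S) : E →ₗ[ℂ] E →ₗ[ℂ] (S →ₗ[ℂ] S) :=
  LinearMap.mk₂ ℂ (fun x y => γ x ∘ₗ γ y - γ y ∘ₗ γ x)
    (fun x x' y => by rw [map_add, LinearMap.add_comp, LinearMap.comp_add]; abel)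
    (fun k x y => by rw [map_smul, LinearMap.smul_comp, LinearMap.comp_smul, smul_sub])
    (fun x y y' => by rw [map_add, LinearMap.add_comp, LinearMap.comp_add]; abel)
    (fun k x y => by rw [map_smul, LinearMap.smul_comp, LinearMap.comp_smul, smul_sub])

theorem T06_K_apply (γ : E →ₗ[ℂ] S →ₗ[ℂ] S) (x y : E) (f : S) :
    T06_K γ x y f = γ x (γ y f) - γ y (γ x f) := rfl

/-- the operator of the spin representation -/
noncomputable def T06_R (γ : E →ₗ[ℂ] S →ₗ[ℂ] S) (c : E →ₗ⋆[ℂ] E) {ι : Type} [Fintype ι] (b : ι → E)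
    (T : E →ₗ[ℂ] E) : S →ₗ[ℂ] S := (1 / 4 : ℂ) • ∑ k, T06_K γ (T (b k)) (c (b k))

theorem T06_R_apply (γ : E →ₗ[ℂ] S →ₗ[ℂ] S) (c : E →ₗ⋆[ℂ] E) {ι : Type} [Fintype ι] (b : ι → E)
    (T : E →ₗ[ℂ] E) (f : S) :
    T06_R γ c b T f = (1 / 4 : ℂ) • ∑ k, T06_K γ (T (b k)) (c (b k)) f := by
  rw [T06_R, LinearMap.smul_apply, LinearMap.sum_apply]

theorem T06_R_add (γ : E →ₗ[ℂ] S →ₗ[ℂ] S) (c : E →ₗ⋆[ℂ] E) {ι : Type} [Fintype ι] (b : ι → E)
    (T T' : E →ₗ[ℂ] E) : T06_R γ c b (T + T') = T06_R γ c b T + T06_R γ c b T' := by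
  simp only [T06_R, LinearMap.add_apply, map_add, Finset.sum_add_distrib, smul_add]

theorem T06_R_smul (γ : E →ₗ[ℂ] S →ₗ[ℂ] S) (c : E →ₗ⋆[ℂ] E) {ι : Type} [Fintype ι] (b : ι → E)
    (z : ℂ) (T : E →ₗ[ℂ] E) : T06_R γ c b (z • T) = z • T06_R γ c b T := by
  simp only [T06_R, LinearMap.smul_apply, map_smul, ← Finset.smul_sum]
  rw [smul_comm]

theorem T06_ac3 {c : E →ₗ⋆[ℂ] E} {γ : E →ₗ[ℂ] S →ₗ[ℂ] S} (hγ : Clif c γ) (x y z : E) (f : S) :
    γ x (γ y (γ z f)) - γ z (γ x (γ y f)) = ⟪c y, z⟫_ℂ • γ x f - ⟪c x, z⟫_ℂ • γ y f := by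
  have h1 := congrArg (γ x) (hγ.ac y z f)
  rw [map_add, map_smul] at h1
  have h2 := hγ.ac x z (γ y f)
  rw [← h1, ← h2]
  abel

end

section
variable {J : CStr L} {E : Type} [NormedAddCommGroup E] [InnerProductSpace ℂ E]
variable {s : CRep J E} {c : E →ₗ⋆[ℂ] E}
variable {S : Type} [NormedAddCommGroup S] [InnerProductSpace ℂ S] {γ : E →ₗ[ℂ] S →ₗ[ℂ] S}

theorem T06_cc (h : TypeQ s c 1) (x : E) : c (c x) = x := by
  rw [h.sq, Complex.ofReal_one, one_smul]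

theorem T06_exp (h : TypeQ s c 1) {ι : Type} [Fintype ι] {b : ι → E}
    (hb : ∀ x, ∑ k, ⟪b k, x⟫_ℂ • b k = x) (x : E) : ∑ k, ⟪c (b k), x⟫_ℂ • c (b k) = x := by
  have h1 := congrArg c (hb (c x))
  rw [T06_cc h, map_sum] at h1
  conv_rhs => rw [← h1]
  refine Finset.sum_congr rfl fun k _ => ?_
  rw [LinearMap.map_smulₛₗ, inner_conj_symm, q_symm h (b k) x, Complex.ofReal_one, one_mul]

theorem T06_tens (h : TypeQ s c 1) {ι : Type} [Fintype ι] {b : ι → E}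
    (hb : ∀ x, ∑ k, ⟪b k, x⟫_ℂ • b k = x) (A : g) {M : Type} [AddCommGroup M] [Module ℂ M]
    (F : E →ₗ[ℂ] E →ₗ[ℂ] M) :
    ∑ k, F (b k) (s.op A (c (b k))) = -∑ k, F (s.op A (b k)) (c (b k)) := by
  have h3 : ∀ k l, ⟪c (b l), s.op A (c (b k))⟫_ℂ = -⟪b k, s.op A (b l)⟫_ℂ := by
    intro k l
    have h4 := q_inv h A (b l) (c (b k))
    rw [h.iso] at h4
    rw [h4, neg_neg]
  have h5 : ∀ k, F (b k) (s.op A (c (b k))) = ∑ l, -(⟪b k, s.op A (b l)⟫_ℂ • F (b k) (c (b l))) := by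
    intro k
    conv_lhs => rw [← T06_exp h hb (s.op A (c (b k)))]
    rw [map_sum]
    refine Finset.sum_congr rfl fun l _ => ?_
    rw [map_smul, h3, neg_smul]
  rw [Finset.sum_congr rfl fun k _ => h5 k, Finset.sum_comm, ← Finset.sum_neg_distrib]
  refine Finset.sum_congr rfl fun l _ => ?_
  conv_rhs => rw [← hb (s.op A (b l))]
  rw [map_sum, LinearMap.sum_apply, ← Finset.sum_neg_distrib]
  refine Finset.sum_congr rfl fun k _ => ?_
  rw [map_smul, LinearMap.smul_apply]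

theorem T06_comm (h : TypeQ s c 1) (hγ : Clif c γ) {ι : Type} [Fintype ι] {b : ι → E}
    (hb : ∀ x, ∑ k, ⟪b k, x⟫_ℂ • b k = x) (A : g) (z : E) (f : S) :
    T06_R γ c b (s.op A) (γ z f) = γ z (T06_R γ c b (s.op A) f) + γ (s.op A z) f := by
  have h1 : ∑ k, ⟪b k, z⟫_ℂ • γ (s.op A (b k)) f = γ (s.op A z) f := by
    conv_rhs => rw [← hb z]
    simp only [map_sum, map_smul, LinearMap.sum_apply, LinearMap.smul_apply]
  have h2 : ∑ k, ⟪c (b k), s.op A z⟫_ℂ • γ (c (b k)) f = γ (s.op A z) f := by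
    conv_rhs => rw [← T06_exp h hb (s.op A z)]
    simp only [map_sum, map_smul, LinearMap.sum_apply, LinearMap.smul_apply]
  have h3 : ∀ k, T06_K γ (s.op A (b k)) (c (b k)) (γ z f) - γ z (T06_K γ (s.op A (b k)) (c (b k)) f) =
      (2 : ℂ) • (⟪b k, z⟫_ℂ • γ (s.op A (b k)) f) + (2 : ℂ) • (⟪c (b k), s.op A z⟫_ℂ • γ (c (b k)) f) := by
    intro k
    have h4 := T06_ac3 hγ (s.op A (b k)) (c (b k)) z f
    have h5 := T06_ac3 hγ (c (b k)) (s.op A (b k)) z f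
    rw [T06_cc h, q_inv h] at h4 h5
    rw [T06_K_apply, T06_K_apply, map_sub]
    have h6 : ∀ a b c d : S, a - b - (c - d) = (a - c) - (b - d) := by
      intro a b c d
      abel
    rw [h6, h4, h5]
    module
  have h7 : T06_R γ c b (s.op A) (γ z f) - γ z (T06_R γ c b (s.op A) f) = γ (s.op A z) f := by
    rw [T06_R_apply, T06_R_apply, map_smul, map_sum, ← smul_sub, ← Finset.sum_sub_distrib,
      Finset.sum_congr rfl fun k _ => h3 k, Finset.sum_add_distrib, ← Finset.smul_sum,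
      ← Finset.smul_sum, h1, h2]
    module
  rw [← h7]
  abel

theorem T06_der (h : TypeQ s c 1) (hγ : Clif c γ) {ι : Type} [Fintype ι] {b : ι → E}
    (hb : ∀ x, ∑ k, ⟪b k, x⟫_ℂ • b k = x) (A : g) (x y : E) (f : S) :
    T06_R γ c b (s.op A) (T06_K γ x y f) = T06_K γ x y (T06_R γ c b (s.op A) f) +
      (T06_K γ (s.op A x) y f + T06_K γ x (s.op A y) f) := by
  rw [T06_K_apply, map_sub, T06_comm h hγ hb A x (γ y f), T06_comm h hγ hb A y f,
    T06_comm h hγ hb A y (γ x f), T06_comm h hγ hb A x f, map_add, map_add, T06_K_apply, T06_K_apply,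
    T06_K_apply]
  abel

theorem T06_bracket (h : TypeQ s c 1) (hγ : Clif c γ) {ι : Type} [Fintype ι] {b : ι → E}
    (hb : ∀ x, ∑ k, ⟪b k, x⟫_ℂ • b k = x) (A B : g) (f : S) :
    T06_R γ c b (s.op (L.br A B)) f = T06_R γ c b (s.op A) (T06_R γ c b (s.op B) f) -
      T06_R γ c b (s.op B) (T06_R γ c b (s.op A) f) := by
  have h1 := congrArg (fun T : S →ₗ[ℂ] S => T f) (T06_tens h hb A (T06_K γ ∘ₗ s.op B))
  simp only [LinearMap.sum_apply, LinearMap.neg_apply, LinearMap.comp_apply] at h1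
  have h2 : T06_R γ c b (s.op A) (T06_R γ c b (s.op B) f) =
      T06_R γ c b (s.op B) (T06_R γ c b (s.op A) f) + (1 / 4 : ℂ) •
        (∑ k, T06_K γ (s.op A (s.op B (b k))) (c (b k)) f +
          ∑ k, T06_K γ (s.op B (b k)) (s.op A (c (b k))) f) := by
    rw [T06_R_apply γ c b (s.op B) f, T06_R_apply γ c b (s.op B) (T06_R γ c b (s.op A) f), map_smul,
      map_sum, ← smul_add, ← Finset.sum_add_distrib, ← Finset.sum_add_distrib]
    congr 1
    refine Finset.sum_congr rfl fun k _ => ?_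
    rw [T06_der h hγ hb]
  rw [h2, h1, add_sub_cancel_left, ← sub_eq_add_neg, T06_R_apply, ← Finset.sum_sub_distrib]
  congr 1
  refine Finset.sum_congr rfl fun k _ => ?_
  rw [s.bracket, map_sub, LinearMap.sub_apply, LinearMap.sub_apply]

theorem T06_adj (h : TypeQ s c 1) (hγ : Clif c γ) {ι : Type} [Fintype ι] {b : ι → E}
    (hb : ∀ x, ∑ k, ⟪b k, x⟫_ℂ • b k = x) (A : g) (f f' : S) :
    ⟪T06_R γ c b (s.op A) f, f'⟫_ℂ = -⟪f, T06_R γ c b (s.op (L.th A)) f'⟫_ℂ := by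
  have h1 := congrArg (fun T : S →ₗ[ℂ] S => T f') (T06_tens h hb (L.th A) (T06_K γ))
  simp only [LinearMap.sum_apply, LinearMap.neg_apply] at h1
  have h2 : ∀ k, ⟪T06_K γ (s.op A (b k)) (c (b k)) f, f'⟫_ℂ =
      ⟪f, T06_K γ (b k) (s.op (L.th A) (c (b k))) f'⟫_ℂ := by
    intro k
    rw [T06_K_apply, T06_K_apply, inner_sub_left, inner_sub_right, hγ.adj, hγ.adj, hγ.adj, hγ.adj,
      T06_cc h, q_cop h]
  have h3 : (starRingEnd ℂ) (1 / 4 : ℂ) = 1 / 4 := by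
    have h4 := Complex.conj_ofReal (1 / 4)
    push_cast at h4
    exact h4
  rw [T06_R_apply, T06_R_apply, inner_smul_left, inner_smul_right, sum_inner,
    Finset.sum_congr rfl fun k _ => h2 k, ← inner_sum, h1, inner_neg_right, h3, mul_neg]

end

section
variable {J : CStr L} {E : Type} [NormedAddCommGroup E] [InnerProductSpace ℂ E]
variable {s : CRep J E} {c : E →ₗ⋆[ℂ] E}

theorem exists_spin (h : TypeQ s c 1) {S : Type} [NormedAddCommGroup S] [InnerProductSpace ℂ S]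
    {γ : E →ₗ[ℂ] S →ₗ[ℂ] S} (hγ : Clif c γ) {ι : Type} [Fintype ι] (b : ι → E)
    (hb : ∀ x, ∑ k, ⟪b k, x⟫_ℂ • b k = x) :
    ∃ q : CRep J S, ∀ A f, q.op A f =
      (1 / 4 : ℂ) • ∑ k, (γ (s.op A (b k)) (γ (c (b k)) f) - γ (c (b k)) (γ (s.op A (b k)) f)) := by
  refine ⟨{ op := fun A => T06_R γ c b (s.op A)
            add := fun A B => by rw [s.add, T06_R_add]
            smul := fun r A => by rw [s.smul, T06_R_smul]
            bracket := fun A B f => T06_bracket h hγ hb A B f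
            lin := fun A => by rw [s.lin, T06_R_smul]
            adj := fun A f f' => T06_adj h hγ hb A f f' }, ?_⟩
  intro A f
  exact T06_R_apply γ c b (s.op A) f

end

end Pool.Agent.Lib.MP_4322ef_CH
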