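import Pool.Agent.Lib.MP_4322ef_CH.T03
import Pool.Agent.Lib.MP_4322ef_CH.T05
import Pool.Agent.Lib.MP_4322ef_CH.T06

/-!
# The spin representations

* `exists_clif`: `γ x = ∑ i, ⟪u i, x⟫ cr i + ∑ i, ⟪c (u i), x⟫ an i + ⟪w, x⟫ k par` with `k² = 1 / 2`, `k` real (here `e = 1`).
  `ac`: by the relations of file T05 both sides are
  `∑ i, (⟪u i, x⟫ ⟪c (u i), y⟫ + ⟪c (u i), x⟫ ⟪u i, y⟫) + ⟪w, x⟫ ⟪w, y⟫`; for the right hand side expand `c x` with `hb.exp x`
  (`c (c (u i)) = u i`, `c w = w`). `adj`: `⟪u i, c x⟫ = ⟪x, c (u i)⟫`, `⟪c (u i), c x⟫ = ⟪x, u i⟫`, `⟪w, c x⟫ = ⟪x, w⟫` (`q_cc`, `iso`).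
  `γ (u i) = cr i`, `γ (c (u i)) = an i` by `uu`, `uc`, `uw`.
* `clif_wt`: `exists_spin` for the family `Sum.elim u (Sum.elim (c ∘ u) (fun _ : Unit => w))` (`hb.exp`). For `H ∈ a`
  `q.op H = (1/4) ∑ (⟪ep i, H⟫ [cr i, an i] - ⟪ep i, H⟫ [an i, cr i]) = (1/2) ∑ ⟪ep i, H⟫ [cr i, an i]`, and `cr_an_vac`.
* `spin_all`: if `v ≠ 0` has the weight `lam` then `⟪vac I, v⟫ ≠ 0` for some `I`, and `wt_orth`.
* `spin_exists`: `I = {i | σ i = 1}`, `H₁ = ∑ i, (σ i (i + 1)) • H i` with the `H i` of `qb_H`; `⟪ep j, H₁⟫ = σ j (j + 1)`, so `H₁` is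
  regular (`qb_roots`), and `⟪yI I', H₁⟫ ≤ (1/2) ∑ (i + 1) = ⟪yI I, H₁⟫` for all `I'`; `hw_of_max`, then `exists_irr` (file N05)
  with `u₀ = vac I`, and `hw_ext` (file N08).
-/

set_option autoImplicit false

open scoped InnerProductSpace

namespace Pool.Agent.Lib.MP_4322ef_CH

open Pool.Agent.Lib.MP_4322ef_al.SR

variable {g : Type} [NormedAddCommGroup g] [InnerProductSpace ℝ g] {L : RedLie g}

/-- the weight `(± ep 1 ± … ± ep n) / 2`, with the signs `+` for `i ∈ I` -/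
noncomputable def yI {n : ℕ} (ep : Fin n → g) (I : Finset (Fin n)) : g :=
  (1 / 2 : ℝ) • ∑ i, (if i ∈ I then (1 : ℝ) else -1) • ep i

section
variable {J : CStr L} {E : Type} [NormedAddCommGroup E] [InnerProductSpace ℂ E]
variable {s : CRep J E} {c : E →ₗ⋆[ℂ] E}

/-- index type of the adapted basis -/
private abbrev T07_K (n : ℕ) : Type := Fin n ⊕ (Fin n ⊕ Unit)

/-- the operators -/
private noncomputable def T07_T {n : ℕ} : T07_K n → Fock n →ₗ[ℂ] Fock n :=
  Sum.elim cr (Sum.elim an (fun _ => par))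

/-- the coefficients -/
private noncomputable def T07_a (k : ℂ) {n : ℕ} (c : E →ₗ⋆[ℂ] E) (u : Fin n → E) (w : E) :
    T07_K n → E →ₗ[ℂ] ℂ :=
  Sum.elim (fun i => innerₛₗ ℂ (u i)) (Sum.elim (fun i => innerₛₗ ℂ (c (u i)))
    (fun _ => k • innerₛₗ ℂ w))

/-- the Clifford action -/
private noncomputable def T07_g (k : ℂ) {n : ℕ} (c : E →ₗ⋆[ℂ] E) (u : Fin n → E) (w : E) :
    E →ₗ[ℂ] Fock n →ₗ[ℂ] Fock n :=
  ∑ l, LinearMap.smulRight (T07_a k c u w l) (T07_T l)

private theorem T07_g_apply (k : ℂ) {n : ℕ} (c : E →ₗ⋆[ℂ] E) (u : Fin n → E) (w x : E)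
    (f : Fock n) : T07_g k c u w x f = ∑ l, T07_a k c u w l x • T07_T l f := by
  unfold T07_g
  rw [LinearMap.sum_apply, LinearMap.sum_apply]
  rfl

private theorem T07_g_split (k : ℂ) {n : ℕ} (c : E →ₗ⋆[ℂ] E) (u : Fin n → E) (w x : E)
    (f : Fock n) : T07_g k c u w x f = ∑ i, ⟪u i, x⟫_ℂ • cr i f +
      (∑ i, ⟪c (u i), x⟫_ℂ • an i f + (k * ⟪w, x⟫_ℂ) • par f) := by
  rw [T07_g_apply, Fintype.sum_sum_type, Fintype.sum_sum_type]
  simp only [Finset.univ_unique, Finset.sum_singleton]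
  rfl

private theorem T07_ac {n : ℕ} (l m : T07_K n) (f : Fock n) :
    T07_T l (T07_T m f) + T07_T m (T07_T l f) =
      (match l, m with
        | Sum.inl i, Sum.inr (Sum.inl j) => if i = j then (1 : ℂ) else 0
        | Sum.inr (Sum.inl i), Sum.inl j => if i = j then (1 : ℂ) else 0
        | Sum.inr (Sum.inr _), Sum.inr (Sum.inr _) => 2
        | _, _ => 0) • f := by
  rcases l with i | i | i <;> rcases m with j | j | j
  · simpa [T07_T] using cr_cr i j f
  · have h := cr_an i j f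
    simp only [T07_T, Sum.elim_inl, Sum.elim_inr]
    rw [h]
    split_ifs <;> simp
  · simpa [T07_T] using par_cr i f
  · have h := cr_an j i f
    simp only [T07_T, Sum.elim_inl, Sum.elim_inr]
    rw [add_comm, h]
    by_cases hij : i = j
    · rw [if_pos hij, if_pos hij.symm, one_smul]
    · rw [if_neg hij, if_neg (fun h => hij h.symm), zero_smul]
  · simpa [T07_T] using an_an i j f
  · simpa [T07_T] using par_an i f
  · have h := par_cr j f
    simp only [T07_T, Sum.elim_inl, Sum.elim_inr]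
    rw [add_comm, h]
    simp
  · have h := par_an j f
    simp only [T07_T, Sum.elim_inl, Sum.elim_inr]
    rw [add_comm, h]
    simp
  · simp only [T07_T, Sum.elim_inr, par_par]
    rw [two_smul]

private theorem T07_anti (k : ℂ) {n : ℕ} (c : E →ₗ⋆[ℂ] E) (u : Fin n → E) (w x y : E)
    (f : Fock n) : T07_g k c u w x (T07_g k c u w y f) + T07_g k c u w y (T07_g k c u w x f) =
      (∑ i, (⟪u i, x⟫_ℂ * ⟪c (u i), y⟫_ℂ) + ∑ i, (⟪c (u i), x⟫_ℂ * ⟪u i, y⟫_ℂ) +
        2 * (k * k) * (⟪w, x⟫_ℂ * ⟪w, y⟫_ℂ)) • f := by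
  have h1 : T07_g k c u w x (T07_g k c u w y f) + T07_g k c u w y (T07_g k c u w x f) =
      ∑ l, ∑ m, (T07_a k c u w l x * T07_a k c u w m y) •
        (T07_T l (T07_T m f) + T07_T m (T07_T l f)) := by
    simp only [smul_add, Finset.sum_add_distrib]
    congr 1
    · rw [T07_g_apply, T07_g_apply]
      refine Finset.sum_congr rfl fun l _ => ?_
      rw [map_sum, Finset.smul_sum]
      refine Finset.sum_congr rfl fun m _ => ?_
      rw [map_smul, smul_smul]
    · rw [T07_g_apply, T07_g_apply, Finset.sum_comm]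
      refine Finset.sum_congr rfl fun l _ => ?_
      rw [map_sum, Finset.smul_sum]
      refine Finset.sum_congr rfl fun m _ => ?_
      rw [map_smul, smul_smul, mul_comm]
  rw [h1]
  simp only [T07_ac, Fintype.sum_sum_type, Finset.univ_unique, Finset.sum_singleton, zero_smul,
    smul_zero, Finset.sum_const_zero, add_zero, zero_add]
  simp only [smul_smul, ← Finset.sum_smul, ← add_smul]
  congr 1
  simp only [mul_ite, mul_one, mul_zero, Finset.sum_ite_eq, Finset.mem_univ, if_true]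
  change ∑ i, (⟪u i, x⟫_ℂ * ⟪c (u i), y⟫_ℂ) + (∑ i, (⟪c (u i), x⟫_ℂ * ⟪u i, y⟫_ℂ) +
    (k * ⟪w, x⟫_ℂ) * (k * ⟪w, y⟫_ℂ) * 2) = _
  ring

private theorem T07_Q (h : TypeQ s c 1) (C : CSub L) {n : ℕ} {ep : Fin n → g} {u : Fin n → E}
    {w : E} (hb : QB C s c ep u w) (x y : E) : ⟪c x, y⟫_ℂ =
      ∑ i, (⟪u i, x⟫_ℂ * ⟪c (u i), y⟫_ℂ) + ∑ i, (⟪c (u i), x⟫_ℂ * ⟪u i, y⟫_ℂ) +
        ⟪w, x⟫_ℂ * ⟪w, y⟫_ℂ := by
  have hcc : ∀ z, c (c z) = z := by
    intro z
    rw [h.sq, Complex.ofReal_one, one_smul]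
  conv_lhs => rw [hb.exp x]
  rw [map_add, map_add, map_sum, map_sum, inner_add_left, inner_add_left, sum_inner, sum_inner]
  simp only [LinearMap.map_smulₛₗ, inner_smul_left, RingHomCompTriple.comp_apply,
    RingHom.id_apply, hcc, hb.cw]

private theorem T07_u (h : TypeQ s c 1) (x y : E) : ⟪x, c y⟫_ℂ = ⟪y, c x⟫_ℂ := by
  rw [q_cc h, Complex.ofReal_one, one_mul]

theorem exists_clif (h : TypeQ s c 1) (C : CSub L) {n : ℕ} {ep : Fin n → g} {u : Fin n → E} {w : E}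
    (hb : QB C s c ep u w) : ∃ γ : E →ₗ[ℂ] Fock n →ₗ[ℂ] Fock n, Clif c γ ∧
      (∀ i f, γ (u i) f = cr i f) ∧ ∀ i f, γ (c (u i)) f = an i f := by
  obtain ⟨r, hr⟩ : ∃ r : ℝ, r * r = 1 / 2 := ⟨Real.sqrt (1 / 2), Real.mul_self_sqrt (by norm_num)⟩
  have hrc : 2 * ((r : ℂ) * (r : ℂ)) = 1 := by
    rw [← Complex.ofReal_mul, hr]
    norm_num
  refine ⟨T07_g (r : ℂ) c u w, ⟨?_, ?_⟩, ?_, ?_⟩
  · intro x y f
    rw [T07_anti, T07_Q h C hb x y, hrc, one_mul]
  · intro x f k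
    have e1 : ∀ i, ⟪u i, c x⟫_ℂ = star ⟪c (u i), x⟫_ℂ := by
      intro i
      rw [T07_u h]
      exact (inner_conj_symm _ _).symm
    have e2 : ∀ i, ⟪c (u i), c x⟫_ℂ = star ⟪u i, x⟫_ℂ := by
      intro i
      rw [h.iso]
      exact (inner_conj_symm _ _).symm
    have e3 : ⟪w, c x⟫_ℂ = star ⟪w, x⟫_ℂ := by
      rw [T07_u h, hb.cw]
      exact (inner_conj_symm _ _).symm
    rw [T07_g_split, T07_g_split, inner_add_left, inner_add_left, inner_add_right, inner_add_right,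
      sum_inner, sum_inner, inner_sum, inner_sum]
    have e4 : star (r : ℂ) = r := Complex.conj_ofReal r
    simp only [inner_smul_left, inner_smul_right, cr_adj, an_adj, par_adj, e1, e2, e3, map_mul,
      starRingEnd_apply, e4]
    ring
  · intro i f
    have e2 : ∀ j, ⟪u j, u i⟫_ℂ = if j = i then 1 else 0 := fun j => hb.uu j i
    have e3 : ∀ j, ⟪c (u j), u i⟫_ℂ = 0 := fun j => hb.uc j i
    have e4 : ⟪w, u i⟫_ℂ = 0 := inner_eq_zero_symm.1 (hb.uw i)
    rw [T07_g_split]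
    simp only [e2, e3, e4, ite_smul, one_smul, zero_smul, Finset.sum_ite_eq', Finset.mem_univ,
      if_true, Finset.sum_const_zero, mul_zero, add_zero]
  · intro i f
    have e2 : ∀ j, ⟪u j, c (u i)⟫_ℂ = 0 := fun j => inner_eq_zero_symm.1 (hb.uc i j)
    have e3 : ∀ j, ⟪c (u j), c (u i)⟫_ℂ = if j = i then 1 else 0 := by
      intro j
      rw [h.iso, hb.uu]
      by_cases hij : i = j
      · rw [if_pos hij, if_pos hij.symm]
      · rw [if_neg hij, if_neg (fun h => hij h.symm)]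
    have e4 : ⟪w, c (u i)⟫_ℂ = 0 := by
      rw [T07_u h, hb.cw]
      exact hb.uw i
    rw [T07_g_split]
    simp only [e2, e3, e4, ite_smul, one_smul, zero_smul, Finset.sum_ite_eq', Finset.mem_univ,
      if_true, Finset.sum_const_zero, mul_zero, add_zero, zero_add]

theorem clif_wt (h : TypeQ s c 1) (C : CSub L) {n : ℕ} {ep : Fin n → g} {u : Fin n → E} {w : E}
    (hb : QB C s c ep u w) : ∃ q : CRep J (Fock n), ∀ I, WV q C.a (yI ep I) (vac I) := by
  obtain ⟨γ, hγ, hu, hcu⟩ := exists_clif h C hb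
  obtain ⟨q, hq⟩ := exists_spin h hγ
    (Sum.elim u (Sum.elim (fun i => c (u i)) (fun _ : Unit => w)) : T07_K n → E) (by
      intro x
      rw [Fintype.sum_sum_type, Fintype.sum_sum_type]
      simp only [Sum.elim_inl, Sum.elim_inr, Finset.univ_unique, Finset.sum_singleton]
      rw [← add_assoc]
      exact (hb.exp x).symm)
  refine ⟨q, fun I H hH => ?_⟩
  have hcc : ∀ z, c (c z) = z := by
    intro z
    rw [h.sq, Complex.ofReal_one, one_smul]
  have h1 : ∀ i, s.op H (u i) = (⟪ep i, H⟫_ℝ : ℂ) • u i := fun i => hb.wt i H hH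
  have h2 : ∀ i, s.op H (c (u i)) = (-(⟪ep i, H⟫_ℝ : ℂ)) • c (u i) := by
    intro i
    have h3 := q_cwt h C (hb.wt i) H hH
    rw [inner_neg_left, Complex.ofReal_neg] at h3
    exact h3
  have h3 : s.op H w = 0 := by
    have h4 := hb.wt0 H hH
    rw [inner_zero_left, Complex.ofReal_zero, zero_smul] at h4
    exact h4
  rw [hq, Fintype.sum_sum_type, Fintype.sum_sum_type]
  simp only [Sum.elim_inl, Sum.elim_inr, Finset.univ_unique, Finset.sum_singleton, h1, h2, h3,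
    hcc, map_smul, map_zero, LinearMap.smul_apply, LinearMap.zero_apply, hu, hcu,
    add_zero, sub_self]
  have h5 : ∀ i, (⟪ep i, H⟫_ℝ : ℂ) • cr i (an i (vac I)) - (⟪ep i, H⟫_ℝ : ℂ) • an i (cr i (vac I)) =
      ((⟪ep i, H⟫_ℝ : ℂ) * (if i ∈ I then (1 : ℂ) else -1)) • vac I := by
    intro i
    rw [← smul_sub, cr_an_vac, smul_smul]
  have h6 : ∀ i, (-(⟪ep i, H⟫_ℝ : ℂ)) • an i (cr i (vac I)) -
      (-(⟪ep i, H⟫_ℝ : ℂ)) • cr i (an i (vac I)) =
      ((⟪ep i, H⟫_ℝ : ℂ) * (if i ∈ I then (1 : ℂ) else -1)) • vac I := by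
    intro i
    rw [← h5]
    module
  simp only [h5, h6]
  rw [← Finset.sum_smul, ← add_smul, smul_smul]
  congr 1
  unfold yI
  rw [inner_smul_left, sum_inner]
  simp only [inner_smul_left]
  push_cast
  rw [← two_mul, ← mul_assoc]
  congr 1
  · norm_num
  · refine Finset.sum_congr rfl fun i _ => ?_
    split_ifs <;> simp

theorem spin_all (C : CSub L) {n : ℕ} {ep : Fin n → g} (hep : ∀ i, ep i ∈ C.a)
    (q : CRep J (Fock n)) (hq : ∀ I, WV q C.a (yI ep I) (vac I)) {lam : g} (hl : IsW q C.a lam) :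
    ∃ I, lam = yI ep I := by
  obtain ⟨hla, v, hv, hw⟩ := hl
  by_contra hcon
  push Not at hcon
  apply hv
  ext I
  have hy : yI ep I ∈ C.a :=
    C.a.smul_mem _ (C.a.sum_mem fun i _ => C.a.smul_mem _ (hep i))
  have h1 := wt_orth q C hy hla (hq I) hw (fun h => hcon I h.symm)
  unfold vac at h1
  rw [EuclideanSpace.inner_single_left] at h1
  simpa using h1

theorem spin_exists [FiniteDimensional ℝ g] (h : TypeQ s c 1) (C : CSub L) {n : ℕ}
    {ep : Fin n → g} {u : Fin n → E} {w : E} (hb : QB C s c ep u w) (σ : Fin n → ℝ)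
    (hσ : ∀ i, |σ i| = 1) : ∃ (Y : Type) (_ : NormedAddCommGroup Y) (_ : InnerProductSpace ℂ Y)
      (_ : FiniteDimensional ℂ Y) (p : CRep J Y), Irr p ∧
        IsExt J C.a p.op ⊤ ((1 / 2 : ℝ) • ∑ i, σ i • ep i) := by
  classical
  obtain ⟨q, hq⟩ := clif_wt h C hb
  choose H hHa hH using qb_H h C hb
  set I : Finset (Fin n) := Finset.univ.filter fun i => σ i = 1 with hI
  set H₁ : g := ∑ i, (σ i * ((i : ℝ) + 1)) • H i with hH₁
  have hmem : H₁ ∈ C.a := C.a.sum_mem fun i _ => C.a.smul_mem _ (hHa i)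
  have hval : ∀ j, ⟪ep j, H₁⟫_ℝ = σ j * ((j : ℝ) + 1) := by
    intro j
    rw [hH₁, inner_sum]
    simp only [inner_smul_right, hH]
    simp
  have hpos : ∀ j : Fin n, (0 : ℝ) < (j : ℝ) + 1 := fun j => by positivity
  have hreg : Reg L C.a H₁ := by
    refine ⟨hmem, fun al hal => ?_⟩
    rw [qb_roots h C hb] at hal
    rcases hal with ⟨i, j, σ', τ, hij, h1, h2, rfl⟩ | ⟨i, σ', h0, h1, rfl⟩
    · rw [inner_add_left, inner_smul_left, inner_smul_left, hval, hval]
      intro h3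
      simp only [conj_trivial] at h3
      have h4 : |σ' * (σ i * ((i : ℝ) + 1))| = |τ * (σ j * ((j : ℝ) + 1))| := by
        rw [eq_neg_of_add_eq_zero_left h3, abs_neg]
      rw [abs_mul, abs_mul, abs_mul, abs_mul, h1, h2, hσ, hσ, abs_of_pos (hpos i),
        abs_of_pos (hpos j)] at h4
      apply hij
      have h5 : ((i : ℕ) : ℝ) = ((j : ℕ) : ℝ) := by linarith
      exact Fin.ext (by exact_mod_cast h5)
    · rw [inner_smul_left, hval]
      simp only [conj_trivial]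
      intro h3
      have h4 : |σ' * (σ i * ((i : ℝ) + 1))| = 0 := by rw [h3, abs_zero]
      rw [abs_mul, abs_mul, h1, hσ, abs_of_pos (hpos i), one_mul] at h4
      rcases mul_eq_zero.1 h4 with h5 | h5
      · exact h0 (by exact_mod_cast h5)
      · exact absurd h5 (hpos i).ne'
  have hyI : yI ep I = (1 / 2 : ℝ) • ∑ i, σ i • ep i := by
    unfold yI
    congr 1
    refine Finset.sum_congr rfl fun i _ => ?_
    congr 1
    by_cases h1 : σ i = 1
    · rw [if_pos (by rw [hI]; simp [h1]), h1]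
    · rw [if_neg (by rw [hI]; simp [h1])]
      rcases abs_eq (zero_le_one' ℝ) |>.1 (hσ i) with h2 | h2
      · exact absurd h2 h1
      · exact h2.symm
  have hyv : ∀ I' : Finset (Fin n), ⟪yI ep I', H₁⟫_ℝ =
      (1 / 2) * ∑ i, (if i ∈ I' then (1 : ℝ) else -1) * (σ i * ((i : ℝ) + 1)) := by
    intro I'
    unfold yI
    rw [inner_smul_left, sum_inner]
    simp only [inner_smul_left, hval, conj_trivial]
  have hya : yI ep I ∈ C.a :=
    C.a.smul_mem _ (C.a.sum_mem fun i _ => C.a.smul_mem _ (hb.mem i))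
  have hvac : vac I ≠ 0 := by
    intro h1
    have h2 := congrArg (fun f : Fock n => f I) h1
    simp [vac] at h2
  have hmax : ∀ lam, IsW q C.a lam → ⟪lam, H₁⟫_ℝ ≤ ⟪yI ep I, H₁⟫_ℝ := by
    intro lam hlam
    obtain ⟨I', rfl⟩ := spin_all C hb.mem q hq hlam
    rw [hyv, hyv]
    refine mul_le_mul_of_nonneg_left (Finset.sum_le_sum fun i _ => ?_) (by norm_num)
    have h1 : (if i ∈ I then (1 : ℝ) else -1) * (σ i * ((i : ℝ) + 1)) = (i : ℝ) + 1 := by
      by_cases h1 : σ i = 1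
      · rw [if_pos (by rw [hI]; simp [h1]), h1]
        ring
      · rw [if_neg (by rw [hI]; simp [h1])]
        rcases abs_eq (zero_le_one' ℝ) |>.1 (hσ i) with h2 | h2
        · exact absurd h2 h1
        · rw [h2]
          ring
    rw [h1]
    refine (le_abs_self _).trans ?_
    rw [abs_mul, abs_mul, hσ, abs_of_pos (hpos i), one_mul]
    split_ifs <;> simp
  have hu := hw_of_max q C hmem hya hvac (hq I) hmax
  obtain ⟨V, t, ht, -, v, hv, -⟩ := exists_irr q C hu (vac I) (by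
    intro h1
    exact hvac (inner_self_eq_zero.1 h1))
  rw [← hyI]
  exact ⟨V, inferInstance, inferInstance, inferInstance, t, ht, hw_ext t C hreg hv⟩

end

end Pool.Agent.Lib.MP_4322ef_CH
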