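import Pool.Agent.Lib.MP_4322ef_CH.P08
import Pool.Agent.Lib.MP_4322ef_CE.Mg.G003
import Pool.Agent.Lib.MP_4322ef_CH.T02
import Pool.Agent.Lib.MP_4322ef_CH.T04
import Pool.Agent.Lib.MP_4322ef_CH.T07

/-!
# The classical Lie algebras; the final theorem
-/

set_option autoImplicit false

open scoped InnerProductSpace

namespace Pool.Agent.Lib.MP_4322ef_CH

open Pool.Agent.Lib.MP_4322ef_al.SR

variable {g : Type} [NormedAddCommGroup g] [InnerProductSpace ℝ g] {L : RedLie g}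

/-- two orthogonal roots -/
theorem T08_two {a : Submodule ℝ g} {H p q : g} (hp : p ∈ roots L a) (hq : q ∈ roots L a)
    (hpq : ⟪p, q⟫_ℝ = 0) (hall : ∀ al ∈ roots L a, al = p ∨ al = -p ∨ al = q ∨ al = -q)
    (hpH : 0 < ⟪p, H⟫_ℝ) (hqH : 0 < ⟪q, H⟫_ℝ) :
    ∃ S : Finset g, Gen L a H S ∧
      ∀ y ∈ S, Mins L a y ∧ (y = (1 / 2 : ℝ) • p ∨ y = (1 / 2 : ℝ) • q) := by
  classical
  have hpp : 0 < ⟪p, p⟫_ℝ := real_inner_self_pos.2 hp.2.1
  have hqq : 0 < ⟪q, q⟫_ℝ := real_inner_self_pos.2 hq.2.1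
  have hqp : ⟪q, p⟫_ℝ = 0 := by rw [real_inner_comm]; exact hpq
  have hne : (1 / 2 : ℝ) • p ≠ (1 / 2 : ℝ) • q := by
    intro h
    have h1 : p = q := smul_right_injective g (by norm_num : (1 / 2 : ℝ) ≠ 0) h
    rw [h1] at hpq
    exact hqq.ne' hpq
  refine ⟨{(1 / 2 : ℝ) • p, (1 / 2 : ℝ) • q}, ⟨?_, ?_⟩, ?_⟩
  · intro y hy al ha hpos
    rw [Finset.mem_insert, Finset.mem_singleton] at hy
    rcases hy with rfl | rfl <;> rcases hall al ha with rfl | rfl | rfl | rfl <;>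
      simp only [inner_neg_left, real_inner_smul_right, hpq, hqp] at hpos ⊢ <;> linarith
  · intro x hx hd
    have h1 := hd p hp hpH
    have h2 := hd q hq hqH
    refine ⟨fun y => if y = (1 / 2 : ℝ) • p then 2 * ⟪p, x⟫_ℝ / ⟪p, p⟫_ℝ else
      2 * ⟪q, x⟫_ℝ / ⟪q, q⟫_ℝ, ?_, ?_⟩
    · intro y _
      show 0 ≤ if y = (1 / 2 : ℝ) • p then 2 * ⟪p, x⟫_ℝ / ⟪p, p⟫_ℝ else
        2 * ⟪q, x⟫_ℝ / ⟪q, q⟫_ℝ
      split_ifs <;> positivity
    · have h3 : ∑ y ∈ ({(1 / 2 : ℝ) • p, (1 / 2 : ℝ) • q} : Finset g),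
          (if y = (1 / 2 : ℝ) • p then 2 * ⟪p, x⟫_ℝ / ⟪p, p⟫_ℝ else
            2 * ⟪q, x⟫_ℝ / ⟪q, q⟫_ℝ) • y =
          (⟪p, x⟫_ℝ / ⟪p, p⟫_ℝ) • p + (⟪q, x⟫_ℝ / ⟪q, q⟫_ℝ) • q := by
        rw [Finset.sum_pair hne, if_pos rfl, if_neg (Ne.symm hne), smul_smul, smul_smul]
        congr 2 <;> ring
      have e1 : ⟪p, x⟫_ℝ / ⟪p, p⟫_ℝ * ⟪p, p⟫_ℝ = ⟪p, x⟫_ℝ := div_mul_cancel₀ _ hpp.ne'
      have e2 : ⟪q, x⟫_ℝ / ⟪q, q⟫_ℝ * ⟪q, q⟫_ℝ = ⟪q, x⟫_ℝ := div_mul_cancel₀ _ hqq.ne'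
      intro al ha
      show ⟪al, x - ∑ y ∈ ({(1 / 2 : ℝ) • p, (1 / 2 : ℝ) • q} : Finset g),
          (if y = (1 / 2 : ℝ) • p then 2 * ⟪p, x⟫_ℝ / ⟪p, p⟫_ℝ else
            2 * ⟪q, x⟫_ℝ / ⟪q, q⟫_ℝ) • y⟫_ℝ = 0
      rw [h3]
      rcases hall al ha with rfl | rfl | rfl | rfl <;>
        simp only [inner_neg_left, inner_sub_right, inner_add_right, real_inner_smul_right, hpq,
          hqp, e1, e2] <;> ring
  · intro y hy
    rw [Finset.mem_insert, Finset.mem_singleton] at hy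
    refine ⟨?_, hy⟩
    intro al ha
    rcases hy with rfl | rfl <;> rcases hall al ha with rfl | rfl | rfl | rfl <;>
      simp only [inner_neg_left, inner_neg_right, real_inner_smul_left, hpq, hqp, abs_neg,
        neg_neg, mul_zero, abs_zero, abs_mul] <;>
      first
        | positivity
        | (rw [abs_of_pos (by norm_num : (0 : ℝ) < 1 / 2), abs_of_pos (by assumption)]; linarith)

/-- `so(4)`: the roots are `± ep 0 ± ep 1`, the weights needed are their halves -/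
theorem so4_gen (C : CSub L) {ep : Fin 2 → g}
    (hr : ∀ al, al ∈ roots L C.a ↔ ∃ i j, ∃ σ τ : ℝ, i ≠ j ∧ |σ| = 1 ∧ |τ| = 1 ∧
      al = σ • ep i + τ • ep j) (ho : ⟪ep 0 + ep 1, ep 0 - ep 1⟫_ℝ = 0) {H : g}
    (hH : Reg L C.a H) :
    ∃ S : Finset g, Gen L C.a H S ∧ ∀ y ∈ S, Mins L C.a y ∧
      ∃ σ : Fin 2 → ℝ, (∀ i, |σ i| = 1) ∧ y = (1 / 2 : ℝ) • ∑ i, σ i • ep i := by
  have key : ∀ s t : ℝ, |s| = 1 → |t| = 1 → s • (ep 0 + ep 1) ∈ roots L C.a ∧
      t • (ep 0 - ep 1) ∈ roots L C.a := by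
    intro s t hs ht
    constructor
    · rw [hr]
      exact ⟨0, 1, s, s, by decide, hs, hs, smul_add _ _ _⟩
    · rw [hr]
      refine ⟨0, 1, t, -t, by decide, ht, by rw [abs_neg, ht], ?_⟩
      rw [smul_sub, neg_smul, sub_eq_add_neg]
  have hall : ∀ s t : ℝ, |s| = 1 → |t| = 1 → ∀ al ∈ roots L C.a, al = s • (ep 0 + ep 1) ∨
      al = -(s • (ep 0 + ep 1)) ∨ al = t • (ep 0 - ep 1) ∨ al = -(t • (ep 0 - ep 1)) := by
    intro s t hs ht al ha
    obtain ⟨i, j, σ, τ, hij, hσ, hτ, rfl⟩ := (hr al).1 ha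
    have h1 : ∃ a b : ℝ, |a| = 1 ∧ |b| = 1 ∧ σ • ep i + τ • ep j = a • ep 0 + b • ep 1 := by
      have hi : i = 0 ∨ i = 1 := by omega
      have hj : j = 0 ∨ j = 1 := by omega
      rcases hi with rfl | rfl <;> rcases hj with rfl | rfl
      · exact absurd rfl hij
      · exact ⟨σ, τ, hσ, hτ, rfl⟩
      · exact ⟨τ, σ, hτ, hσ, add_comm _ _⟩
      · exact absurd rfl hij
    obtain ⟨a, b, ha', hb', h2⟩ := h1
    rw [h2]
    rcases (abs_eq zero_le_one).1 ha' with rfl | rfl <;>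
      rcases (abs_eq zero_le_one).1 hb' with rfl | rfl <;>
      rcases (abs_eq zero_le_one).1 hs with rfl | rfl <;>
      rcases (abs_eq zero_le_one).1 ht with rfl | rfl
    · left; module
    · left; module
    · right; left; module
    · right; left; module
    · right; right; left; module
    · right; right; right; module
    · right; right; left; module
    · right; right; right; module
    · right; right; right; module
    · right; right; left; module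
    · right; right; right; module
    · right; right; left; module
    · right; left; module
    · right; left; module
    · left; module
    · left; module
  have hsgn : ∀ x : g, (∀ s : ℝ, |s| = 1 → s • x ∈ roots L C.a) →
      ∃ s : ℝ, |s| = 1 ∧ 0 < ⟪s • x, H⟫_ℝ := by
    intro x hx
    have h1 : ⟪x, H⟫_ℝ ≠ 0 := by
      have h2 := hH.2 _ (hx 1 abs_one)
      rw [one_smul] at h2
      exact h2
    rcases lt_or_gt_of_ne h1 with h2 | h2
    · refine ⟨-1, by simp, ?_⟩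
      rw [real_inner_smul_left]
      linarith
    · refine ⟨1, by simp, ?_⟩
      rw [real_inner_smul_left]
      linarith
  obtain ⟨s, hs, hsH⟩ := hsgn _ fun s hs => (key s 1 hs abs_one).1
  obtain ⟨t, ht, htH⟩ := hsgn _ fun t ht => (key 1 t abs_one ht).2
  obtain ⟨S, hS, hS'⟩ := T08_two (key s t hs ht).1 (key s t hs ht).2
    (by rw [real_inner_smul_left, real_inner_smul_right, ho, mul_zero, mul_zero])
    (hall s t hs ht) hsH htH
  refine ⟨S, hS, fun y hy => ⟨(hS' y hy).1, ?_⟩⟩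
  rcases (hS' y hy).2 with rfl | rfl
  · refine ⟨![s, s], ?_, ?_⟩
    · intro i
      fin_cases i <;> exact hs
    · rw [Fin.sum_univ_two]
      simp [smul_add]
  · refine ⟨![t, -t], ?_, ?_⟩
    · intro i
      fin_cases i
      · exact ht
      · show |-t| = 1
        rw [abs_neg, ht]
    · rw [Fin.sum_univ_two]
      simp [sub_eq_add_neg]

theorem typeQ_good [FiniteDimensional ℝ g] {X : Type} [NormedAddCommGroup X]
    [InnerProductSpace ℂ X] {J : CStr L} (C : CSub L) (r : HC L X) {V₀ : Submodule ℂ X}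
    (hV₀ : IsKType L r.op V₀) {mu : g} (hmu : IsExt J C.a r.op V₀ mu)
    {E : Type} [NormedAddCommGroup E] [InnerProductSpace ℂ E] [FiniteDimensional ℂ E]
    {s : CRep J E} {c : E →ₗ⋆[ℂ] E} {e : ℝ} (h : TypeQ s c e) {H : g} (hH : Reg L C.a H) :
    ∃ S : Finset g, Gen L C.a H S ∧ ∀ y ∈ S, Good J C.a r.op V₀ mu y := by
  obtain ⟨n, ep, u, w, hb⟩ := exists_qb h C
  have hroots := qb_roots h C hb
  have he : qm e w ≠ 2 → e = 1 := by
    intro h1
    by_contra h2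
    exact h1 (by rw [qm, if_neg h2])
  by_cases hn : 3 ≤ n ∨ qm e w ≠ 0
  · refine classical_good C r hV₀ hmu (Or.inr ⟨qm e w, n, ep, qb_bcd h C hb (Or.inr hn),
      ⟨E, ‹_›, ‹_›, ‹_›, s, qb_nat h C hb (hn.imp (fun h => (by omega)) id)⟩, fun hm σ hσ => ?_⟩) hH
    have he1 := he hm
    subst he1
    exact spin_exists h C hb σ hσ
  push Not at hn
  have he1 := he (by rw [hn.2]; norm_num)
  by_cases h2 : n = 2
  · subst h2
    have ho : ⟪ep 0 + ep 1, ep 0 - ep 1⟫_ℝ = 0 := by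
      obtain ⟨N, hN, h3⟩ := qb_norm h C hb (i := 0) (j := 1) (by decide) abs_one abs_one
      have h4 := h3 0
      have h5 := h3 1
      rw [one_smul, one_smul] at h4 h5
      simp only [if_true, if_false, Fin.isValue, zero_ne_one, one_ne_zero] at h4 h5
      have h6 : N * ⟪ep 0 + ep 1, ep 0 - ep 1⟫_ℝ = 0 := by
        rw [real_inner_comm, inner_sub_left, mul_sub]
        linarith
      exact (mul_eq_zero.1 h6).resolve_left hN.ne'
    obtain ⟨S, hS, hS'⟩ := so4_gen C (ep := ep) (fun al => by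
      rw [hroots]
      constructor
      · rintro (h3 | ⟨i, σ, h3, -⟩)
        · exact h3
        · exact absurd hn.2 h3
      · exact fun h3 => Or.inl h3) ho hH
    refine ⟨S, hS, fun y hy => ?_⟩
    obtain ⟨hm, σ, hσ, rfl⟩ := hS' y hy
    subst he1
    obtain ⟨Y, j1, j2, j3, p, hp, hpe⟩ := spin_exists h C hb σ hσ
    exact ⟨Y, j1, j2, j3, p, hp, hpe, Or.inl hm⟩
  · have hemp : ∀ al, al ∉ roots L C.a := by
      intro al ha
      rcases (hroots al).1 ha with ⟨i, j, σ, τ, hij, -⟩ | ⟨i, σ, h3, -⟩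
      · apply hij
        have := i.isLt
        have := j.isLt
        apply Fin.ext
        omega
      · exact h3 hn.2
    refine ⟨∅, ⟨fun y hy => absurd hy (Finset.notMem_empty y), fun x _ _ =>
      ⟨fun _ => 0, fun _ _ => le_rfl, fun al ha => absurd ha (hemp al)⟩⟩,
      fun y hy => absurd hy (Finset.notMem_empty y)⟩

theorem final' [FiniteDimensional ℝ g] (J : CStr L) (C : CSub L)
    {X : Type} [NormedAddCommGroup X] [InnerProductSpace ℂ X] (r : HC L X) (B : InvForm r)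
    {V₀ : Submodule ℂ X} (hV₀ : IsKType L r.op V₀) {mu nu z : g} (hmu : IsExt J C.a r.op V₀ mu)
    (hnu : nu ∈ C.a) (hX : IsLang J C.a r.op mu nu)
    (hz : z ∈ C.a) (hz0 : ∀ al ∈ roots L C.a, ⟪al, z⟫_ℝ = 0)
    (hg : ClassicalLie J ∨ FundData J C.a r.op V₀ mu)
    (hin : InHull L C.a (mu - z))
    (hout : ¬(InHull L C.a (mu + nu - z) ∧ InHull L C.a (mu - nu - z))) :
    ∃ V₁ V₂ : Submodule ℂ X, IsKType L r.op V₁ ∧ IsKType L r.op V₂ ∧
      SmallAt J C.a r.op z V₁ ∧ SmallAt J C.a r.op z V₂ ∧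
      (∀ v ∈ V₁, v ≠ 0 → 0 < (B.form v v).re) ∧ ∀ v ∈ V₂, v ≠ 0 → (B.form v v).re < 0 := by
  refine literal_z' J C r B hV₀ hmu hnu hX hz hz0 ?_ hin hout
  rcases hg with ⟨E, i1, i2, i3, s, hs | ⟨c, e, hs⟩⟩ | h
  · exact fun H hH => typeA_good r.op s hs C V₀ mu hH
  · exact fun H hH => typeQ_good C r hV₀ hmu hs hH
  · exact h

end Pool.Agent.Lib.MP_4322ef_CH
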